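import Pool.Agent.Helper60.PB.G1.EDefs

set_option autoImplicit false

/-!
# G1-02 ETrace: the quadratic extension `L' / L₀`

`eq_zero`: if `a + b y = 0` with `a, b ∈ L₀` then `a = b = 0`: write `a = p / q`, `b = r / s` with polynomials
(`C.line.exists_div`), multiply by `q s`, and use `C.leg.indep`.

`finite`: `1, y` generate `L'` over `L₀`. `trace_eq`: `1, y` is a basis; multiplication by `b y` has the matrix
`[[0, b f], [b, 0]]` (`f = t (t - 1) (t - l) ∈ L₀`), so its trace is zero; `trace a = 2 a`.

`ecurve_of_adjoin`: `L₀ = K'(t)` (as an intermediate field). `IsLine`: `t` is transcendental over `K'` also as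
an element of `L₀`, and generates `L₀` (for instance `IntermediateField.adjoin_simple_...`, or
`IntermediateField.lift`/`map`-injectivity). `gen`: the set `L₀ + L₀ y` is a subring of `L'` containing `L₀`
and `y` (`y ^ 2 ∈ L₀`), finite dimensional over the field `L₀`, so it is a field; it contains `t` and
`y`, so it is everything. (Or: `y` is algebraic over `L₀`, `L' = L₀(y)`, and the power basis of
`IntermediateField.adjoin.powerBasis`: every element is a polynomial in `y` of degree `≤ 1`.)

`adjoin_eq_top`: conversely.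
-/

namespace Pool.Agent.Helper60.PB

open Pool.Agent.Helper92.Weak Pool.Agent.Helper92.Ga Polynomial

private theorem aeval_mem_of_mem {K' L' : Type*} [Field K'] [Field L'] [Algebra K' L']
    (S : IntermediateField K' L') {x : L'} (hx : x ∈ S) (p : K'[X]) : aeval x p ∈ S := by
  have h := aeval_algebraMap_apply L' (⟨x, hx⟩ : S) p
  have h2 : algebraMap S L' ⟨x, hx⟩ = x := rfl
  rw [h2] at h
  rw [h]
  exact (aeval (⟨x, hx⟩ : S) p).2

section

variable {K' L₀ L' : Type*} [Field K'] [Field L₀] [Field L'] [Algebra K' L₀] [Algebra K' L']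
  [Algebra L₀ L'] [IsScalarTower K' L₀ L'] {t₀ : L₀} {y : L'} {l : K'}

namespace ECurve

theorem eq_zero (C : ECurve t₀ y l) {a b : L₀} (h : algebraMap L₀ L' a + algebraMap L₀ L' b * y = 0) :
    a = 0 ∧ b = 0 := by
  obtain ⟨p, q, hq, rfl⟩ := C.line.exists_div a
  obtain ⟨r, s, hs, rfl⟩ := C.line.exists_div b
  have hq' : aeval (algebraMap L₀ L' t₀) q ≠ 0 := by
    rw [aeval_algebraMap_apply]
    exact (_root_.map_ne_zero _).2 (C.line.aeval_ne hq)
  have hs' : aeval (algebraMap L₀ L' t₀) s ≠ 0 := by
    rw [aeval_algebraMap_apply]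
    exact (_root_.map_ne_zero _).2 (C.line.aeval_ne hs)
  rw [map_div₀, map_div₀, ← aeval_algebraMap_apply, ← aeval_algebraMap_apply,
    ← aeval_algebraMap_apply, ← aeval_algebraMap_apply] at h
  have h1 : aeval (algebraMap L₀ L' t₀) (p * s) + aeval (algebraMap L₀ L' t₀) (r * q) * y = 0 := by
    rw [map_mul, map_mul]
    field_simp at h
    linear_combination h
  obtain ⟨h2, h3⟩ := C.leg.indep _ _ h1
  have h4 : p = 0 := by
    rcases mul_eq_zero.1 h2 with h5 | h5
    · exact h5
    · exact absurd h5 hs
  have h6 : r = 0 := by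
    rcases mul_eq_zero.1 h3 with h5 | h5
    · exact h5
    · exact absurd h5 hq
  rw [h4, h6]
  simp

theorem finite (C : ECurve t₀ y l) : FiniteDimensional L₀ L' := by
  refine Module.finite_def.2 (Submodule.fg_def.2 ⟨{1, y}, Set.toFinite _, ?_⟩)
  rw [eq_top_iff]
  rintro z -
  obtain ⟨a, b, rfl⟩ := C.gen z
  rw [Algebra.algebraMap_eq_smul_one, ← Algebra.smul_def]
  exact add_mem (Submodule.smul_mem _ _ (Submodule.subset_span (by simp)))
    (Submodule.smul_mem _ _ (Submodule.subset_span (by simp)))

theorem trace_eq (C : ECurve t₀ y l) (a b : L₀) :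
    Algebra.trace L₀ L' (algebraMap L₀ L' a + algebraMap L₀ L' b * y) = 2 * a := by
  have hli : LinearIndependent L₀ ![(1 : L'), y] := by
    rw [LinearIndependent.pair_iff]
    intro u v huv
    apply C.eq_zero
    rw [Algebra.algebraMap_eq_smul_one, ← Algebra.smul_def]
    exact huv
  have hsp : ⊤ ≤ Submodule.span L₀ (Set.range ![(1 : L'), y]) := by
    rintro z -
    obtain ⟨u, v, rfl⟩ := C.gen z
    rw [Algebra.algebraMap_eq_smul_one, ← Algebra.smul_def]
    exact add_mem (Submodule.smul_mem _ _ (Submodule.subset_span ⟨0, rfl⟩))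
      (Submodule.smul_mem _ _ (Submodule.subset_span ⟨1, rfl⟩))
  let B : Module.Basis (Fin 2) L₀ L' := Module.Basis.mk hli hsp
  have hB0 : B 0 = 1 := by
    simp [B]
  have hB1 : B 1 = y := by
    simp [B]
  have hrep : ∀ u v : L₀, B.repr (algebraMap L₀ L' u + algebraMap L₀ L' v * y) =
      Finsupp.single 0 u + Finsupp.single 1 v := by
    intro u v
    rw [Algebra.algebraMap_eq_smul_one, ← Algebra.smul_def, map_add, map_smul, map_smul, ← hB0,
      ← hB1, B.repr_self, B.repr_self]
    simp
  rw [Algebra.trace_eq_matrix_trace B, Matrix.trace_fin_two, Algebra.leftMulMatrix_eq_repr_mul,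
    Algebra.leftMulMatrix_eq_repr_mul, hB0, hB1]
  have h1 : (algebraMap L₀ L' a + algebraMap L₀ L' b * y) * 1 =
      algebraMap L₀ L' a + algebraMap L₀ L' b * y := mul_one _
  have h2 : (algebraMap L₀ L' a + algebraMap L₀ L' b * y) * y =
      algebraMap L₀ L' (b * (t₀ * (t₀ - 1) * (t₀ - algebraMap K' L₀ l))) +
        algebraMap L₀ L' a * y := by
    have h3 := C.leg.eq
    have h4 : algebraMap L₀ L' (b * (t₀ * (t₀ - 1) * (t₀ - algebraMap K' L₀ l))) =
        algebraMap L₀ L' b * y ^ 2 := by
      rw [h3]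
      simp only [map_mul, map_sub, map_one]
      rw [← IsScalarTower.algebraMap_apply K' L₀ L']
    rw [h4]
    ring
  rw [h1, h2, hrep, hrep]
  simp
  ring

theorem adjoin_eq_top (C : ECurve t₀ y l) :
    IntermediateField.adjoin K' {algebraMap L₀ L' t₀, y} = ⊤ := by
  rw [eq_top_iff]
  rintro z -
  obtain ⟨a, b, rfl⟩ := C.gen z
  have ht : algebraMap L₀ L' t₀ ∈ IntermediateField.adjoin K' {algebraMap L₀ L' t₀, y} :=
    IntermediateField.subset_adjoin _ _ (by simp)
  have hy : y ∈ IntermediateField.adjoin K' {algebraMap L₀ L' t₀, y} :=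
    IntermediateField.subset_adjoin _ _ (by simp)
  have hp : ∀ p : K'[X], aeval (algebraMap L₀ L' t₀) p ∈
      IntermediateField.adjoin K' {algebraMap L₀ L' t₀, y} := fun p =>
    aeval_mem_of_mem _ ht p
  have hL : ∀ c : L₀, algebraMap L₀ L' c ∈
      IntermediateField.adjoin K' {algebraMap L₀ L' t₀, y} := by
    intro c
    obtain ⟨p, q, hq, rfl⟩ := C.line.exists_div c
    rw [map_div₀, ← aeval_algebraMap_apply, ← aeval_algebraMap_apply]
    exact div_mem (hp p) (hp q)
  exact add_mem (hL a) (mul_mem (hL b) hy)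

end ECurve

end

theorem ecurve_of_adjoin {K' L' : Type*} [Field K'] [Field L'] [Algebra K' L'] {t y : L'} {l : K'}
    (h : Leg t y l) (hg : IntermediateField.adjoin K' {t, y} = ⊤) :
    ECurve (L₀ := IntermediateField.adjoin K' {t})
      (⟨t, IntermediateField.mem_adjoin_simple_self K' t⟩ : IntermediateField.adjoin K' {t}) y l := by
  have hcoe : ∀ p : K'[X], ((aeval (⟨t, IntermediateField.mem_adjoin_simple_self K' t⟩ :
      IntermediateField.adjoin K' {t}) p : IntermediateField.adjoin K' {t}) : L') = aeval t p := by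
    intro p
    exact (aeval_algebraMap_apply L' (⟨t, IntermediateField.mem_adjoin_simple_self K' t⟩ :
      IntermediateField.adjoin K' {t}) p).symm
  refine ⟨⟨?_, ?_⟩, h, ?_⟩
  · rw [transcendental_iff]
    intro p hp
    refine (transcendental_iff.1 h.tr) p ?_
    rw [← hcoe, hp]
    rfl
  · rw [eq_top_iff]
    rintro z -
    have hz := z.2
    rw [IntermediateField.mem_adjoin_simple_iff] at hz
    obtain ⟨a, b, hab⟩ := hz
    have h1 : z = aeval (⟨t, IntermediateField.mem_adjoin_simple_self K' t⟩ :
        IntermediateField.adjoin K' {t}) a / aeval (⟨t, IntermediateField.mem_adjoin_simple_self K' t⟩ :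
        IntermediateField.adjoin K' {t}) b := by
      apply Subtype.ext
      rw [hab, ← hcoe, ← hcoe]
      rfl
    rw [h1]
    exact div_mem (aeval_mem_of_mem _ (IntermediateField.mem_adjoin_simple_self K' _) a)
      (aeval_mem_of_mem _ (IntermediateField.mem_adjoin_simple_self K' _) b)
  · have hf : ∃ f : IntermediateField.adjoin K' {t},
        algebraMap (IntermediateField.adjoin K' {t}) L' f = y ^ 2 := by
      refine ⟨(⟨t, IntermediateField.mem_adjoin_simple_self K' t⟩ :
        IntermediateField.adjoin K' {t}) * ((⟨t, IntermediateField.mem_adjoin_simple_self K' t⟩ :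
        IntermediateField.adjoin K' {t}) - 1) * ((⟨t, IntermediateField.mem_adjoin_simple_self K' t⟩ :
        IntermediateField.adjoin K' {t}) - algebraMap K' _ l), ?_⟩
      rw [h.eq]
      rfl
    obtain ⟨f, hf⟩ := hf
    have hyi : IsIntegral (IntermediateField.adjoin K' {t}) y := by
      refine ⟨X ^ 2 - C f, monic_X_pow_sub_C f two_ne_zero, ?_⟩
      rw [eval₂_sub, eval₂_X_pow, eval₂_C, hf, sub_self]
    have htop : IntermediateField.adjoin (IntermediateField.adjoin K' {t}) {y} = ⊤ := by
      apply IntermediateField.restrictScalars_injective K'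
      rw [IntermediateField.adjoin_adjoin_left, IntermediateField.restrictScalars_top, ← hg]
      rfl
    intro z
    have hz : z ∈ Algebra.adjoin (IntermediateField.adjoin K' {t}) {y} := by
      rw [← IntermediateField.adjoin_simple_toSubalgebra_of_isAlgebraic hyi.isAlgebraic, htop]
      trivial
    induction hz using Algebra.adjoin_induction with
    | mem x hx =>
      rw [Set.mem_singleton_iff] at hx
      exact ⟨0, 1, by rw [hx]; simp⟩
    | algebraMap r => exact ⟨r, 0, by simp⟩
    | add x x' _ _ h1 h2 =>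
      obtain ⟨a, b, rfl⟩ := h1
      obtain ⟨c, d, rfl⟩ := h2
      exact ⟨a + c, b + d, by rw [map_add, map_add]; ring⟩
    | mul x x' _ _ h1 h2 =>
      obtain ⟨a, b, rfl⟩ := h1
      obtain ⟨c, d, rfl⟩ := h2
      refine ⟨a * c + b * d * f, a * d + b * c, ?_⟩
      rw [map_add, map_add, map_mul, map_mul, map_mul, map_mul, map_mul, hf]
      ring

end Pool.Agent.Helper60.PB
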