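import Pool.Agent.Helper60.PB.ValGe
import Pool.Agent.Helper60.PB.G1.ETrace
import Pool.Agent.Helper63.PB.Approx
import Pool.Agent.Helper92.Ga.Gauss

set_option autoImplicit false

/-!
# G1-13 BadE: linear bounds for the coefficients at an arbitrary valuation of `K'`

`val_ge_slope`: `w` a discrete valuation of `L`, `D` a divisor on `X`. There is `C` such that for every `A`
there is `C'` with `w f ≥ -(C m + C')` for all `m` and `f ∈ H⁰(X, m D + A)`. PROOF. The same as `val_ge_mul`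
in ValGe.lean: by `VG_mult` there are `g, c` with `D P ≤ P g + c μ(P)` (`VG_mult` for the multiplicities
`⌈D P⌉₊`), and `g', c'` for `A`; with the chart `i` containing the centre of `w`,
`f g ^ m g' / y_i ^ (c m + c')` is in the coordinate ring of the chart (`VG_chart_hartogs`), so
`w f ≥ -(|w g| + c |w y_i|) m - (|w g'| + c' |w y_i|)`.
`val_ge_slope_ext`: the same for a discrete valuation of an extension field (as `val_ge_ext`).

`bad_coeff`: `Q'` a discrete valuation of `K'`, `D` a divisor on `X`, `g₁ ∈ L'` nonzero. There is `C` such that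
for every `A` and `g₂ ≠ 0` there is `C'` such that: if `f ∈ H⁰(X, m D + A)` and
`f g₁ ^ m g₂ = p₀(t) + p₁(t) y`, then all coefficients `b` of `p₀, p₁` satisfy `Q' b ≥ -(C m + C')`.
PROOF. Let `w₀ = gaussVal C.line.isTorus Q'` on `L₀ = K'(t₀)`. There are only finitely many `w` on `L'` over
`w₀` (`finite_above`, `L' / L₀` is finite by `C.finite`). For each of them `val_ge_slope_ext` gives constants;
let `C₁`, `C₁'` be the maxima (`C₁ ≥ C_w + |w g₁|`, `C₁' ≥ C'_w + |w g₂| + |w y|`). So `w F ≥ -(C₁ m + C₁')` and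
`w (F y) ≥ -(C₁ m + C₁')` for `F = f g₁ ^ m g₂` and all `w` over `w₀`, and `Helper47.PQ.trace_ge` (with
`q = -(C₁ m + C₁') ≤ 0`, so `e q ≤ q`) gives the same bound for `w₀` of `trace F = 2 p₀(t₀)` and
`trace (F y) = 2 p₁(t₀) f(t₀)`, `f = t₀ (t₀ - 1) (t₀ - l)` (`trace_eq`, `y ^ 2 = f`; `w₀ 2 = 0`). So
`w₀ (p₀(t₀)) ≥ -(C₁ m + C₁')`, `w₀ (p₁(t₀)) ≥ -(C₁ m + C₁' + |w₀ f|)`. Finally
`w₀ (p(t₀)) ≤ Q' (p.coeff j)` for nonzero coefficients (`gaussVal_ev_le`; `p(t₀)` as an `ev`, compare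
`Ga/Gauss.lean`, `Ga/Line.lean`).
-/

namespace Pool.Agent.Helper60.PB

open Pool.Agent.Helper92.Weak Pool.Agent.Helper92.Ga Pool.Agent.Helper63.PB

private theorem bade_mult {k L : Type*} [Field k] [Field L] [Algebra k L] (X : ProjVar k L)
    (A : X.Div) : ∃ (g : L) (c : ℕ), g ≠ 0 ∧
      ∀ P : X.primeDivisors, A P ≤ P.1 g + c * VGmu X P.1 := by
  classical
  obtain ⟨g, c, hg0, hg1, hg2⟩ := VG_mult X (fun P => ⌈A P⌉₊) A.support
  refine ⟨g, c, hg0, fun P => ?_⟩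
  by_cases hP : P ∈ A.support
  · have h1 := hg2 P hP
    have h2 : A P ≤ (⌈A P⌉₊ : ℚ) := Nat.le_ceil _
    have h3 : ((⌈A P⌉₊ : ℤ) : ℚ) ≤ ((P.1 g + c * VGmu X P.1 : ℤ) : ℚ) := by
      exact_mod_cast h1
    push_cast at h3
    linarith
  · rw [Finsupp.notMem_support_iff] at hP
    rw [hP]
    have h1 := hg1 P
    have h2 : ((-(c * VGmu X P.1) : ℤ) : ℚ) ≤ ((P.1 g : ℤ) : ℚ) := by exact_mod_cast h1
    push_cast at h2
    linarith

theorem val_ge_slope {k L : Type*} [Field k] [Field L] [Algebra k L] (X : ProjVar k L) (D : X.Div)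
    (w : DVal k L) : ∃ C : ℕ, ∀ A : X.Div, ∃ C' : ℕ, ∀ (m : ℕ), ∀ f ∈ X.H0 ((m : ℚ) • D + A),
      w.Ge (-((C : ℚ) * m + C')) f := by
  classical
  obtain ⟨g, c, hg0, hDg⟩ := bade_mult X D
  obtain ⟨i, -, hi⟩ := Finset.exists_min_image (Finset.univ : Finset (Fin (X.n + 1)))
    (fun i => w (X.x i)) Finset.univ_nonempty
  have hle : chart k X.x i ≤ w.ring := by
    rw [ProjVar.chart_le_iff]
    intro j
    rw [DVal.mem_ring, DVal.map_div _ (X.x_ne j) (X.x_ne i)]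
    have := hi j (Finset.mem_univ j)
    omega
  refine ⟨(w g).natAbs + c * (w (VGy X i)).natAbs, fun A => ?_⟩
  obtain ⟨g', c', hg0', hAg⟩ := bade_mult X A
  refine ⟨(w g').natAbs + c' * (w (VGy X i)).natAbs, fun m f hf => ?_⟩
  by_cases hf0 : f = 0
  · exact Or.inl hf0
  have hfP : ∀ P : X.primeDivisors, -(m * D P + A P) ≤ (P.1 f : ℚ) := by
    intro P
    unfold ProjVar.H0 sec at hf
    rw [Submodule.mem_iInf] at hf
    have h1 := hf P
    rw [DVal.mem_filt, DVal.ge_iff hf0, Finsupp.add_apply, Finsupp.smul_apply, smul_eq_mul] at h1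
    exact h1
  have hgm : g ^ m * g' ≠ 0 := mul_ne_zero (pow_ne_zero _ hg0) hg0'
  have hfg0 : f * (g ^ m * g') ≠ 0 := mul_ne_zero hf0 hgm
  have hy0 : VGy X i ^ (c * m + c') ≠ 0 := pow_ne_zero _ (VGy_ne X i)
  have hz : f * (g ^ m * g') / VGy X i ^ (c * m + c') ∈ chart k X.x i := by
    apply VG_chart_hartogs
    intro P hP hPle
    rw [P.map_div hfg0 hy0, P.map_mul hf0 hgm, P.map_mul (pow_ne_zero _ hg0) hg0', P.map_pow,
      P.map_pow, VGmu_chart X P i hPle]
    have h1 := hfP ⟨P, hP⟩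
    have h2 := hDg ⟨P, hP⟩
    have h2' := hAg ⟨P, hP⟩
    change D ⟨P, hP⟩ ≤ P g + c * VGmu X P at h2
    change A ⟨P, hP⟩ ≤ P g' + c' * VGmu X P at h2'
    change -(m * D ⟨P, hP⟩ + A ⟨P, hP⟩) ≤ (P f : ℚ) at h1
    have h3 : (m : ℚ) * D ⟨P, hP⟩ ≤ m * (P g + c * VGmu X P) :=
      mul_le_mul_of_nonneg_left h2 (Nat.cast_nonneg m)
    have h4 : (0 : ℚ) ≤ ((P f + (m * P g + P g') - (c * m + c' : ℕ) * -VGmu X P : ℤ) : ℚ) := by
      push_cast
      linarith
    exact_mod_cast h4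
  have hwz := hle hz
  rw [DVal.mem_ring, w.map_div hfg0 hy0, w.map_mul hf0 hgm, w.map_mul (pow_ne_zero _ hg0) hg0',
    w.map_pow, w.map_pow] at hwz
  right
  have h1 : w g ≤ (w g).natAbs := Int.le_natAbs
  have h1' : w g' ≤ (w g').natAbs := Int.le_natAbs
  have h2 : -w (VGy X i) ≤ (w (VGy X i)).natAbs := by
    have := Int.le_natAbs (a := -w (VGy X i))
    rwa [Int.natAbs_neg] at this
  have h3 : (m : ℤ) * w g ≤ m * (w g).natAbs := mul_le_mul_of_nonneg_left h1 (Int.natCast_nonneg m)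
  have h4 : ((c * m + c' : ℕ) : ℤ) * -w (VGy X i) ≤
      ((c * m + c' : ℕ) : ℤ) * (w (VGy X i)).natAbs :=
    mul_le_mul_of_nonneg_left h2 (Int.natCast_nonneg _)
  have h5 : -((((w g).natAbs + c * (w (VGy X i)).natAbs : ℕ) : ℤ) * m +
      (((w g').natAbs + c' * (w (VGy X i)).natAbs : ℕ) : ℤ)) ≤ w f := by
    push_cast at h1' h3 h4 hwz ⊢
    linarith
  exact_mod_cast h5

theorem val_ge_slope_ext {k L E : Type*} [Field k] [Field L] [Algebra k L] [Field E] [Algebra k E]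
    [Algebra L E] [IsScalarTower k L E] (X : ProjVar k L) (D : X.Div) (w : DVal k E) :
    ∃ C : ℕ, ∀ A : X.Div, ∃ C' : ℕ, ∀ (m : ℕ), ∀ f ∈ X.H0 ((m : ℚ) • D + A),
      w.Ge (-((C : ℚ) * m + C')) (algebraMap L E f) := by
  by_cases h : ∃ a : L, w (algebraMap L E a) ≠ 0
  · obtain ⟨Q, e, he, hQ⟩ := exists_base w h
    obtain ⟨C, hC⟩ := val_ge_slope X D Q
    refine ⟨C * e, fun A => ?_⟩
    obtain ⟨C', hC'⟩ := hC A
    refine ⟨C' * e, fun m f hf => ?_⟩
    rcases hC' m f hf with h1 | h1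
    · left; rw [h1, map_zero]
    · right
      rw [hQ]
      have h2 : (0 : ℚ) ≤ e := Nat.cast_nonneg e
      have h3 := mul_le_mul_of_nonneg_left h1 h2
      push_cast
      linarith
  · push Not at h
    refine ⟨0, fun A => ⟨0, fun m f _ => ?_⟩⟩
    right
    rw [h f]
    simp

/-- The coefficients of a polynomial have at least the Gauss value. -/
private theorem bade_coeff {k K' L₀ : Type*} [Field k] [Field K'] [Field L₀] [Algebra k K']
    [Algebra k L₀] [Algebra K' L₀] [IsScalarTower k K' L₀] {t₀ : L₀} (h : IsLine K' t₀)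
    (Q' : DVal k K') (p : Polynomial K') (j : ℕ) (hj : p.coeff j ≠ 0) :
    gaussVal h.isTorus Q' (Polynomial.aeval t₀ p) ≤ Q' (p.coeff j) := by
  classical
  set f : (Fin 1 → ℤ) →₀ K' :=
    ∑ i ∈ p.support, Finsupp.single (fun _ => (i : ℤ)) (p.coeff i) with hf
  have h1 : f (fun _ => (j : ℤ)) = p.coeff j := by
    rw [hf, Finsupp.finsetSum_apply, Finset.sum_eq_single j]
    · rw [Finsupp.single_eq_same]
    · intro i _ hij
      rw [Finsupp.single_apply, if_neg]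
      intro h2
      apply hij
      have h3 := congrFun h2 0
      simpa using h3
    · intro h2
      rw [Finsupp.single_eq_same]
      exact Polynomial.notMem_support_iff.1 h2
  have h2 : ev K' (fun _ : Fin 1 => t₀) f = Polynomial.aeval t₀ p := by
    rw [hf, map_sum, Polynomial.aeval_eq_sum_range' (n := p.natDegree + 1) (by omega)]
    rw [← Finset.sum_subset (Polynomial.supp_subset_range (Nat.lt_succ_self _))]
    · refine Finset.sum_congr rfl fun i _ => ?_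
      rw [ev_single]
      simp [mono]
    · intro i _ hi
      rw [Polynomial.notMem_support_iff.1 hi, zero_smul]
  rw [← h2, ← h1]
  exact gaussVal_ev_le h.isTorus Q' (by rw [h1]; exact hj)

theorem bad_coeff {k L K' L₀ L' : Type*} [Field k] [Field L] [Field K'] [Field L₀] [Field L']
    [Algebra k L] [Algebra k K'] [Algebra k L₀] [Algebra k L'] [Algebra L L'] [Algebra K' L₀]
    [Algebra K' L'] [Algebra L₀ L'] [IsScalarTower k L L'] [IsScalarTower k K' L₀]
    [IsScalarTower k K' L'] [IsScalarTower k L₀ L'] [IsScalarTower K' L₀ L'] [CharZero k]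
    {t₀ : L₀} {y : L'} {l : K'} (C : ECurve t₀ y l) (X : ProjVar k L) (D : X.Div)
    (Q' : DVal k K') {g₁ : L'} (hg₁ : g₁ ≠ 0) : ∃ C₁ : ℕ, ∀ (A : X.Div) (g₂ : L'), g₂ ≠ 0 →
      ∃ C₂ : ℕ, ∀ (m : ℕ) (f : L), f ∈ X.H0 ((m : ℚ) • D + A) → ∀ p₀ p₁ : Polynomial K',
        algebraMap L L' f * g₁ ^ m * g₂ = Polynomial.aeval (algebraMap L₀ L' t₀) p₀ +
          Polynomial.aeval (algebraMap L₀ L' t₀) p₁ * y → ∀ j,
        Q'.Ge (-((C₁ : ℚ) * m + C₂)) (p₀.coeff j) ∧ Q'.Ge (-((C₁ : ℚ) * m + C₂)) (p₁.coeff j) := by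
  classical
  have := C.finite
  set w₀ : DVal k L₀ := gaussVal C.line.isTorus Q' with hw₀
  set T : Finset (DVal k L') := (finite_above (E' := L') w₀).toFinset with hT
  have hmemT : ∀ (w : DVal k L') (ε : ℕ), LiesOver w w₀ ε → w ∈ T := fun w ε hw => by
    rw [hT, Set.Finite.mem_toFinset]
    exact ⟨ε, hw⟩
  choose c hc using fun w : DVal k L' => val_ge_slope_ext X D w
  refine ⟨∑ w ∈ T, (c w + (w g₁).natAbs), fun A g₂ hg₂ => ?_⟩
  choose c' hc' using fun w : DVal k L' => hc w A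
  set f₀ : L₀ := t₀ * (t₀ - 1) * (t₀ - algebraMap K' L₀ l) with hf₀
  have hmap : algebraMap L₀ L' f₀ = y ^ 2 := by
    rw [C.leg.eq, hf₀, map_mul, map_mul, map_sub, map_sub, map_one,
      ← IsScalarTower.algebraMap_apply K' L₀ L']
  have hf₀0 : f₀ ≠ 0 := by
    intro h
    rw [h, map_zero] at hmap
    exact pow_ne_zero 2 C.leg.y0 hmap.symm
  obtain ⟨a, ha⟩ : ∃ a : ℕ, w₀ f₀ ≤ a := ⟨(w₀ f₀).natAbs, Int.le_natAbs⟩
  set S : ℕ := ∑ w ∈ T, (c' w + (w g₂).natAbs + (w y).natAbs) with hS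
  set S₁ : ℕ := ∑ w ∈ T, (c w + (w g₁).natAbs) with hS₁
  refine ⟨S + a, fun m f hf p₀ p₁ hF j => ?_⟩
  set q : ℤ := -((S₁ : ℤ) * m + S) with hq
  have hq0 : q ≤ 0 := by
    rw [hq]
    have : (0 : ℤ) ≤ (S₁ : ℤ) * m + S := by positivity
    omega
  set F : L' := algebraMap L L' f * g₁ ^ m * g₂ with hFdef
  have hpow : g₁ ^ m ≠ 0 := pow_ne_zero _ hg₁
  -- the bound for `F` and `F y` at all valuations over `w₀`
  have hb : ∀ w ∈ T, w.Ge (q : ℚ) F ∧ w.Ge (q : ℚ) (F * y) := by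
    intro w hw
    have h1 : (c w + (w g₁).natAbs : ℕ) ≤ S₁ :=
      Finset.single_le_sum (f := fun w : DVal k L' => c w + (w g₁).natAbs)
        (fun _ _ => Nat.zero_le _) hw
    have h2 : (c' w + (w g₂).natAbs + (w y).natAbs : ℕ) ≤ S :=
      Finset.single_le_sum (f := fun w : DVal k L' => c' w + (w g₂).natAbs + (w y).natAbs)
        (fun _ _ => Nat.zero_le _) hw
    have h1' : ((c w : ℚ) + ((w g₁).natAbs : ℚ)) ≤ S₁ := by exact_mod_cast h1
    have h2' : ((c' w : ℚ) + ((w g₂).natAbs : ℚ) + ((w y).natAbs : ℚ)) ≤ S := by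
      exact_mod_cast h2
    have h3 := hc' w m f hf
    have habs : ∀ z : ℤ, -((z.natAbs : ℕ) : ℚ) ≤ (z : ℚ) := by
      intro z
      have h4 : -((z.natAbs : ℕ) : ℤ) ≤ z := by
        have := Int.le_natAbs (a := -z)
        rw [Int.natAbs_neg] at this
        omega
      exact_mod_cast h4
    have h4 : w.Ge ((m : ℚ) * (w g₁ : ℚ)) (g₁ ^ m) := by
      right
      rw [w.map_pow]
      push_cast
      exact le_rfl
    have h5 := (h3.mul h4).mul (DVal.ge_self (v := w) g₂)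
    have h6 := h5.mul (DVal.ge_self (v := w) y)
    have hm : (0 : ℚ) ≤ m := Nat.cast_nonneg m
    have h7 : -((m : ℚ) * ((w g₁).natAbs : ℚ)) ≤ (m : ℚ) * (w g₁ : ℚ) := by
      have := mul_le_mul_of_nonneg_left (habs (w g₁)) hm
      linarith
    have h8 : ((c w : ℚ) + ((w g₁).natAbs : ℚ)) * m ≤ S₁ * m := mul_le_mul_of_nonneg_right h1' hm
    have h9 := habs (w g₂)
    have h10 := habs (w y)
    have h11 : (0 : ℚ) ≤ ((w y).natAbs : ℚ) := Nat.cast_nonneg _
    constructor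
    · refine h5.mono ?_
      rw [hq]
      push_cast
      linarith
    · refine h6.mono ?_
      rw [hq]
      push_cast
      linarith
  have htr : ∀ x : L', (∀ w ∈ T, w.Ge (q : ℚ) x) → w₀.Ge (q : ℚ) (Algebra.trace L₀ L' x) := by
    intro x hx
    refine Pool.Agent.Helper47.PQ.trace_ge w₀ fun w ε hw => ?_
    refine (hx w (hmemT w ε hw)).mono ?_
    have h1 : (1 : ℚ) ≤ ε := by exact_mod_cast hw.1
    have h2 : (q : ℚ) ≤ 0 := by exact_mod_cast hq0
    nlinarith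
  have haev : ∀ p : Polynomial K', Polynomial.aeval (algebraMap L₀ L' t₀) p =
      algebraMap L₀ L' (Polynomial.aeval t₀ p) := fun p =>
    Polynomial.aeval_algebraMap_apply L' t₀ p
  have hF1 : F = algebraMap L₀ L' (Polynomial.aeval t₀ p₀) +
      algebraMap L₀ L' (Polynomial.aeval t₀ p₁) * y := by
    rw [hF, haev, haev]
  have hF2 : F * y = algebraMap L₀ L' (Polynomial.aeval t₀ p₁ * f₀) +
      algebraMap L₀ L' (Polynomial.aeval t₀ p₀) * y := by
    rw [hF1, map_mul, hmap]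
    ring
  have h2k : (2 : k) ≠ 0 := two_ne_zero
  have hhalf : ∀ x : L₀, w₀.Ge (q : ℚ) (2 * x) → w₀.Ge (q : ℚ) x := by
    intro x hx
    have h1 := hx.smul (2 : k)⁻¹
    have h2 : (2 : k)⁻¹ • (2 * x) = x := by
      have h3 : (2 : L₀) * x = (2 : k) • x := by
        rw [Algebra.smul_def, map_ofNat]
      rw [h3, smul_smul, inv_mul_cancel₀ h2k, one_smul]
    rwa [h2] at h1
  have ht0 : w₀.Ge (q : ℚ) (Polynomial.aeval t₀ p₀) := by
    apply hhalf
    have h1 := htr F fun w hw => (hb w hw).1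
    rwa [hF1, C.trace_eq] at h1
  have ht1 : w₀.Ge (q : ℚ) (Polynomial.aeval t₀ p₁ * f₀) := by
    apply hhalf
    have h1 := htr (F * y) fun w hw => (hb w hw).2
    rwa [hF2, C.trace_eq] at h1
  have hfin : ∀ p : Polynomial K', w₀.Ge ((q - a : ℤ) : ℚ) (Polynomial.aeval t₀ p) →
      Q'.Ge (-((S₁ : ℚ) * m + (S + a : ℕ))) (p.coeff j) := by
    intro p hp
    by_cases hj : p.coeff j = 0
    · exact Or.inl hj
    right
    have h1 := bade_coeff C.line Q' p j hj
    have hp0 : Polynomial.aeval t₀ p ≠ 0 := by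
      intro h
      have h2 := (C.line.aeval_eq_zero).1 h
      rw [h2] at hj
      simp at hj
    rw [DVal.ge_iff hp0] at hp
    have h3 : ((gaussVal C.line.isTorus Q' (Polynomial.aeval t₀ p) : ℤ) : ℚ) ≤ Q' (p.coeff j) := by
      exact_mod_cast h1
    have h4 := hp.trans h3
    rw [hq] at h4
    push_cast at h4 ⊢
    linarith
  refine ⟨hfin p₀ (ht0.mono ?_), hfin p₁ ?_⟩
  · push_cast
    have : (0 : ℚ) ≤ (a : ℚ) := Nat.cast_nonneg _
    linarith
  · by_cases hp : Polynomial.aeval t₀ p₁ = 0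
    · exact Or.inl hp
    right
    rw [DVal.ge_iff (mul_ne_zero hp hf₀0), w₀.map_mul hp hf₀0] at ht1
    have h2 : (w₀ f₀ : ℚ) ≤ ((a : ℤ) : ℚ) := by exact_mod_cast ha
    push_cast at ht1 h2 ⊢
    linarith

end Pool.Agent.Helper60.PB
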