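import Pool.Agent.Helper60.PB.G1Val
import Pool.Agent.Helper60.PB.Taylor
import Pool.Agent.Helper60.PB.Kummer

set_option autoImplicit false

/-!
# G1-12 GoodE: coefficients at a good valuation

`v` over `Q'` (`Q'` on `K'`, ramification `e'`), `D` the derivation of `L' / K'` with `D t = 1`, `v (D g) ≥ v g`
for all `g`, `v t = 0`, `v l = 0`, `v (1 - l) = 0`.

`gauss_of_good`: polynomials `q` over `K'` satisfy `v (q(t)) ≤ v (coefficients)`: `taylor_bound` with
`Λ = 0` (the loss `n (max 0 0 + |v t|)` is zero).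

`good_coeff`: `kummer_ge` for `K := K'`, `Q := Q'`, `N = 2`, `ι = Fin 3`, `a = (0, 1, l)`, `n = (1, 1, 1)`, `c = 1`,
`F 0 = p₀`, `F 1 = p₁`, and `gauss_of_good` (twice). `Q' l = 0` since `v l = e' Q' l`; the same for `1 - l`.
-/

namespace Pool.Agent.Helper60.PB

open Pool.Agent.Helper92.Weak

variable {k K' L' : Type*} [Field k] [Field K'] [Field L'] [Algebra k K'] [Algebra k L']
  [Algebra K' L'] [IsScalarTower k K' L'] [CharZero k] {t y : L'} {l : K'} {v : DVal k L'}
  {D : Derivation K' L' L'}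

theorem gauss_of_good (hD : D t = 1) (hv : ∀ g : L', v.Ge (v g) (D g)) (h1 : v t = 0)
    {p : Polynomial K'} {r : ℚ} (hr : v.Ge r (Polynomial.aeval t p)) (j : ℕ) :
    v.Ge r (algebraMap K' L' (p.coeff j)) := by
  have hD' : ∀ (r : ℚ) (g : L'), v.Ge r g → v.Ge (r - 0) (D g) := by
    intro r g hg
    rw [sub_zero]
    rcases hg with hg | hg
    · rw [hg, Derivation.map_zero]
      exact DVal.Ge.zero
    · exact (hv g).mono hg
  have h := taylor_bound v D hD hD' p le_rfl hr j
  rw [h1] at h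
  simpa using h

theorem good_coeff {Q' : DVal k K'} {e' : ℕ} (h : LiesOver v Q' e') (hl : Leg t y l)
    (hD : D t = 1) (hv : ∀ g : L', v.Ge (v g) (D g)) (h1 : v t = 0)
    (h2 : v (algebraMap K' L' l) = 0) (h3 : v (1 - algebraMap K' L' l) = 0)
    {p₀ p₁ : Polynomial K'} {r : ℚ}
    (hr : v.Ge r (Polynomial.aeval t p₀ + Polynomial.aeval t p₁ * y)) (j : ℕ) :
    v.Ge r (algebraMap K' L' (p₀.coeff j)) ∧ v.Ge r (algebraMap K' L' (p₁.coeff j)) := by
  have he : (e' : ℤ) ≠ 0 := by
    have := h.1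
    omega
  have hQl : Q' l = 0 := by
    have h4 := h.2 l
    rw [h2] at h4
    rcases mul_eq_zero.1 h4.symm with h5 | h5
    · exact absurd h5 he
    · exact h5
  have hQ1 : Q' (1 - l) = 0 := by
    have h4 := h.2 (1 - l)
    rw [map_sub, map_one, h3] at h4
    rcases mul_eq_zero.1 h4.symm with h5 | h5
    · exact absurd h5 he
    · exact h5
  have hQ1' : Q' (l - 1) = 0 := by
    rw [← neg_sub, Q'.map_neg, hQ1]
  have hl1 : l - 1 ≠ 0 := sub_ne_zero.2 hl.l1
  have hl1' : 1 - l ≠ 0 := sub_ne_zero.2 hl.l1.symm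
  have hy : y ^ 2 = Polynomial.aeval t (Polynomial.C (1 : K') *
      ∏ i : Fin 3, (Polynomial.X - Polynomial.C ((![0, 1, l] : Fin 3 → K') i)) ^ 1) := by
    rw [hl.eq, Fin.prod_univ_three]
    simp
  have key := kummer_ge h (t := t) (y := y) h1.ge
    (fun F r hF j => gauss_of_good (D := D) hD hv h1 hF j) (N := 2) two_pos
    (ι := Fin 3) (![0, 1, l] : Fin 3 → K')
    (by
      intro i
      fin_cases i
      · simp
      · simp
      · simp [hQl])
    (by
      intro i j hij
      fin_cases i <;> fin_cases j <;>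
        simp_all [DVal.map_neg, hl.l0])
    (fun _ => 1) (c := (1 : K')) one_ne_zero Q'.map_one hy
    (fun d hd => by simpa using hd 0) (fun i => if i = 0 then p₀ else p₁) (r := r)
    (by
      rw [Finset.sum_range_succ, Finset.sum_range_one]
      simpa using hr)
  have k0 := key 0 two_pos
  have k1 := key 1 one_lt_two
  rw [if_pos rfl] at k0
  rw [if_neg one_ne_zero] at k1
  exact ⟨gauss_of_good (D := D) hD hv h1 k0 j, gauss_of_good (D := D) hD hv h1 k1 j⟩

end Pool.Agent.Helper60.PB
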