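import Pool.Agent.Helper60.PB.G1.SecE
import Pool.Agent.Helper60.PB.G1.GoodE
import Pool.Agent.Helper60.PB.G1.BadE
import Pool.Agent.Helper63.PB.Common
import Pool.Agent.Helper63.PB.Finite
import Pool.Agent.Helper63.PB.VertPrimes

set_option autoImplicit false

/-!
# G1-14 CoefE: the coefficients of sections

`U : EUData F Δ E B`, `T = cD + E`, `t` = image of `t₀`. Compare `Helper63.PB.ub_coef` (UBcoef.lean).

PROOF. `esec` for `Ψ = U.Ψ`, `J = U.J` gives `g`, `J_A` for each `A`. Let `f ∈ H⁰(X, m (aD + Δ) + A)`, `m ≥ 1`, and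
`F' = f (u y Ψ) ^ m g(t) = p₀(t) + p₁(t) y`. If `f = 0` then `p₀ = p₁ = 0` (`Leg.indep`). Let `Q'` be a discrete
valuation of `K'` over `Q ∈ Z.primeDivisors` with ramification `e'`, and `b` a coefficient of `p₀` or `p₁`.
`Q ∉ B`: let `P, e` be as in `U.good`; `exists_common` (`P` over `Q`, `Q'` over `Q`) gives `v` on `L'` over `P`
(ramification `ε`) and over `Q'` (ramification `ε'`), `ε e = ε' e'`. `μ = 0`, `v t = v y = v l = v (1 - l) = 0`,
`v Ψ ≥ 0`; so `v u = ε λ_P = ε (a P + 1 - e (c Q + 1))` (`EFrame.mu`, `lam`), and `F.star'` says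
`v (Dt g) ≥ v g`. `good_coeff` with `r = v F'`: `ε' Q' b = v b ≥ v F' ≥
-ε (m (a P + Δ P) + A P) + m ε (a P + 1 - e (c Q + 1)) + v (g(t)) =
-m ε (Δ P + e - 1 + e c Q) - ε A P + v (g(t)) = -m ε e T(Q) - ε A P + v (g(t))`
`= -m ε' e' T(Q) - ε A P + v (g(t))`. Hence `Q' b ≥ -e' m T(Q) - (ε A P - v (g(t))) / ε'`. Put
`A'(Q) = max_v (|ε A P| + |v (g(t))|)` over the finitely many `v` over the chosen `P` (`finite_above`;
dividing by `ε' ≥ 1` and multiplying by `e' ≥ 1` is harmless). It is zero for almost all `Q`: `A P = 0` for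
almost all `P`, `v (g(t)) = 0` for all `v` over almost all `P` (`finite_ne`); each `P` lies over at most one
`Q`, so `finite_image`. It is zero if `A = 0` (`g = 1`).
`Q ∈ B`: for each of the finitely many `Q'` over `Q` (`finite_above` for `K' / K`) `bad_coeff` with
`D = aD + Δ`, `g₁ = u y Ψ`, `g₂ = g(t)` gives `C₁`, and `C₂` for each `A`: `Q' b ≥ -(C₁ m + C₂(A))`. Let `C` be at
least `C₁ + C₂(0) + |e' T(Q)|` for all of them. Then `Q' b ≥ -e' (m (T(Q) + C) + A'(Q))` with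
`A'(Q) = C₂(A)` if `A ≠ 0`, and `A'(Q) = 0` if `A = 0` (use `m ≥ 1`).
`mem_famH0`.
-/

namespace Pool.Agent.Helper60.PB

open Pool.Agent.Helper92.Weak Pool.Agent.Helper92.Ga Pool.Agent.Helper63.PB

variable {k K L K' L₀ L' : Type*} [Field k] [Field K] [Field L] [Field K'] [Field L₀] [Field L']
  [Algebra k K] [Algebra k L] [Algebra k K'] [Algebra k L₀] [Algebra k L'] [Algebra K L]
  [Algebra K K'] [Algebra K L'] [Algebra L L'] [Algebra K' L₀] [Algebra K' L'] [Algebra L₀ L']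
  [IsScalarTower k K L] [IsScalarTower k K K'] [IsScalarTower k K L'] [IsScalarTower k L L']
  [IsScalarTower k K' L₀] [IsScalarTower k K' L'] [IsScalarTower k L₀ L']
  [IsScalarTower K' L₀ L'] [IsScalarTower K L L'] [IsScalarTower K K' L'] [FiniteDimensional K K']
  [FiniteDimensional L L'] [Algebra.IsPushout K K' L L'] [CharZero k]
  {X : ProjVar k L} {Z : ProjVar k K} {t₀ : L₀} {y : L'} {l : K'}
  {F : EFrame X Z K' (algebraMap L₀ L' t₀) y l} {Δ : X.Div} {E : Z.Div}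
  {B : Finset Z.primeDivisors}

omit [Field L₀] [Algebra k L₀] [Algebra K' L₀] [Algebra L₀ L'] [IsScalarTower k K' L₀]
  [IsScalarTower k L₀ L'] [IsScalarTower K' L₀ L'] [Algebra K L'] [IsScalarTower k K L]
  [IsScalarTower k K K'] [IsScalarTower k K L'] [IsScalarTower k L L'] [IsScalarTower k K' L']
  [IsScalarTower K L L'] [IsScalarTower K K' L'] [FiniteDimensional K K'] [FiniteDimensional L L']
  [Algebra.IsPushout K K' L L'] [CharZero k] in
private theorem ec_val {t : L'} (F : EFrame X Z K' t y l) {P : X.primeDivisors}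
    {Q : Z.primeDivisors} {e : ℕ} {v : DVal k L'} {ε : ℕ} (hv : LiesOver v P.1 ε)
    {Ψ G : L'} (hΨ : Ψ ≠ 0) (hG : G ≠ 0) {m : ℕ} {f : L} (hf : f ≠ 0) {α A Eq : ℚ}
    (hPf : -((m : ℚ) * (F.a P + α) + A) ≤ P.1 f) (hE : α + (e - 1) = e * Eq)
    (hmu : F.mu P Q e v ε = 0) (hy : v y = 0) (hΨ0 : 0 ≤ v Ψ) :
    v.Ge (-((m : ℚ) * (ε * (e * (F.c Q + Eq)))) - (|(ε : ℚ) * A| + ((|v G| : ℤ) : ℚ)))
      (algebraMap L L' f * (F.u * y * Ψ) ^ m * G) := by
  have hfL : algebraMap L L' f ≠ 0 := by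
    rwa [Ne, map_eq_zero_iff _ (algebraMap L L').injective]
  have hy0 : y ≠ 0 := F.leg.y0
  have huy : F.u * y ≠ 0 := mul_ne_zero F.u_ne hy0
  have hb : F.u * y * Ψ ≠ 0 := mul_ne_zero huy hΨ
  have hval : v (algebraMap L L' f * (F.u * y * Ψ) ^ m * G) =
      ε * P.1 f + m * (v F.u + v y + v Ψ) + v G := by
    rw [v.map_mul (mul_ne_zero hfL (pow_ne_zero _ hb)) hG, v.map_mul hfL (pow_ne_zero _ hb),
      hv.2, v.map_pow, v.map_mul huy hΨ, v.map_mul F.u_ne hy0]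
  have hμ : F.mu P Q e v ε = ε * (F.a P + 1 - e * (F.c Q + 1)) - v F.u := rfl
  rw [hμ] at hmu
  rw [DVal.ge_iff (mul_ne_zero (mul_ne_zero hfL (pow_ne_zero _ hb)) hG), hval, hy]
  have h1 : (ε : ℚ) * (-((m : ℚ) * (F.a P + α) + A)) ≤ ε * P.1 f :=
    mul_le_mul_of_nonneg_left hPf (Nat.cast_nonneg _)
  have h2 : (v F.u : ℚ) = ε * (F.a P + 1 - e * (F.c Q + 1)) := by
    have h3 : v F.u = ε * (F.a P + 1 - e * (F.c Q + 1)) := by linarith
    rw [h3]
    push_cast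
    ring
  have h3 : (ε : ℚ) * A ≤ |(ε : ℚ) * A| := le_abs_self _
  have h4 : -((|v G| : ℤ) : ℚ) ≤ v G := by exact_mod_cast neg_abs_le (v G)
  have h5 : (0 : ℚ) ≤ m * v Ψ := by
    have : (0 : ℚ) ≤ v Ψ := by exact_mod_cast hΨ0
    positivity
  push_cast
  rw [h2]
  have h6 : (m : ℚ) * (ε * (e * (F.c Q + Eq))) =
      m * (ε * (e * F.c Q + (α + (e - 1)))) := by rw [hE]; ring
  rw [h6]
  have h7 : (ε : ℚ) * (-((m : ℚ) * (F.a P + α) + A)) +
      m * (ε * (F.a P + 1 - e * (F.c Q + 1))) =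
      -((m : ℚ) * (ε * (e * F.c Q + (α + (e - 1))))) - ε * A := by ring
  push_cast at h4
  linarith

private theorem ec_fin {a c d A' e m T C : ℚ} (hm : 1 ≤ m) (he : 1 ≤ e) (ha : 0 ≤ a)
    (hc : 0 ≤ c) (hC : a + c + |e * T| ≤ C) (hA : 0 ≤ A') (hd : d ≤ m * c + A') :
    -(e * (m * (T + C) + A')) ≤ -(a * m + d) := by
  have hC0 : 0 ≤ C := by
    have := abs_nonneg (e * T)
    linarith
  have h1 : m * (a + c + |e * T|) ≤ m * C := mul_le_mul_of_nonneg_left hC (by linarith)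
  have h2 : m * C ≤ e * (m * C) := by
    have h3 : 0 ≤ m * C := by positivity
    nlinarith
  have h4 : A' ≤ e * A' := by nlinarith
  have h5 : -(m * |e * T|) ≤ m * (e * T) := by
    have h6 := neg_abs_le (e * T)
    have h7 := mul_le_mul_of_nonneg_left h6 (show (0 : ℚ) ≤ m by linarith)
    linarith
  have h8 : e * (m * (T + C) + A') = m * (e * T) + e * (m * C) + e * A' := by ring
  have h9 : m * (a + c + |e * T|) = a * m + m * c + m * |e * T| := by ring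
  rw [h8]
  linarith

theorem eub_coef (C : ECurve t₀ y l) (U : EUData F Δ E B) : ∃ C₁ : ℕ, ∀ A : X.Div,
    ∃ (A' : Z.Div) (g : Polynomial K') (JA : ℕ), g ≠ 0 ∧ (A = 0 → A' = 0) ∧
      ∀ (m : ℕ) (f : L), 1 ≤ m → f ∈ X.H0 ((m : ℚ) • (F.aD + Δ) + A) →
        ∃ p₀ p₁ : Polynomial K',
          algebraMap L L' f * (F.u * y * U.Ψ) ^ m * Polynomial.aeval (algebraMap L₀ L' t₀) g =
            Polynomial.aeval (algebraMap L₀ L' t₀) p₀ +
              Polynomial.aeval (algebraMap L₀ L' t₀) p₁ * y ∧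
          p₀.natDegree ≤ m * U.J + JA ∧ p₁.natDegree ≤ m * U.J + JA ∧
          ∀ j, p₀.coeff j ∈ famH0 K' Z ((m : ℚ) • (F.cD + E + (C₁ : ℚ) • redDiv B) + A') ∧
            p₁.coeff j ∈ famH0 K' Z ((m : ℚ) • (F.cD + E + (C₁ : ℚ) • redDiv B) + A') := by
  classical
  -- the polynomials and the constants
  choose g JA hg hA0 hsec using esec F C U.Ψ_ne U.fin U.inf
  have hG : ∀ A : X.Div, Polynomial.aeval (algebraMap L₀ L' t₀) (g A) ≠ 0 := fun A h0 =>
    hg A (transcendental_iff_injective.1 C.leg.tr (by rw [h0, map_zero]))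
  have hg₁ : F.u * y * U.Ψ ≠ 0 := mul_ne_zero (mul_ne_zero F.u_ne F.leg.y0) U.Ψ_ne
  choose cb hcb using fun Q' : DVal k K' => bad_coeff C X (F.aD + Δ) Q' hg₁
  choose db hdb using fun (Q' : DVal k K') (A : X.Div) => hcb Q' A _ (hG A)
  -- a prime divisor over every prime divisor of the base
  obtain ⟨s, hs, hs'⟩ := F.tr
  have hch : ∀ Q : Z.primeDivisors, ∃ (P : X.primeDivisors) (e : ℕ), LiesOver P.1 Q.1 e ∧
      (Q ∉ B → Δ P + (e - 1) = e * E Q ∧ ∀ (v : DVal k L') (ε : ℕ), LiesOver v P.1 ε →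
        F.mu P Q e v ε = 0 ∧ v (algebraMap L₀ L' t₀) = 0 ∧ v (algebraMap K' L' l) = 0 ∧
          v (1 - algebraMap K' L' l) = 0 ∧ v y = 0 ∧ 0 ≤ v U.Ψ) := by
    intro Q
    by_cases hQ : Q ∈ B
    · obtain ⟨P₀, hP₀, e, he⟩ := exists_vert F.mor hs hs' Q.2
      exact ⟨⟨P₀, hP₀⟩, e, he, fun h => absurd hQ h⟩
    · obtain ⟨P, e, h1, h2, h3⟩ := U.good Q hQ
      exact ⟨P, e, h1, fun _ => ⟨h2, h3⟩⟩
  choose Pc ec hPe hgood using hch
  have hV : ∀ Q : Z.primeDivisors,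
      {v : DVal k L' | ∃ ε, LiesOver v (Pc Q).1 ε}.Finite := fun Q => finite_above (Pc Q).1
  have hW : ∀ Q : Z.primeDivisors,
      {Q' : DVal k K' | ∃ e', LiesOver Q' Q.1 e'}.Finite := fun Q => finite_above Q.1
  choose π hπ using fun Q : Z.primeDivisors => (Pc Q).1.surj'
  have hπ' : ∀ Q, (Pc Q).1 (π Q) = 1 := hπ
  choose ρ hρ using fun Q : Z.primeDivisors => Q.1.surj'
  have hρ' : ∀ Q : Z.primeDivisors, Q.1 (ρ Q) = 1 := hρ
  -- the ramification indices as functions of the valuation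
  obtain ⟨r, hr⟩ : ∃ r : Z.primeDivisors → DVal k L' → ℤ,
      ∀ Q v, r Q v = v (algebraMap L L' (π Q)) := ⟨_, fun _ _ => rfl⟩
  have hrε : ∀ Q v ε, LiesOver v (Pc Q).1 ε → (ε : ℤ) = r Q v := by
    intro Q v ε h
    rw [hr, h.2, hπ', mul_one]
  obtain ⟨r', hr'⟩ : ∃ r' : Z.primeDivisors → DVal k K' → ℤ,
      ∀ Q v, r' Q v = v (algebraMap K K' (ρ Q)) := ⟨_, fun _ _ => rfl⟩
  have hrε' : ∀ (Q : Z.primeDivisors) Q' e', LiesOver Q' Q.1 e' → (e' : ℤ) = r' Q Q' := by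
    intro Q Q' e' h
    rw [hr', h.2, hρ', mul_one]
  -- the constant
  have hc0 : ∀ (Q : Z.primeDivisors) (Q' : DVal k K'),
      0 ≤ (cb Q' : ℚ) + db Q' 0 + |(r' Q Q' : ℚ) * (F.c Q + E Q)| := fun _ _ => by positivity
  obtain ⟨C₁, hC₁⟩ : ∃ C₁ : ℕ, ∀ Q ∈ B, ∀ Q' ∈ (hW Q).toFinset,
      (cb Q' : ℚ) + db Q' 0 + |(r' Q Q' : ℚ) * (F.c Q + E Q)| ≤ C₁ := by
    obtain ⟨C₁, hC₁⟩ := exists_nat_ge (∑ Q ∈ B, ∑ Q' ∈ (hW Q).toFinset,
      ((cb Q' : ℚ) + db Q' 0 + |(r' Q Q' : ℚ) * (F.c Q + E Q)|))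
    refine ⟨C₁, fun Q hQ Q' hQ' => le_trans ?_ hC₁⟩
    have h1 := Finset.single_le_sum (f := fun Q' => (cb Q' : ℚ) + db Q' 0 +
      |(r' Q Q' : ℚ) * (F.c Q + E Q)|) (fun w _ => hc0 Q w) hQ'
    exact h1.trans (Finset.single_le_sum (f := fun Q => ∑ Q' ∈ (hW Q).toFinset,
      ((cb Q' : ℚ) + db Q' 0 + |(r' Q Q' : ℚ) * (F.c Q + E Q)|))
      (fun w _ => Finset.sum_nonneg fun _ _ => hc0 _ _) hQ)
  refine ⟨C₁, fun A => ?_⟩
  -- the divisor on the base
  obtain ⟨G, hGA⟩ : ∃ G : L', G = Polynomial.aeval (algebraMap L₀ L' t₀) (g A) := ⟨_, rfl⟩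
  have hG0 : G ≠ 0 := by rw [hGA]; exact hG A
  obtain ⟨d, hd⟩ : ∃ d : Z.primeDivisors → DVal k L' → ℚ, ∀ Q v, d Q v =
      |(r Q v : ℚ) * A (Pc Q)| + ((|v G| : ℤ) : ℚ) := ⟨_, fun _ _ => rfl⟩
  have hd0 : ∀ Q v, 0 ≤ d Q v := by
    intro Q v
    rw [hd]
    have h1 : (0 : ℚ) ≤ ((|v G| : ℤ) : ℚ) := by exact_mod_cast abs_nonneg (v G)
    have h3 := abs_nonneg ((r Q v : ℚ) * A (Pc Q))
    linarith
  obtain ⟨a, ha⟩ : ∃ a : Z.primeDivisors → ℚ, ∀ Q, a Q = if Q ∈ B then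
      (if A = 0 then 0 else ∑ Q' ∈ (hW Q).toFinset, (db Q' A : ℚ)) else
        ∑ v ∈ (hV Q).toFinset, d Q v := ⟨_, fun _ => rfl⟩
  have hfin : (Function.support a).Finite := by
    have hT : ({P : X.primeDivisors | A P ≠ 0} ∪
        {P : X.primeDivisors | ∃ (v : DVal k L') (ε : ℕ),
          LiesOver v P.1 ε ∧ v G ≠ 0}).Finite :=
      A.hasFiniteSupport.union (finite_ne X hG0)
    refine (B.finite_toSet.union (finite_image Z hT)).subset fun Q hQ => ?_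
    by_contra hcon
    rw [Set.mem_union, not_or, Finset.mem_coe] at hcon
    obtain ⟨n0, n⟩ := hcon
    apply hQ
    rw [ha, if_neg n0]
    have hPT : Pc Q ∉ ({P : X.primeDivisors | A P ≠ 0} ∪
        {P : X.primeDivisors | ∃ (v : DVal k L') (ε : ℕ), LiesOver v P.1 ε ∧ v G ≠ 0}) :=
      fun h => n ⟨Pc Q, h, ec Q, hPe Q⟩
    rw [Set.mem_union, not_or] at hPT
    obtain ⟨n1, n2⟩ := hPT
    refine Finset.sum_eq_zero fun v hv => ?_
    rw [Set.Finite.mem_toFinset] at hv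
    obtain ⟨ε, hε⟩ := hv
    have m1 : A (Pc Q) = 0 := by
      by_contra h
      exact n1 h
    have m2 : v G = 0 := by
      by_contra h
      exact n2 ⟨v, ε, hε, h⟩
    rw [hd, m1, m2]
    simp
  obtain ⟨A', hA'⟩ : ∃ A' : Z.Div, ∀ Q, A' Q = a Q :=
    ⟨Finsupp.ofSupportFinite _ hfin, fun Q => rfl⟩
  have ha0 : ∀ Q, 0 ≤ a Q := by
    intro Q
    rw [ha]
    split_ifs
    · exact le_rfl
    · exact Finset.sum_nonneg fun _ _ => Nat.cast_nonneg _
    · exact Finset.sum_nonneg fun _ _ => hd0 _ _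
  refine ⟨A', g A, JA A, hg A, ?_, ?_⟩
  · intro hA
    obtain ⟨hg1, hJA0⟩ := hA0 A hA
    have hG1 : G = 1 := by rw [hGA, hg1, map_one]
    ext Q
    rw [hA', Finsupp.zero_apply, ha, if_pos hA]
    split_ifs
    · rfl
    · refine Finset.sum_eq_zero fun v _ => ?_
      rw [hd, hG1, hA, v.map_one, Finsupp.zero_apply]
      simp
  intro m f hm hf
  by_cases hf0 : f = 0
  · refine ⟨0, 0, ?_, ?_, ?_, fun j => ⟨?_, ?_⟩⟩
    · rw [hf0]
      simp
    · rw [Polynomial.natDegree_zero]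
      exact Nat.zero_le _
    · rw [Polynomial.natDegree_zero]
      exact Nat.zero_le _
    · rw [Polynomial.coeff_zero]
      exact Submodule.zero_mem _
    · rw [Polynomial.coeff_zero]
      exact Submodule.zero_mem _
  obtain ⟨p₀, p₁, hp, hdeg₀, hdeg₁⟩ := hsec A m f hf
  refine ⟨p₀, p₁, hp, hdeg₀, hdeg₁, fun j => ?_⟩
  have hm1 : (1 : ℚ) ≤ m := by exact_mod_cast hm
  -- the bound at one valuation of `K'`
  have key : ∀ (Q : Z.primeDivisors) (Q' : DVal k K') (e' : ℕ), LiesOver Q' Q.1 e' →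
      Q'.Ge (-(e' * ((m : ℚ) * (F.c Q + E Q + C₁ * redDiv B Q) + a Q))) (p₀.coeff j) ∧
      Q'.Ge (-(e' * ((m : ℚ) * (F.c Q + E Q + C₁ * redDiv B Q) + a Q))) (p₁.coeff j) := by
    intro Q Q' e' hQ'
    have he'1 : (1 : ℚ) ≤ e' := by exact_mod_cast hQ'.1
    by_cases hQB : Q ∈ B
    · have h1 : redDiv B Q = 1 := by rw [redDiv_apply, if_pos hQB]
      rw [h1, mul_one]
      have hQm : Q' ∈ (hW Q).toFinset := by
        rw [Set.Finite.mem_toFinset]
        exact ⟨e', hQ'⟩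
      have hre : ((r' Q Q' : ℤ) : ℚ) = (e' : ℚ) := by
        rw [← hrε' Q Q' e' hQ']
        push_cast
        rfl
      have h2 := hC₁ Q hQB Q' hQm
      rw [hre] at h2
      have hda : (db Q' A : ℚ) ≤ m * (db Q' 0 : ℕ) + a Q := by
        rw [ha, if_pos hQB]
        have h3 : (0 : ℚ) ≤ (db Q' 0 : ℕ) := Nat.cast_nonneg _
        split_ifs with hA
        · rw [hA]
          have h4 : (1 : ℚ) * (db Q' 0 : ℕ) ≤ m * (db Q' 0 : ℕ) :=
            mul_le_mul_of_nonneg_right hm1 h3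
          linarith
        · have h4 : (db Q' A : ℚ) ≤ ∑ Q' ∈ (hW Q).toFinset, (db Q' A : ℚ) :=
            Finset.single_le_sum (f := fun Q' => (db Q' A : ℚ))
              (fun _ _ => Nat.cast_nonneg _) hQm
          have h5 : (0 : ℚ) ≤ m * (db Q' 0 : ℕ) := by positivity
          linarith
      have h6 := ec_fin (a := (cb Q' : ℚ)) (c := (db Q' 0 : ℕ)) (d := (db Q' A : ℕ))
        (A' := a Q) (e := (e' : ℚ)) (m := (m : ℚ)) (T := F.c Q + E Q) (C := (C₁ : ℚ)) hm1 he'1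
        (Nat.cast_nonneg _) (Nat.cast_nonneg _) h2 (ha0 Q) hda
      obtain ⟨h7, h8⟩ := hdb Q' A m f hf p₀ p₁ hp j
      exact ⟨h7.mono h6, h8.mono h6⟩
    · have h1 : redDiv B Q = 0 := by rw [redDiv_apply, if_neg hQB]
      rw [h1, mul_zero, add_zero]
      obtain ⟨v, ε, ε', hv, hvQ', hεε⟩ := exists_common (L₁ := L') (hPe Q) hQ'
      have hvm : v ∈ (hV Q).toFinset := by
        rw [Set.Finite.mem_toFinset]
        exact ⟨ε, hv⟩
      obtain ⟨hΔ, hgd⟩ := hgood Q hQB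
      obtain ⟨g1, g2, g3, g4, g5, g6⟩ := hgd v ε hv
      have hPf : -((m : ℚ) * (F.a (Pc Q) + Δ (Pc Q)) + A (Pc Q)) ≤ (Pc Q).1 f := by
        have h1 : (Pc Q).1.Ge (-((((m : ℚ) • (F.aD + Δ) + A) (Pc Q)))) f := by
          have h2 := hf
          unfold ProjVar.H0 sec at h2
          rw [Submodule.mem_iInf] at h2
          exact h2 (Pc Q)
        rw [DVal.ge_iff hf0, Finsupp.add_apply, Finsupp.smul_apply, Finsupp.add_apply,
          EFrame.aD_apply, smul_eq_mul] at h1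
        exact h1
      have hval := ec_val F (Q := Q) (e := ec Q) hv U.Ψ_ne hG0 hf0 hPf hΔ g1 g5 g6
      rw [hGA, hp, ← hGA] at hval
      have hst : ∀ x : L', v.Ge (v x) (F.Dt x) := by
        intro x
        have h2 := F.star' (hPe Q) hv x
        rw [g1, sub_zero] at h2
        exact h2
      obtain ⟨h7, h8⟩ := good_coeff hvQ' C.leg F.Dt_t hst g2 g3 g4 hval j
      have hre : ((r Q v : ℤ) : ℚ) = (ε : ℚ) := by
        rw [← hrε Q v ε hv]
        push_cast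
        rfl
      have hdd : |(ε : ℚ) * A (Pc Q)| + ((|v G| : ℤ) : ℚ) ≤ a Q := by
        have h1 : d Q v ≤ a Q := by
          rw [ha, if_neg hQB]
          exact Finset.single_le_sum (f := fun v => d Q v) (fun w _ => hd0 Q w) hvm
        rwa [hd, hre] at h1
      have hε'1 : (1 : ℚ) ≤ ε' := by exact_mod_cast hvQ'.1
      have h9 : (m : ℚ) * (ε * (ec Q * (F.c Q + E Q))) =
          ε' * (e' * ((m : ℚ) * (F.c Q + E Q))) := by
        have h10 : (ε : ℚ) * ec Q = ε' * e' := by exact_mod_cast hεε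
        have : (m : ℚ) * (ε * (ec Q * (F.c Q + E Q))) =
          ((ε : ℚ) * ec Q) * ((m : ℚ) * (F.c Q + E Q)) := by ring
        rw [this, h10]
        ring
      have h10 : a Q ≤ ε' * (e' * a Q) := by
        have h11 : a Q ≤ e' * a Q := by nlinarith [ha0 Q]
        have h12 : 0 ≤ (e' : ℚ) * a Q := mul_nonneg (by linarith) (ha0 Q)
        nlinarith
      have hfinal : ∀ b : K', v.Ge (-((m : ℚ) * (ε * (ec Q * (F.c Q + E Q)))) -
          (|(ε : ℚ) * A (Pc Q)| + ((|v G| : ℤ) : ℚ))) (algebraMap K' L' b) →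
          Q'.Ge (-(e' * ((m : ℚ) * (F.c Q + E Q) + a Q))) b := by
        intro b hb
        by_cases hb0 : b = 0
        · exact Or.inl hb0
        have hb' : algebraMap K' L' b ≠ 0 := by
          rwa [Ne, map_eq_zero_iff _ (algebraMap K' L').injective]
        rw [DVal.ge_iff hb', hvQ'.2, h9] at hb
        rw [DVal.ge_iff hb0]
        push_cast at hb
        have h13 : (ε' : ℚ) * (-(e' * ((m : ℚ) * (F.c Q + E Q) + a Q))) ≤ ε' * Q' b := by
          have h14 : (ε' : ℚ) * (-(e' * ((m : ℚ) * (F.c Q + E Q) + a Q))) =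
              -(ε' * (e' * ((m : ℚ) * (F.c Q + E Q)))) - ε' * (e' * a Q) := by ring
          rw [h14]
          push_cast at hdd
          linarith
        exact le_of_mul_le_mul_left h13 (by linarith)
      exact ⟨hfinal _ h7, hfinal _ h8⟩
  rw [mem_famH0, mem_famH0]
  have happ : ∀ Q : Z.primeDivisors,
      ((m : ℚ) • (F.cD + E + (C₁ : ℚ) • redDiv B) + A') Q =
        (m : ℚ) * (F.c Q + E Q + C₁ * redDiv B Q) + a Q := by
    intro Q
    rw [Finsupp.add_apply, Finsupp.smul_apply, Finsupp.add_apply, Finsupp.add_apply,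
      EFrame.cD_apply, Finsupp.smul_apply, smul_eq_mul, smul_eq_mul, hA']
  refine ⟨fun Q Q' e' h => ?_, fun Q Q' e' h => ?_⟩
  · rw [happ]
    exact (key Q Q' e' h).1
  · rw [happ]
    exact (key Q Q' e' h).2

end Pool.Agent.Helper60.PB
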