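import Pool.Agent.Helper60.PB.G1Val
import Pool.Agent.Helper63.PB.Under

set_option autoImplicit false

/-!
# Project PB (MP_2c56d9_ag), genus 1: definitions

`k` algebraically closed of characteristic zero, `K ⊆ L` the function fields of `Z` and `X`,
`K' / K` finite, `L' = L ⊗ K'`, `L₀ = K'(t)`, `L' = L₀(y)`, `y ^ 2 = t (t - 1) (t - l)`.
-/

namespace Pool.Agent.Helper60.PB

open Pool.Agent.Helper92.Weak Pool.Agent.Helper92.Ga Pool.Agent.Helper63.PB

/-! ### The curve -/

section Curve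

variable {K' L₀ L' : Type*} [Field K'] [Field L₀] [Field L'] [Algebra K' L₀] [Algebra K' L']
  [Algebra L₀ L']

/-- `L₀ = K'(t)` and `L' = L₀ + L₀ y`, `y ^ 2 = t (t - 1) (t - l)`. -/
structure ECurve (t₀ : L₀) (y : L') (l : K') : Prop where
  line : IsLine K' t₀
  leg : Leg (algebraMap L₀ L' t₀) y l
  gen : ∀ z : L', ∃ a b : L₀, z = algebraMap L₀ L' a + algebraMap L₀ L' b * y

/-- The point `p = (b, c)` lies on the curve. -/
def OnE (l : K') (p : K' × K') : Prop := p.2 ^ 2 = p.1 * (p.1 - 1) * (p.1 - l)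

/-- The valuation `v` is a place at the point `p`. -/
def Near {k : Type*} [Field k] [Algebra k L'] (t y : L') (v : DVal k L') (p : K' × K') : Prop :=
  v.Ge 1 (t - algebraMap K' L' p.1) ∧ v.Ge 1 (y - algebraMap K' L' p.2)

/-- The properties of the places of `L' / K'` which are used for the lower bound: `v t = -2`,
`v y = -3` at the origin; the abscissa of a translate by `- (b, c)` has a pole of order at most two
at `(b, c)`, and no other pole apart from the origin. -/
structure ETab (k : Type*) {K' L' : Type*} [Field k] [Field K'] [Field L'] [Algebra k L']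
    [Algebra K' L'] (t y : L') (l : K') : Prop where
  inf : ∀ v : DVal k L', (∀ x : K', v (algebraMap K' L' x) = 0) → v t < 0 → v t = -2 ∧ v y = -3
  ge : ∀ v : DVal k L', (∀ x : K', v (algebraMap K' L' x) = 0) → ∀ b c : K', OnE l (b, c) →
    v.Ge (-2) (TT t y l b c - t)
  ge_zero : ∀ v : DVal k L', (∀ x : K', v (algebraMap K' L' x) = 0) → ∀ b c : K', OnE l (b, c) →
    0 ≤ v t → ¬ Near t y v (b, c) → v.Ge 0 (TT t y l b c - t)

end Curve

/-! ### Triviality -/

theorem triv_ext {k K L K' L' : Type*} [Field k] [Field K] [Field L] [Field K'] [Field L']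
    [Algebra k L] [Algebra k L'] [Algebra K L] [Algebra K K'] [Algebra K L'] [Algebra L L']
    [Algebra K' L'] [IsScalarTower K L L'] [IsScalarTower K K' L'] [Algebra.IsAlgebraic K K']
    {P : DVal k L} (hP : ∀ x : K, P (algebraMap K L x) = 0) {v : DVal k L'} {ε : ℕ}
    (hv : LiesOver v P ε) (z : K') : v (algebraMap K' L' z) = 0 := by
  have hK : ∀ a : K, v (algebraMap K L' a) = 0 := fun a => by
    rw [IsScalarTower.algebraMap_apply K L L', hv.2, hP, mul_zero]
  let φ : K →+* v.ring := (algebraMap K L').codRestrict v.ring.toSubring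
    (fun c => by
      change 0 ≤ v (algebraMap K L' c)
      rw [hK c])
  have h1 : ∀ z : K', 0 ≤ v (algebraMap K' L' z) := by
    intro z
    have h2 : IsIntegral K (algebraMap K' L' z) :=
      ((Algebra.IsAlgebraic.isAlgebraic (R := K) z).isIntegral).algebraMap
    have h3 : IsIntegral v.ring (algebraMap K' L' z) :=
      IsIntegral.map_of_comp_eq φ (RingHom.id L') (RingHom.ext fun _ => rfl) h2
    exact Pool.Agent.Helper47.PQ.mem_ring_of_isIntegral v h3
  have h2 := h1 z
  have h3 := h1 z⁻¹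
  rw [map_inv₀, v.map_inv] at h3
  omega

/-! ### The frame -/

section Frame

variable {k K L K' L' : Type*} [Field k] [Field K] [Field L] [Field K'] [Field L']
  [Algebra k K] [Algebra k L] [Algebra k K'] [Algebra k L'] [Algebra K L] [Algebra K K']
  [Algebra L L'] [Algebra K' L']

/-- The data of a fibration `X → Z` whose general fibre is a curve of genus one:
`L' = K'(t, y)`. The same as `Helper63.PB.Frame`, apart from `leg` and `hor`. -/
structure EFrame (X : ProjVar k L) (Z : ProjVar k K) (K' : Type*) {L' : Type*} [Field K'] [Field L']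
    [Algebra k K'] [Algebra k L'] [Algebra K K'] [Algebra L L'] [Algebra K' L'] (t y : L')
    (l : K') where
  mor : IsMorphism X Z
  equi : ∀ P ∈ X.primeDivisors, (∃ a : K, P (algebraMap K L a) ≠ 0) →
    ∃ Q ∈ Z.primeDivisors, ∃ e, LiesOver P Q e
  tr : ∃ s : L, Transcendental K s ∧ ∀ x : L, IsAlgebraic (IntermediateField.adjoin K {s}) x
  leg : Leg t y l
  Dt : Derivation K' L' L'
  Dt_t : Dt t = 1
  u : L'
  u_ne : u ≠ 0
  a : X.primeDivisors →₀ ℤ
  c : Z.primeDivisors →₀ ℤ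
  star : ∀ (P : X.primeDivisors) (Q : Z.primeDivisors) (e : ℕ), LiesOver P.1 Q.1 e →
    ∀ (v : DVal k L') (ε : ℕ), LiesOver v P.1 ε → ∀ g : L',
      v.Ge ((v g - (ε * (a P + 1 - e * (c Q + 1)) - v u) : ℤ) : ℚ) (Dt g)
  hor : ∀ P : X.primeDivisors, (∀ x : K, P.1 (algebraMap K L x) = 0) →
    ∀ (v : DVal k L') (ε : ℕ), LiesOver v P.1 ε → ε = 1 ∧ v u = a P - v y

variable {X : ProjVar k L} {Z : ProjVar k K} {t y : L'} {l : K'} (F : EFrame X Z K' t y l)

/-- `λ_P = a P + 1 - e (c Q + 1)`. -/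
def EFrame.lam (P : X.primeDivisors) (Q : Z.primeDivisors) (e : ℕ) : ℤ :=
  F.a P + 1 - e * (F.c Q + 1)

/-- `μ_v = ε λ_P - v u`, for `v` over `P` with ramification `ε`. -/
def EFrame.mu (P : X.primeDivisors) (Q : Z.primeDivisors) (e : ℕ) (v : DVal k L') (ε : ℕ) : ℤ :=
  ε * F.lam P Q e - v F.u

/-- The divisor of `dy ∧ ds` on `X`. -/
noncomputable def EFrame.aD : X.Div := F.a.mapRange (fun z : ℤ => (z : ℚ)) (by simp)

/-- The divisor of `dy` on `Z`. -/
noncomputable def EFrame.cD : Z.Div := F.c.mapRange (fun z : ℤ => (z : ℚ)) (by simp)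

@[simp] theorem EFrame.aD_apply (P : X.primeDivisors) : F.aD P = F.a P := by
  unfold EFrame.aD
  rw [Finsupp.mapRange_apply]

@[simp] theorem EFrame.cD_apply (Q : Z.primeDivisors) : F.cD Q = F.c Q := by
  unfold EFrame.cD
  rw [Finsupp.mapRange_apply]

theorem EFrame.star' {P : X.primeDivisors} {Q : Z.primeDivisors} {e : ℕ} (hPQ : LiesOver P.1 Q.1 e)
    {v : DVal k L'} {ε : ℕ} (hv : LiesOver v P.1 ε) (g : L') :
    v.Ge ((v g - F.mu P Q e v ε : ℤ) : ℚ) (F.Dt g) :=
  F.star P Q e hPQ v ε hv g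

/-- `P` over `Q` is good: no slack in the inequality of the orbifold base, and no slack in the
inequalities `v (six) + 6 μ ≥ 0`, `v (kap p) + 2 μ ≥ 0`, `p ∈ S`. -/
def EGood (F : EFrame X Z K' t y l) (Δ : X.Div) (S : Finset (K' × K')) (E : Z.Div)
    (P : X.primeDivisors) (Q : Z.primeDivisors) (e : ℕ) : Prop :=
  LiesOver P.1 Q.1 e ∧ Δ P + (e - 1) = e * E Q ∧
    ∀ (v : DVal k L') (ε : ℕ), LiesOver v P.1 ε →
      v (six y l) + 6 * F.mu P Q e v ε = 0 ∧
      ∀ p ∈ S, ¬ v.Ge ((-(2 * F.mu P Q e v ε) + 1 : ℤ) : ℚ) (kap t y l p.1 p.2)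

/-- The data for the upper bound: a function `Ψ` such that `f (u y Ψ) ^ m`, for
`f ∈ H⁰ (m (aD + Δ))`, has no poles on the generic fibre apart from the origin, and pole order at
most `m J` at the origin, and whose values at good prime divisors over `Q ∉ B` are nonnegative. -/
structure EUData (F : EFrame X Z K' t y l) (Δ : X.Div) (E : Z.Div) (B : Finset Z.primeDivisors) where
  J : ℕ
  Ψ : L'
  Ψ_ne : Ψ ≠ 0
  fin : ∀ P : X.primeDivisors, (∀ x : K, P.1 (algebraMap K L x) = 0) → ∀ v : DVal k L',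
    LiesOver v P.1 1 → 0 ≤ v t → Δ P ≤ v Ψ
  inf : ∀ P : X.primeDivisors, (∀ x : K, P.1 (algebraMap K L x) = 0) → ∀ v : DVal k L',
    LiesOver v P.1 1 → v t < 0 → Δ P - J ≤ v Ψ
  good : ∀ Q ∉ B, ∃ (P : X.primeDivisors) (e : ℕ), LiesOver P.1 Q.1 e ∧
    Δ P + (e - 1) = e * E Q ∧ ∀ (v : DVal k L') (ε : ℕ), LiesOver v P.1 ε →
      F.mu P Q e v ε = 0 ∧ v t = 0 ∧ v (algebraMap K' L' l) = 0 ∧
      v (1 - algebraMap K' L' l) = 0 ∧ v y = 0 ∧ 0 ≤ v Ψ

end Frame

end Pool.Agent.Helper60.PB
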