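import Pool.Agent.Helper60.PB.G1.ValTab

set_option autoImplicit false

/-!
# G1-04 ETabE: poles of the abscissa of a translate

`T = TT t y l b c = m ^ 2 + (1 + l) - t - b`, `m = (y + c) / (t - b)`, so `T - t = m ^ 2 + (1 + l) - 2 t - b`; `v` is
trivial on `K'`.

`inf` is `val_inf`. `ge`: if `v t < 0` then `v t = -2`, `v y = -3`, so `v (y + c) = -3`, `v (t - b) = -2`, `v m = -1`, and
`v (T - t) ≥ -2`. If `v t ≥ 0`: it suffices that `v m ≥ -1`. `v y ≥ 0` (`val_y_nonneg`). If `v (t - b) = 0` then
`v m ≥ 0`. If `v (t - b) ≥ 1` use `val_near`: if `v y = 0` then `v (t - b) = 1` and `v (y + c) ≥ 0`. If `v y ≠ 0` then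
`v y = 1`, `v (t - b) = 2` and `b (b - 1) (b - l) = 0`, so `c = 0` and `v m = v (y / (t - b)) = -1`.
`ge_zero`: `v t ≥ 0` and not `Near`. It suffices that `v m ≥ 0`. If `v (t - b) = 0`: clear. Otherwise
`v (t - b) ≥ 1`, so `v (y - c) = 0` (it is `≥ 0` and not `≥ 1`; in particular `y ≠ c`), and
`m = (y + c) / (t - b) = g(t) / (y - c)` with `(y - c) (y + c) = f(t) - f(b) = (t - b) g(t)`,
`g(t) = t ^ 2 + t b + b ^ 2 - (1 + l) (t + b) + l`, so `v m ≥ 0`.
(`t ≠ b` by `C.leg.t_ne`.)
-/

namespace Pool.Agent.Helper60.PB

open Pool.Agent.Helper92.Weak Pool.Agent.Helper92.Ga Pool.Agent.Helper63.PB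

variable {k K' L₀ L' : Type*} [Field k] [Field K'] [Field L₀] [Field L'] [Algebra k K']
  [Algebra k L₀] [Algebra k L'] [Algebra K' L₀] [Algebra K' L'] [Algebra L₀ L']
  [IsScalarTower k K' L₀] [IsScalarTower k K' L'] [IsScalarTower k L₀ L']
  [IsScalarTower K' L₀ L'] [CharZero k] {t₀ : L₀} {y : L'} {l : K'}

private theorem h45_ge0 {v : DVal k L'} (hv : ∀ x : K', v (algebraMap K' L' x) = 0) (x : K') :
    v.Ge 0 (algebraMap K' L' x) := Or.inr (by rw [hv]; norm_num)

/-- the bound for `T - t` in terms of the slope -/
private theorem h45_main {v : DVal k L'} (hv : ∀ x : K', v (algebraMap K' L' x) = 0) {t y : L'}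
    {b c : K'} {n : ℚ} (hn : n ≤ 0) (ht : v.Ge n t)
    (hm : v.Ge n (slope t y (algebraMap K' L' b) (algebraMap K' L' c) ^ 2)) :
    v.Ge n (TT t y l b c - t) := by
  have h1 : TT t y l b c - t = slope t y (algebraMap K' L' b) (algebraMap K' L' c) ^ 2 +
      algebraMap K' L' (1 + l - b) - algebraMap K' L' 2 * t := by
    unfold TT trT
    rw [map_sub, map_add, map_one, map_ofNat]
    ring
  rw [h1]
  refine (hm.add ((h45_ge0 hv _).mono hn)).sub ?_
  refine ((h45_ge0 hv 2).mul ht).mono ?_
  linarith

private theorem h45_sq {v : DVal k L'} {m : L'} {n : ℚ} (h : v.Ge n m) : v.Ge (2 * n) (m ^ 2) := by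
  rw [pow_two]
  refine (h.mul h).mono ?_
  linarith

theorem ECurve.tab (C : ECurve t₀ y l) : ETab k (algebraMap L₀ L' t₀) y l := by
  have hleg := C.leg
  set t : L' := algebraMap L₀ L' t₀ with htdef
  have hy0 := hleg.y0
  -- the slope, if `t - b` is a unit
  have hunit : ∀ v : DVal k L', (∀ x : K', v (algebraMap K' L' x) = 0) → 0 ≤ v t →
      ∀ b c : K', ¬ v.Ge 1 (t - algebraMap K' L' b) →
      v.Ge 0 (slope t y (algebraMap K' L' b) (algebraMap K' L' c)) := by
    intro v hv ht b c hnb
    have htb := hleg.sub_ne b
    have h1 : v.Ge 0 (t - algebraMap K' L' b) :=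
      (show v.Ge 0 t from Or.inr (by exact_mod_cast ht)).sub (h45_ge0 hv b)
    rw [DVal.ge_iff htb] at h1 hnb
    have h2 : v (t - algebraMap K' L' b) = 0 := by
      have h3 : 0 ≤ v (t - algebraMap K' L' b) := by exact_mod_cast h1
      have h4 : v (t - algebraMap K' L' b) < 1 := by
        have := not_le.1 hnb
        exact_mod_cast this
      omega
    have hy : v.Ge 0 y := Or.inr (by exact_mod_cast C.val_y_nonneg hv ht)
    have h3 : v.Ge 0 (t - algebraMap K' L' b)⁻¹ := Or.inr (by rw [v.map_inv, h2]; norm_num)
    unfold slope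
    rw [div_eq_mul_inv]
    have h4 := (hy.add (h45_ge0 hv c)).mul h3
    rwa [add_zero] at h4
  refine ⟨fun v hv ht => (C.val_inf hv ht).2, fun v hv b c hp => ?_, fun v hv b c hp ht hn => ?_⟩
  · by_cases ht : v t < 0
    · obtain ⟨-, h1, h2⟩ := C.val_inf hv ht
      have h3 : v (t - algebraMap K' L' b) = -2 := by
        rw [sub_eq_add_neg, v.map_add_eq_of_lt hleg.t0, h1]
        right
        rw [v.map_neg, hv, h1]
        norm_num
      have h4 : v.Ge (-3) (y + algebraMap K' L' c) :=
        (show v.Ge (-3) y from Or.inr (by rw [h2]; norm_num)).add ((h45_ge0 hv c).mono (by norm_num))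
      have h5 : v.Ge 2 (t - algebraMap K' L' b)⁻¹ := Or.inr (by rw [v.map_inv, h3]; norm_num)
      have h6 : v.Ge (-1) (slope t y (algebraMap K' L' b) (algebraMap K' L' c)) := by
        unfold slope
        rw [div_eq_mul_inv]
        refine (h4.mul h5).mono ?_
        norm_num
      refine h45_main hv (by norm_num) (Or.inr (by rw [h1]; norm_num)) ?_
      exact (h45_sq h6).mono (by norm_num)
    · have ht' : 0 ≤ v t := not_lt.1 ht
      have htge : v.Ge 0 t := Or.inr (by exact_mod_cast ht')
      have h6 : v.Ge (-1) (slope t y (algebraMap K' L' b) (algebraMap K' L' c)) := by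
        by_cases hb : v.Ge 1 (t - algebraMap K' L' b)
        · obtain ⟨h1, h2⟩ := C.val_near hv ht' hb
          by_cases hy : v y = 0
          · have h3 := (h1 hy).2
            have h4 : v.Ge 0 (y + algebraMap K' L' c) :=
              (show v.Ge 0 y from Or.inr (by rw [hy]; norm_num)).add (h45_ge0 hv c)
            have h5 : v.Ge (-1) (t - algebraMap K' L' b)⁻¹ :=
              Or.inr (by rw [v.map_inv, h3]; norm_num)
            unfold slope
            rw [div_eq_mul_inv]
            refine (h4.mul h5).mono ?_
            norm_num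
          · obtain ⟨-, h3, h4, h5⟩ := h2 hy
            have hc : c = 0 := by
              have h7 : c ^ 2 = b * (b - 1) * (b - l) := hp
              rw [h5] at h7
              exact pow_eq_zero_iff two_ne_zero |>.1 h7
            unfold slope
            rw [hc, _root_.map_zero, add_zero]
            right
            rw [v.map_div hy0 (hleg.sub_ne b), h3, h4]
            norm_num
        · exact (hunit v hv ht' b c hb).mono (by norm_num)
      refine h45_main hv (by norm_num) (htge.mono (by norm_num)) ?_
      exact (h45_sq h6).mono (by norm_num)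
  · have htge : v.Ge 0 t := Or.inr (by exact_mod_cast ht)
    have h6 : v.Ge 0 (slope t y (algebraMap K' L' b) (algebraMap K' L' c)) := by
      by_cases hb : v.Ge 1 (t - algebraMap K' L' b)
      · have hyc : ¬ v.Ge 1 (y - algebraMap K' L' c) := fun h => hn ⟨hb, h⟩
        have hyc0 : y - algebraMap K' L' c ≠ 0 := fun h => hyc (Or.inl h)
        have hyge : v.Ge 0 y := Or.inr (by exact_mod_cast C.val_y_nonneg hv ht)
        have h1 := hyge.sub (h45_ge0 hv c)
        rw [DVal.ge_iff hyc0] at h1 hyc
        have h2 : v (y - algebraMap K' L' c) = 0 := by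
          have h3 : 0 ≤ v (y - algebraMap K' L' c) := by exact_mod_cast h1
          have h4 : v (y - algebraMap K' L' c) < 1 := by
            have := not_le.1 hyc
            exact_mod_cast this
          omega
        have htb := hleg.sub_ne b
        have hp' : c ^ 2 = b * (b - 1) * (b - l) := hp
        have hc1 : (algebraMap K' L' c) ^ 2 = algebraMap K' L' b * (algebraMap K' L' b - 1) *
            (algebraMap K' L' b - algebraMap K' L' l) := by
          have h4 := congrArg (algebraMap K' L') hp'
          simpa using h4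
        have h3 : slope t y (algebraMap K' L' b) (algebraMap K' L' c) =
            (t * t + algebraMap K' L' b * t + algebraMap K' L' (b ^ 2) -
              (algebraMap K' L' (1 + l) * (t + algebraMap K' L' b)) + algebraMap K' L' l) *
              (y - algebraMap K' L' c)⁻¹ := by
          unfold slope
          rw [map_pow, map_add, map_one]
          field_simp
          linear_combination hleg.eq - hc1
        rw [h3]
        have h4 : v.Ge 0 (y - algebraMap K' L' c)⁻¹ := Or.inr (by rw [v.map_inv, h2]; norm_num)
        have h5 : v.Ge 0 (t * t + algebraMap K' L' b * t + algebraMap K' L' (b ^ 2) -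
              (algebraMap K' L' (1 + l) * (t + algebraMap K' L' b)) + algebraMap K' L' l) := by
          have e1 : v.Ge 0 (t * t) := by
            have := htge.mul htge
            rwa [add_zero] at this
          have e2 : v.Ge 0 (algebraMap K' L' b * t) := by
            have := (h45_ge0 hv b).mul htge
            rwa [add_zero] at this
          have e3 : v.Ge 0 (algebraMap K' L' (1 + l) * (t + algebraMap K' L' b)) := by
            have := (h45_ge0 hv (1 + l)).mul (htge.add (h45_ge0 hv b))
            rwa [add_zero] at this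
          exact (((e1.add e2).add (h45_ge0 hv _)).sub e3).add (h45_ge0 hv l)
        have h7 := h5.mul h4
        rwa [add_zero] at h7
      · exact hunit v hv ht b c hb
    refine h45_main hv le_rfl htge ?_
    exact (h45_sq h6).mono (by norm_num)

end Pool.Agent.Helper60.PB
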