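import Pool.Agent.Helper60.PB.G1.FinE
import Pool.Agent.Helper63.PB.LowNorm
import Pool.Agent.Helper63.PB.Transc

set_option autoImplicit false
set_option linter.unusedSectionVars false

/-!
# G1-09 LowE: the data for the lower bound

`D = aD + Δ`, `T = cD + E`. For `P` over `Q`: `e T(Q) - D(P) = -λ_P - (Δ P + (e - 1) - e E Q) ≤ -λ_P` by `hbase`
(`λ_P = a P + 1 - e (c Q + 1) = F.lam P Q e`). For `v` over `P` (ramification `ε`), `μ = ε λ_P - v u`; by
`F.star'`, `theta_six`: `v (six) ≥ -6 μ`; by `kappa_ge`: `v.Ge (-2 μ) (kap p)` for `p ∈ S`; by `xi_ge`: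
`v.Ge (-2 μ) ((t - l) / y ^ 2)`. (`D := F.Dt`, `F.Dt_t`; `DVal.Ge`: `v.Ge r g` means `g = 0` or `r ≤ v g`.)
For `v` over `P` trivial on `K`: `v` is trivial on `K'` (`triv_ext`), `ε = 1` and `v u = a P - v y` (`F.hor`),
`v (six) = -6 v y` (`v_six`).

`elow_zero` (`S` empty). `ψ = six / u ^ 6`, `m = 6` in `low_norm`. Horizontal: `v ψ = -6 v y - 6 (a P - v y) = -6 a P ≥
-6 D(P)`. Vertical: `v ψ = v (six) - 6 v u ≥ -6 μ - 6 v u = -6 ε λ_P ≥ ε (6 (e T(Q) - D(P)))`. `Q ∈ B`: `P` is not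
good: either `Δ P + (e - 1) > e E Q` and the last inequality is strict for any `v` over `P`
(`PQ.exists_over`), or `v (six) + 6 μ ≠ 0` for some `v`. `LowerData` with `s = 0`: `b = norm(ψ) ^ R`,
`N = R n 6` (`n = [L' : L]`), `ρ` empty.

`elow_pos`. Choose `α ≥ 1` with `2 |S| + 6 ≤ m η`, `m = 6 α + 6 + 2 |S|`.
`ψ₀ = six ^ (α + 1) ∏_{p ∈ S} kap p / u ^ m`, `ψ₁ = six ^ α ((t - l) / y ^ 2) ^ 3 ∏ kap p / u ^ m`.
(`kap p ≠ 0` by `kap_ne_zero`, FinE.lean.)
Vertical: both have value `≥ -(6 α + 6 + 2 |S|) μ - m v u = -m ε λ_P`. Horizontal: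
`v ψ₀ = -6 (α + 1) v y + ∑_p (v (T_p - t) - 2 v y) - m (a P - v y) = ∑_p v (T_p - t) - m a P`, and
`v ψ₁ = 3 v (t - l) + ∑_p v (T_p - t) - m a P`. If `v t < 0`: `v (T_p - t) ≥ -2` (`tab.ge`), `v (t - l) = v t = -2`,
so both are `≥ -2 |S| - 6 - m a P ≥ -m η - m a P ≥ -m D(P)` by `hbig`. If `v t ≥ 0` and `v` is near some `p ∈ S`:
there is only one such `p` (if `t ≡ b`, `t ≡ b'` then `v (b - b') ≥ 1`, so `b = b'`; the same for `c`), so both
are `≥ -2 - m a P ≥ -m η - m a P` (`tab.ge`, `tab.ge_zero`). Otherwise both are `≥ -m a P ≥ -m D(P)` (`h0`).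
Strictness for `Q ∈ B`: either the slack of `hbase`; or `v (six) + 6 μ > 0` for some `v`: strict for `ψ₀`
and `ψ₁` (`α ≥ 1`); or `v.Ge (-2 μ + 1) (kap p)` for some `v` and `p ∈ S`: strict for both.
`ρ₀ = ψ₁ / ψ₀ = ((t - l) / y ^ 2) ^ 3 / six = (t - l) ^ 3 / (l (1 - l))` is transcendental over `K`: otherwise it is
algebraic over `K'`, and `t` would be algebraic over `K'` (`F.leg.tr`). `exists_norm_transcendental`: `z ∈ k`
with `ρ = norm (ρ₀ - z)` transcendental over `K`; `ψ₁' = ψ₀ (ρ₀ - z) = ψ₁ - z ψ₀` satisfies the hypotheses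
of `low_norm` as well (`Ge.sub`, constants have value zero), also the strict inequalities (at the same
`v`). `LowerData` with `s = 1`: `b = norm(ψ₀) ^ R`, `N = R n m`, `ρ 0 = norm(ρ₀ - z) ^ R` (transcendental:
`Transcendental.pow`; `algebraicIndependent_unique_type_iff`), `b ρ = norm(ψ₁') ^ R`.
-/

namespace Pool.Agent.Helper60.PB

open Pool.Agent.Helper92.Weak Pool.Agent.Helper92.Ga Pool.Agent.Helper63.PB

variable {k K L K' L' : Type*} [Field k] [Field K] [Field L] [Field K'] [Field L']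
  [Algebra k K] [Algebra k L] [Algebra k K'] [Algebra k L'] [Algebra K L] [Algebra K K']
  [Algebra K L'] [Algebra L L'] [Algebra K' L'] [IsScalarTower k K L] [IsScalarTower k K K']
  [IsScalarTower k K L'] [IsScalarTower k L L'] [IsScalarTower k K' L'] [IsScalarTower K L L']
  [IsScalarTower K K' L'] [FiniteDimensional K K'] [FiniteDimensional L L'] [CharZero k]
  {X : ProjVar k L} {Z : ProjVar k K} {t y : L'} {l : K'} (F : EFrame X Z K' t y l)
  {Δ : X.Div} {E : Z.Div} {B : Finset Z.primeDivisors}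

/-- `e T(Q) - D(P) = -λ - slack`. -/
private theorem elow_slack (P : X.primeDivisors) (Q : Z.primeDivisors) (e : ℕ) :
    (e : ℚ) * (F.cD + E) Q - (F.aD + Δ) P = -(F.lam P Q e : ℚ) - (Δ P + (e - 1) - e * E Q) := by
  rw [Finsupp.add_apply, Finsupp.add_apply, EFrame.aD_apply, EFrame.cD_apply, EFrame.lam]
  push_cast
  ring

/-- The vertical inequality. -/
private theorem elow_vert
    (hbase : ∀ (P : X.primeDivisors) (Q : Z.primeDivisors) (e : ℕ), LiesOver P.1 Q.1 e →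
      e * E Q ≤ Δ P + (e - 1))
    {Φ : L'} (hΦ : Φ ≠ 0) {m : ℕ} {P : X.primeDivisors} {Q : Z.primeDivisors} {e : ℕ}
    (hPQ : LiesOver P.1 Q.1 e) {v : DVal k L'} {ε : ℕ}
    (h : -((m : ℤ) * F.mu P Q e v ε) ≤ v Φ) :
    (ε : ℚ) * (m * (e * (F.cD + E) Q - (F.aD + Δ) P)) ≤ v (Φ / F.u ^ m) := by
  have h1 : -((ε : ℤ) * (m * F.lam P Q e)) ≤ v (Φ / F.u ^ m) := by
    rw [v.map_div hΦ (pow_ne_zero _ F.u_ne), v.map_pow]
    unfold EFrame.mu at h
    linarith
  have h2 : (-((ε : ℤ) * (m * F.lam P Q e)) : ℤ) ≤ ((v (Φ / F.u ^ m) : ℤ) : ℚ) := by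
    exact_mod_cast h1
  refine le_trans ?_ h2
  rw [elow_slack]
  have h3 := hbase P Q e hPQ
  have h4 : (0 : ℚ) ≤ (ε : ℚ) * m := by positivity
  push_cast
  nlinarith [mul_nonneg h4 (sub_nonneg.2 h3)]

/-- The strict vertical inequality when there is slack. -/
private theorem elow_strict_slack
    {Φ : L'} (hΦ : Φ ≠ 0) {m : ℕ} (hm0 : 0 < m) {P : X.primeDivisors} {Q : Z.primeDivisors} {e : ℕ}
    (hs : e * E Q < Δ P + (e - 1)) {v : DVal k L'} {ε : ℕ} (hv : LiesOver v P.1 ε)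
    (h : -((m : ℤ) * F.mu P Q e v ε) ≤ v Φ) :
    (ε : ℚ) * (m * (e * (F.cD + E) Q - (F.aD + Δ) P)) < v (Φ / F.u ^ m) := by
  have h1 : -((ε : ℤ) * (m * F.lam P Q e)) ≤ v (Φ / F.u ^ m) := by
    rw [v.map_div hΦ (pow_ne_zero _ F.u_ne), v.map_pow]
    unfold EFrame.mu at h
    linarith
  have h2 : (-((ε : ℤ) * (m * F.lam P Q e)) : ℤ) ≤ ((v (Φ / F.u ^ m) : ℤ) : ℚ) := by
    exact_mod_cast h1
  refine lt_of_lt_of_le ?_ h2
  rw [elow_slack]
  have hε : (0 : ℚ) < ε := by exact_mod_cast hv.1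
  have hm' : (0 : ℚ) < m := by exact_mod_cast hm0
  push_cast
  nlinarith [mul_pos (mul_pos hε hm') (sub_pos.2 hs)]

/-- The strict vertical inequality when the value is strict. -/
private theorem elow_strict_val
    (hbase : ∀ (P : X.primeDivisors) (Q : Z.primeDivisors) (e : ℕ), LiesOver P.1 Q.1 e →
      e * E Q ≤ Δ P + (e - 1))
    {Φ : L'} (hΦ : Φ ≠ 0) {m : ℕ} {P : X.primeDivisors} {Q : Z.primeDivisors} {e : ℕ}
    (hPQ : LiesOver P.1 Q.1 e) {v : DVal k L'} {ε : ℕ}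
    (h : -((m : ℤ) * F.mu P Q e v ε) < v Φ) :
    (ε : ℚ) * (m * (e * (F.cD + E) Q - (F.aD + Δ) P)) < v (Φ / F.u ^ m) := by
  have h1 : -((ε : ℤ) * (m * F.lam P Q e)) < v (Φ / F.u ^ m) := by
    rw [v.map_div hΦ (pow_ne_zero _ F.u_ne), v.map_pow]
    unfold EFrame.mu at h
    linarith
  have h2 : (-((ε : ℤ) * (m * F.lam P Q e)) : ℤ) < ((v (Φ / F.u ^ m) : ℤ) : ℚ) := by
    exact_mod_cast h1
  refine lt_of_le_of_lt ?_ h2
  rw [elow_slack]
  have h3 := hbase P Q e hPQ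
  have h4 : (0 : ℚ) ≤ (ε : ℚ) * m := by positivity
  push_cast
  nlinarith [mul_nonneg h4 (sub_nonneg.2 h3)]

/-- The horizontal inequality. -/
private theorem elow_hor {Φ : L'} (hΦ : Φ ≠ 0) {m : ℕ} {P : X.primeDivisors}
    (hP : ∀ x : K, P.1 (algebraMap K L x) = 0) {v : DVal k L'} {ε : ℕ} (hv : LiesOver v P.1 ε)
    (h : -((m : ℚ) * Δ P) ≤ ((v Φ + m * v y : ℤ) : ℚ)) :
    -((ε : ℚ) * (m * (F.aD + Δ) P)) ≤ v (Φ / F.u ^ m) := by
  obtain ⟨hε, hu⟩ := F.hor P hP v ε hv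
  rw [v.map_div hΦ (pow_ne_zero _ F.u_ne), v.map_pow, hu, hε, Finsupp.add_apply, EFrame.aD_apply]
  push_cast at h ⊢
  linarith

/-- Values of `a - z b`. -/
private theorem elow_sub_le {k L' : Type*} [Field k] [Field L'] [Algebra k L'] (v : DVal k L')
    {a b : L'} (z : k) (hab : a - algebraMap k L' z * b ≠ 0) {r : ℚ}
    (h1 : r ≤ v a) (h2 : r ≤ v b) : r ≤ v (a - algebraMap k L' z * b) := by
  have h3 : v.Ge r a := Or.inr h1
  have h4 : v.Ge r (algebraMap k L' z * b) := by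
    rw [← Algebra.smul_def]
    exact DVal.Ge.smul (Or.inr h2) z
  exact (DVal.ge_iff hab).1 (h3.sub h4)

private theorem elow_sub_lt {k L' : Type*} [Field k] [Field L'] [Algebra k L'] (v : DVal k L')
    {a b : L'} (z : k) (hab : a - algebraMap k L' z * b ≠ 0) {r : ℚ}
    (h1 : r < v a) (h2 : r < v b) : r < v (a - algebraMap k L' z * b) := by
  have h3 : r < min (v a : ℚ) (v b) := lt_min h1 h2
  exact h3.trans_le (elow_sub_le v z hab (min_le_left _ _) (min_le_right _ _))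

/-- A vertical form of degree six. -/
private theorem elow_six {P : X.primeDivisors} {Q : Z.primeDivisors} {e : ℕ}
    (hPQ : LiesOver P.1 Q.1 e) {v : DVal k L'} {ε : ℕ} (hv : LiesOver v P.1 ε) :
    0 ≤ v (six y l) + 6 * F.mu P Q e v ε :=
  theta_six F.leg F.Dt_t (F.star' hPQ hv)

private theorem elow_kap {P : X.primeDivisors} {Q : Z.primeDivisors} {e : ℕ}
    (hPQ : LiesOver P.1 Q.1 e) {v : DVal k L'} {ε : ℕ} (hv : LiesOver v P.1 ε) {p : K' × K'}
    (hp : OnE l p) : 0 ≤ v (kap t y l p.1 p.2) + 2 * F.mu P Q e v ε := by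
  have h1 := kappa_ge F.leg F.Dt_t (F.star' hPQ hv) (b := p.1) (c := p.2) hp
  rw [DVal.ge_iff (kap_ne_zero F.leg (b := p.1) (c := p.2) hp)] at h1
  have h2 : -(2 * F.mu P Q e v ε) ≤ v (kap t y l p.1 p.2) := by exact_mod_cast h1
  linarith

private theorem elow_xi_ne (h : Leg t y l) : (t - algebraMap K' L' l) / y ^ 2 ≠ 0 :=
  div_ne_zero (h.sub_ne l) (pow_ne_zero _ h.y0)

private theorem elow_xi {P : X.primeDivisors} {Q : Z.primeDivisors} {e : ℕ}
    (hPQ : LiesOver P.1 Q.1 e) {v : DVal k L'} {ε : ℕ} (hv : LiesOver v P.1 ε) :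
    0 ≤ v ((t - algebraMap K' L' l) / y ^ 2) + 2 * F.mu P Q e v ε := by
  have h1 := xi_ge F.leg F.Dt_t (F.star' hPQ hv)
  rw [DVal.ge_iff (elow_xi_ne F.leg)] at h1
  have h2 : -(2 * F.mu P Q e v ε) ≤ v ((t - algebraMap K' L' l) / y ^ 2) := by exact_mod_cast h1
  linarith

/-- The value of `six` at a valuation trivial on `K'`. -/
private theorem elow_six_hor (h : Leg t y l) {v : DVal k L'} (hv : ∀ x : K', v (algebraMap K' L' x) = 0) :
    v (six y l) = -(6 * v y) := by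
  have h1 : v (1 - algebraMap K' L' l) = 0 := by
    have h2 := hv (1 - l)
    rwa [map_sub, map_one] at h2
  rw [v_six h, hv, h1]
  ring

theorem elow_zero (h0 : ∀ P : X.primeDivisors, (∀ x : K, P.1 (algebraMap K L x) = 0) → 0 ≤ Δ P)
    (hbase : ∀ (P : X.primeDivisors) (Q : Z.primeDivisors) (e : ℕ), LiesOver P.1 Q.1 e →
      e * E Q ≤ Δ P + (e - 1))
    (hB : ∀ Q ∈ B, ¬ ∃ (P : X.primeDivisors) (e : ℕ), EGood F Δ ∅ E P Q e) :
    Nonempty (LowerData X Z (F.aD + Δ) (F.cD + E) B 0) := by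
  obtain ⟨R, hR, hlow⟩ := low_norm (L' := L') (F.aD + Δ) (F.cD + E) B (m := 6) (by norm_num)
  have hs : six y l ≠ 0 := six_ne_zero F.leg
  have hψ : six y l / F.u ^ 6 ≠ 0 := div_ne_zero hs (pow_ne_zero _ F.u_ne)
  have hge : ∀ (P : X.primeDivisors) (Q : Z.primeDivisors) (e : ℕ), LiesOver P.1 Q.1 e →
      ∀ (v : DVal k L') (ε : ℕ), LiesOver v P.1 ε →
      -(((6 : ℕ) : ℤ) * F.mu P Q e v ε) ≤ v (six y l) := by
    intro P Q e hPQ v ε hv
    have := elow_six F hPQ hv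
    push_cast
    linarith
  obtain ⟨h1, h2⟩ := hlow (six y l / F.u ^ 6) hψ
    (fun P hP v ε hv => by
      refine elow_hor F hs hP hv ?_
      rw [elow_six_hor F.leg (triv_ext (K' := K') hP hv)]
      have h3 := h0 P hP
      push_cast
      linarith)
    (fun P Q e hPQ v ε hv => elow_vert F hbase hs hPQ (hge P Q e hPQ v ε hv))
    (fun P Q e hPQ hQ => by
      have hbad : ¬ EGood F Δ ∅ E P Q e := fun hg => hB Q hQ ⟨P, e, hg⟩
      by_cases hsl : Δ P + (e - 1) = e * E Q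
      · have h3 : ∃ (v : DVal k L') (ε : ℕ), LiesOver v P.1 ε ∧
            v (six y l) + 6 * F.mu P Q e v ε ≠ 0 := by
          by_contra hcon
          push Not at hcon
          exact hbad ⟨hPQ, hsl, fun v ε hv =>
            ⟨hcon v ε hv, fun p hp => absurd hp (Finset.notMem_empty p)⟩⟩
        obtain ⟨v, ε, hv, h4⟩ := h3
        refine ⟨v, ε, hv, elow_strict_val F hbase hs hPQ ?_⟩
        have h5 := elow_six F hPQ hv
        have h6 : 0 < v (six y l) + 6 * F.mu P Q e v ε := lt_of_le_of_ne h5 (Ne.symm h4)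
        push_cast
        linarith
      · obtain ⟨v, ε, hv⟩ := Pool.Agent.Helper47.PQ.exists_over L' P.1
        exact ⟨v, ε, hv, elow_strict_slack F hs (by norm_num)
          (lt_of_le_of_ne (hbase P Q e hPQ) (Ne.symm hsl)) hv (hge P Q e hPQ v ε hv)⟩)
  refine ⟨{ N := R * (Module.finrank L L' * 6)
            N_pos := Nat.mul_pos hR (Nat.mul_pos Module.finrank_pos (by norm_num))
            b := Algebra.norm L (six y l / F.u ^ 6) ^ R
            b_ne := pow_ne_zero _ (Algebra.norm_ne_zero_iff.2 hψ)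
            ρ := Fin.elim0
            indep := ?_
            hor := fun P hP => ⟨h1 P hP, fun i => i.elim0⟩
            vert := fun P Q e hPQ => ⟨h2 P Q e hPQ, fun i => i.elim0⟩ }⟩
  exact (algebraicIndependent_empty_type_iff).2 (algebraMap K L).injective

theorem elow_pos (tab : ETab k t y l) {S : Finset (K' × K')} (hS : ∀ p ∈ S, OnE l p)
    (h0 : ∀ P : X.primeDivisors, (∀ x : K, P.1 (algebraMap K L x) = 0) → 0 ≤ Δ P)
    {η : ℚ} (hη : 0 < η)
    (hbig : ∀ P : X.primeDivisors, (∀ x : K, P.1 (algebraMap K L x) = 0) →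
      ∀ (v : DVal k L') (ε : ℕ), LiesOver v P.1 ε → (v t < 0 ∨ ∃ p ∈ S, Near t y v p) → η ≤ Δ P)
    (hbase : ∀ (P : X.primeDivisors) (Q : Z.primeDivisors) (e : ℕ), LiesOver P.1 Q.1 e →
      e * E Q ≤ Δ P + (e - 1))
    (hB : ∀ Q ∈ B, ¬ ∃ (P : X.primeDivisors) (e : ℕ), EGood F Δ S E P Q e) :
    Nonempty (LowerData X Z (F.aD + Δ) (F.cD + E) B 1) := by
  classical
  obtain ⟨α, hα⟩ := exists_nat_ge ((2 * S.card + 6) / η)
  -- the exponents
  set A : ℕ := α + 1 with hA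
  set m : ℕ := 6 * A + 6 + 2 * S.card with hm
  have hm0 : 0 < m := by omega
  have hmη : (2 * S.card + 6 : ℚ) ≤ m * η := by
    rw [div_le_iff₀ hη] at hα
    have h1 : (α : ℚ) ≤ m := by
      have : α ≤ m := by omega
      exact_mod_cast this
    exact hα.trans (mul_le_mul_of_nonneg_right h1 hη.le)
  set ξ : L' := (t - algebraMap K' L' l) / y ^ 2 with hξdef
  have hy := F.leg.y0
  have hs : six y l ≠ 0 := six_ne_zero F.leg
  have hξ : ξ ≠ 0 := elow_xi_ne F.leg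
  have hk : ∀ p ∈ S, kap t y l p.1 p.2 ≠ 0 := fun p hp =>
    kap_ne_zero F.leg (b := p.1) (c := p.2) (hS p hp)
  set κ : L' := ∏ p ∈ S, kap t y l p.1 p.2 with hκdef
  have hκ : κ ≠ 0 := Finset.prod_ne_zero_iff.2 hk
  set Φ₀ : L' := six y l ^ (A + 1) * κ with hΦ₀
  set Φ₁ : L' := six y l ^ A * ξ ^ 3 * κ with hΦ₁
  have hΦ₀ne : Φ₀ ≠ 0 := mul_ne_zero (pow_ne_zero _ hs) hκ
  have hΦ₁ne : Φ₁ ≠ 0 := mul_ne_zero (mul_ne_zero (pow_ne_zero _ hs) (pow_ne_zero _ hξ)) hκ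
  have hun : F.u ^ m ≠ 0 := pow_ne_zero _ F.u_ne
  have hv₀ : ∀ v : DVal k L', v Φ₀ = (A + 1) * v (six y l) + ∑ p ∈ S, v (kap t y l p.1 p.2) := by
    intro v
    rw [hΦ₀, v.map_mul (pow_ne_zero _ hs) hκ, v.map_pow, hκdef, v.map_prod _ _ hk]
    push_cast
    ring
  have hv₁ : ∀ v : DVal k L', v Φ₁ = A * v (six y l) + 3 * v ξ +
      ∑ p ∈ S, v (kap t y l p.1 p.2) := by
    intro v
    rw [hΦ₁, v.map_mul (mul_ne_zero (pow_ne_zero _ hs) (pow_ne_zero _ hξ)) hκ,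
      v.map_mul (pow_ne_zero _ hs) (pow_ne_zero _ hξ), v.map_pow, v.map_pow, hκdef,
      v.map_prod _ _ hk]
    push_cast
    ring
  -- vertical valuations
  have hsum : ∀ (μ : ℤ) (v : DVal k L'), ∑ p ∈ S, (v (kap t y l p.1 p.2) + 2 * μ) =
      ∑ p ∈ S, v (kap t y l p.1 p.2) + 2 * S.card * μ := by
    intro μ v
    rw [Finset.sum_add_distrib, Finset.sum_const, nsmul_eq_mul]
    ring
  have hge : ∀ (P : X.primeDivisors) (Q : Z.primeDivisors) (e : ℕ), LiesOver P.1 Q.1 e →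
      ∀ (v : DVal k L') (ε : ℕ), LiesOver v P.1 ε →
      -((m : ℤ) * F.mu P Q e v ε) ≤ v Φ₀ ∧ -((m : ℤ) * F.mu P Q e v ε) ≤ v Φ₁ := by
    intro P Q e hPQ v ε hv
    have h1 := elow_six F hPQ hv
    have h2 := elow_xi F hPQ hv
    have h3 : 0 ≤ ∑ p ∈ S, (v (kap t y l p.1 p.2) + 2 * F.mu P Q e v ε) :=
      Finset.sum_nonneg fun p hp => elow_kap F hPQ hv (hS p hp)
    rw [hsum] at h3
    have hA0 : (0 : ℤ) ≤ A := Int.natCast_nonneg _
    have hmZ : (m : ℤ) = 6 * A + 6 + 2 * S.card := by rw [hm]; push_cast; ring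
    rw [hv₀, hv₁, hmZ]
    constructor
    · nlinarith [mul_nonneg hA0 h1]
    · nlinarith [mul_nonneg hA0 h1]
  -- strict inequalities
  have hstr : ∀ (P : X.primeDivisors) (Q : Z.primeDivisors) (e : ℕ), LiesOver P.1 Q.1 e → Q ∈ B →
      ∃ (v : DVal k L') (ε : ℕ), LiesOver v P.1 ε ∧
        (ε : ℚ) * (m * (e * (F.cD + E) Q - (F.aD + Δ) P)) < v (Φ₀ / F.u ^ m) ∧
        (ε : ℚ) * (m * (e * (F.cD + E) Q - (F.aD + Δ) P)) < v (Φ₁ / F.u ^ m) := by
    intro P Q e hPQ hQ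
    have hbad : ¬ EGood F Δ S E P Q e := fun hg => hB Q hQ ⟨P, e, hg⟩
    by_cases hsl : Δ P + (e - 1) = e * E Q
    · have h3 : ∃ (v : DVal k L') (ε : ℕ), LiesOver v P.1 ε ∧
          (v (six y l) + 6 * F.mu P Q e v ε ≠ 0 ∨
            ∃ p ∈ S, v.Ge ((-(2 * F.mu P Q e v ε) + 1 : ℤ) : ℚ) (kap t y l p.1 p.2)) := by
        by_contra hcon
        push Not at hcon
        exact hbad ⟨hPQ, hsl, fun v ε hv => hcon v ε hv⟩
      obtain ⟨v, ε, hv, h4⟩ := h3
      have h1 := elow_six F hPQ hv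
      have h2 := elow_xi F hPQ hv
      have h5 : ∀ p ∈ S, 0 ≤ v (kap t y l p.1 p.2) + 2 * F.mu P Q e v ε :=
        fun p hp => elow_kap F hPQ hv (hS p hp)
      have h6 : 0 ≤ ∑ p ∈ S, (v (kap t y l p.1 p.2) + 2 * F.mu P Q e v ε) :=
        Finset.sum_nonneg h5
      have hA1 : (1 : ℤ) ≤ A := by
        have : 1 ≤ A := by omega
        exact_mod_cast this
      have hmZ : (m : ℤ) = 6 * A + 6 + 2 * S.card := by rw [hm]; push_cast; ring
      have h7 : -((m : ℤ) * F.mu P Q e v ε) < v Φ₀ ∧ -((m : ℤ) * F.mu P Q e v ε) < v Φ₁ := by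
        rcases h4 with h4 | ⟨p, hp, h4⟩
        · have h8 : 0 < v (six y l) + 6 * F.mu P Q e v ε := lt_of_le_of_ne h1 (Ne.symm h4)
          rw [hsum] at h6
          rw [hv₀, hv₁, hmZ]
          constructor
          · nlinarith [mul_nonneg (sub_nonneg.2 hA1) h1]
          · nlinarith [mul_nonneg (sub_nonneg.2 hA1) h1]
        · have h8 : 0 < ∑ p ∈ S, (v (kap t y l p.1 p.2) + 2 * F.mu P Q e v ε) := by
            refine Finset.sum_pos' h5 ⟨p, hp, ?_⟩
            rw [DVal.ge_iff (hk p hp)] at h4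
            have h9 : -(2 * F.mu P Q e v ε) + 1 ≤ v (kap t y l p.1 p.2) := by exact_mod_cast h4
            linarith
          rw [hsum] at h8
          rw [hv₀, hv₁, hmZ]
          constructor
          · nlinarith [mul_nonneg (sub_nonneg.2 hA1) h1]
          · nlinarith [mul_nonneg (sub_nonneg.2 hA1) h1]
      exact ⟨v, ε, hv, elow_strict_val F hbase hΦ₀ne hPQ h7.1,
        elow_strict_val F hbase hΦ₁ne hPQ h7.2⟩
    · obtain ⟨v, ε, hv⟩ := Pool.Agent.Helper47.PQ.exists_over L' P.1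
      have h7 := hge P Q e hPQ v ε hv
      have h8 := lt_of_le_of_ne (hbase P Q e hPQ) (Ne.symm hsl)
      exact ⟨v, ε, hv, elow_strict_slack F hΦ₀ne hm0 h8 hv h7.1,
        elow_strict_slack F hΦ₁ne hm0 h8 hv h7.2⟩
  -- horizontal valuations
  have hhor : ∀ P : X.primeDivisors, (∀ x : K, P.1 (algebraMap K L x) = 0) →
      ∀ (v : DVal k L') (ε : ℕ), LiesOver v P.1 ε →
        -((m : ℚ) * Δ P) ≤ ((v Φ₀ + m * v y : ℤ) : ℚ) ∧
        -((m : ℚ) * Δ P) ≤ ((v Φ₁ + m * v y : ℤ) : ℚ) := by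
    intro P hP v ε hv
    have hvK : ∀ x : K', v (algebraMap K' L' x) = 0 := triv_ext (K' := K') hP hv
    have h1 := elow_six_hor F.leg hvK
    have h2 : v ξ = v (t - algebraMap K' L' l) - 2 * v y := by
      rw [hξdef, v.map_div (F.leg.sub_ne l) (pow_ne_zero _ hy), v.map_pow]
      push_cast
      ring
    have hTne : ∀ p ∈ S, TT t y l p.1 p.2 - t ≠ 0 := by
      intro p hp h3
      apply hk p hp
      unfold kap
      rw [h3, zero_div]
    have h3 : ∀ p ∈ S, v (kap t y l p.1 p.2) = v (TT t y l p.1 p.2 - t) - 2 * v y := by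
      intro p hp
      unfold kap
      rw [v.map_div (hTne p hp) (pow_ne_zero _ hy), v.map_pow]
      push_cast
      ring
    have h4 : ∑ p ∈ S, v (kap t y l p.1 p.2) =
        ∑ p ∈ S, v (TT t y l p.1 p.2 - t) - 2 * S.card * v y := by
      rw [Finset.sum_congr rfl h3, Finset.sum_sub_distrib, Finset.sum_const, nsmul_eq_mul]
      ring
    have hmZ : (m : ℤ) = 6 * A + 6 + 2 * S.card := by rw [hm]; push_cast; ring
    have h5 : v Φ₀ + m * v y = ∑ p ∈ S, v (TT t y l p.1 p.2 - t) := by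
      rw [hv₀, h1, h4, hmZ]
      ring
    have h6 : v Φ₁ + m * v y = 3 * v (t - algebraMap K' L' l) +
        ∑ p ∈ S, v (TT t y l p.1 p.2 - t) := by
      rw [hv₁, h1, h2, h4, hmZ]
      ring
    have h7 : -(2 * (S.card : ℤ)) ≤ ∑ p ∈ S, v (TT t y l p.1 p.2 - t) := by
      have h8 : ∀ p ∈ S, (-2 : ℤ) ≤ v (TT t y l p.1 p.2 - t) := by
        intro p hp
        have h9 := tab.ge v hvK p.1 p.2 (hS p hp)
        rw [DVal.ge_iff (hTne p hp)] at h9
        exact_mod_cast h9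
      have h10 := Finset.sum_le_sum h8
      rw [Finset.sum_const, nsmul_eq_mul] at h10
      linarith
    have hl : v (algebraMap K' L' l) = 0 := hvK l
    have h8 : -2 ≤ v (t - algebraMap K' L' l) ∧ (0 ≤ v t → 0 ≤ v (t - algebraMap K' L' l)) := by
      by_cases ht : v t < 0
      · have h9 := (tab.inf v hvK ht).1
        have h10 := v.map_add_eq_of_lt (b := -algebraMap K' L' l) F.leg.t0 (Or.inr (by
          rw [v.map_neg, hl]
          exact ht))
        rw [← sub_eq_add_neg] at h10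
        exact ⟨by omega, fun h => absurd ht (not_lt.2 h)⟩
      · have h9 : 0 ≤ v (t - algebraMap K' L' l) :=
          v.ring.sub_mem (show t ∈ v.ring from not_lt.1 ht)
            (show algebraMap K' L' l ∈ v.ring from le_of_eq hl.symm)
        exact ⟨by omega, fun _ => h9⟩
    by_cases hnear : v t < 0 ∨ ∃ p ∈ S, Near t y v p
    · have h9 := hbig P hP v ε hv hnear
      have h10 : (2 * S.card + 6 : ℚ) ≤ m * Δ P :=
        hmη.trans (mul_le_mul_of_nonneg_left h9 (Nat.cast_nonneg m))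
      have h11 : (-(2 * (S.card : ℤ)) : ℚ) ≤ ((∑ p ∈ S, v (TT t y l p.1 p.2 - t) : ℤ) : ℚ) := by
        exact_mod_cast h7
      have h12 : (-2 : ℚ) ≤ ((v (t - algebraMap K' L' l) : ℤ) : ℚ) := by exact_mod_cast h8.1
      rw [h5, h6]
      push_cast at h11 ⊢
      constructor
      · linarith
      · linarith
    · push Not at hnear
      have h9 : 0 ≤ ∑ p ∈ S, v (TT t y l p.1 p.2 - t) := by
        refine Finset.sum_nonneg fun p hp => ?_
        have h10 := tab.ge_zero v hvK p.1 p.2 (hS p hp) hnear.1 (hnear.2 p hp)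
        rw [DVal.ge_iff (hTne p hp)] at h10
        exact_mod_cast h10
      have h10 : 0 ≤ v (t - algebraMap K' L' l) := h8.2 hnear.1
      have h11 : 0 ≤ (m : ℚ) * Δ P := mul_nonneg (Nat.cast_nonneg m) (h0 P hP)
      have h12 : (0 : ℚ) ≤ ((∑ p ∈ S, v (TT t y l p.1 p.2 - t) : ℤ) : ℚ) := by exact_mod_cast h9
      have h13 : (0 : ℚ) ≤ ((v (t - algebraMap K' L' l) : ℤ) : ℚ) := by exact_mod_cast h10
      rw [h5, h6]
      push_cast at h12 ⊢
      constructor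
      · linarith
      · linarith
  -- transcendence
  have htr : Transcendental K (Φ₁ / Φ₀) := by
    intro hal
    have h1 : Φ₁ / Φ₀ * algebraMap K' L' (l * (1 - l)) = (t - algebraMap K' L' l) ^ 3 := by
      have hl0 := F.leg.l0'
      have hl1 := F.leg.l1'
      rw [hΦ₁, hΦ₀, hξdef, map_mul, map_sub, map_one]
      have h2 : six y l * y ^ 6 = algebraMap K' L' l * (1 - algebraMap K' L' l) := by
        unfold six
        field_simp
      rw [← h2]
      field_simp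
      ring
    have h2 : IsAlgebraic K' (Φ₁ / Φ₀) := hal.tower_top K'
    have h3 : IsAlgebraic K' ((t - algebraMap K' L' l) ^ 3) := by
      rw [← h1]
      exact h2.mul (isAlgebraic_algebraMap _)
    have h4 : IsAlgebraic K' (t - algebraMap K' L' l) := h3.of_pow (by norm_num)
    apply F.leg.tr
    have h5 := h4.add (isAlgebraic_algebraMap (A := L') l)
    rwa [sub_add_cancel] at h5
  obtain ⟨z, hz⟩ := exists_norm_transcendental (k := k) (K := K) (L := L) htr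
  obtain ⟨R, hR, hlow⟩ := low_norm (L' := L') (F.aD + Δ) (F.cD + E) B hm0
  have hψ0 : Φ₀ / F.u ^ m ≠ 0 := div_ne_zero hΦ₀ne hun
  have hρz : Φ₁ / Φ₀ - algebraMap k L' z ≠ 0 := by
    intro h
    rw [h, Algebra.norm_zero] at hz
    exact hz isAlgebraic_zero
  have heq : Φ₀ / F.u ^ m * (Φ₁ / Φ₀ - algebraMap k L' z) =
      Φ₁ / F.u ^ m - algebraMap k L' z * (Φ₀ / F.u ^ m) := by
    field_simp
  have hψ1 : Φ₁ / F.u ^ m - algebraMap k L' z * (Φ₀ / F.u ^ m) ≠ 0 := by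
    rw [← heq]
    exact mul_ne_zero hψ0 hρz
  obtain ⟨a1, a2⟩ := hlow (Φ₀ / F.u ^ m) hψ0
    (fun P hP v ε hv => elow_hor F hΦ₀ne hP hv (hhor P hP v ε hv).1)
    (fun P Q e hPQ v ε hv => elow_vert F hbase hΦ₀ne hPQ (hge P Q e hPQ v ε hv).1)
    (fun P Q e hPQ hQ => by
      obtain ⟨v, ε, hv, h, _⟩ := hstr P Q e hPQ hQ
      exact ⟨v, ε, hv, h⟩)
  obtain ⟨b1, b2⟩ := hlow (Φ₁ / F.u ^ m - algebraMap k L' z * (Φ₀ / F.u ^ m)) hψ1
    (fun P hP v ε hv => elow_sub_le v z hψ1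
      (elow_hor F hΦ₁ne hP hv (hhor P hP v ε hv).2)
      (elow_hor F hΦ₀ne hP hv (hhor P hP v ε hv).1))
    (fun P Q e hPQ v ε hv => elow_sub_le v z hψ1
      (elow_vert F hbase hΦ₁ne hPQ (hge P Q e hPQ v ε hv).2)
      (elow_vert F hbase hΦ₀ne hPQ (hge P Q e hPQ v ε hv).1))
    (fun P Q e hPQ hQ => by
      obtain ⟨v, ε, hv, h, h'⟩ := hstr P Q e hPQ hQ
      exact ⟨v, ε, hv, elow_sub_lt v z hψ1 h' h⟩)
  have hbρ : Algebra.norm L (Φ₀ / F.u ^ m) ^ R *
      Algebra.norm L (Φ₁ / Φ₀ - algebraMap k L' z) ^ R =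
      Algebra.norm L (Φ₁ / F.u ^ m - algebraMap k L' z * (Φ₀ / F.u ^ m)) ^ R := by
    rw [← mul_pow, ← map_mul, heq]
  refine ⟨{ N := R * (Module.finrank L L' * m)
            N_pos := Nat.mul_pos hR (Nat.mul_pos Module.finrank_pos hm0)
            b := Algebra.norm L (Φ₀ / F.u ^ m) ^ R
            b_ne := pow_ne_zero _ (Algebra.norm_ne_zero_iff.2 hψ0)
            ρ := fun _ => Algebra.norm L (Φ₁ / Φ₀ - algebraMap k L' z) ^ R
            indep := ?_
            hor := fun P hP => ⟨a1 P hP, fun i => ?_⟩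
            vert := fun P Q e hPQ => ⟨a2 P Q e hPQ, fun i => ?_⟩ }⟩
  · rw [algebraicIndependent_unique_type_iff]
    exact hz.pow hR
  · rw [hbρ]
    exact b1 P hP
  · rw [hbρ]
    exact b2 P Q e hPQ

end Pool.Agent.Helper60.PB
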