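import Pool.Agent.Helper60.PB.G1.EDefs
import Pool.Agent.Helper60.PB.G1.GoodE

set_option autoImplicit false

/-!
# G1-16 SupE: the data for the upper bound

`euData_zero` (no horizontal boundary): `J = 0`, `Ψ = 1`. `good`: `good_of_six` with `D = F.Dt`, `F.star'`.

`euData_pos` (`Δ P ≤ n` for the horizontal `P`): `J = n + 2 n |S|`, `Ψ = (∏_{p ∈ S} (t - p.1)) ^ n`
(nonzero: `Leg.sub_ne`). `v` over `P` trivial on `K` is
trivial on `K'` (`triv_ext`). `fin`: `v t ≥ 0`, so all factors have value `≥ 0`; if `Δ P > 0`, then `v` is near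
some `p ∈ S`, so `v Ψ ≥ n ≥ Δ P`; if `Δ P ≤ 0`: `v Ψ ≥ 0 ≥ Δ P`. `inf`: `v t = -2` (`tab.inf`), `v (t - b) = -2`,
`v Ψ = -2 n |S| ≥ Δ P - J` since `Δ P ≤ n`. `good`: `P` good over `Q ∉ B`, `v` over `P`: `good_of_six` gives
`μ = 0` and `v t = v l = v (1 - l) = v y = 0`; for `p ∈ S` the kappa condition with `μ = 0` reads
`¬ v.Ge 1 (kap p)`, so `integral_of_kappa` gives `v (p.1) ≥ 0`, and `v (t - p.1) ≥ 0`; so `v Ψ ≥ 0`.
-/

namespace Pool.Agent.Helper60.PB

open Pool.Agent.Helper92.Weak Pool.Agent.Helper92.Ga Pool.Agent.Helper63.PB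

variable {k K L K' L' : Type*} [Field k] [Field K] [Field L] [Field K'] [Field L']
  [Algebra k K] [Algebra k L] [Algebra k K'] [Algebra k L'] [Algebra K L] [Algebra K K']
  [Algebra K L'] [Algebra L L'] [Algebra K' L'] [IsScalarTower k K L] [IsScalarTower k K K']
  [IsScalarTower k K L'] [IsScalarTower k L L'] [IsScalarTower k K' L'] [IsScalarTower K L L']
  [IsScalarTower K K' L'] [FiniteDimensional K K'] [FiniteDimensional L L'] [CharZero k]
  {X : ProjVar k L} {Z : ProjVar k K} {t y : L'} {l : K'} (F : EFrame X Z K' t y l)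
  {Δ : X.Div} {E : Z.Div} {B : Finset Z.primeDivisors}

theorem euData_zero
    (h0 : ∀ P : X.primeDivisors, (∀ x : K, P.1 (algebraMap K L x) = 0) → Δ P ≤ 0)
    (hB : ∀ Q ∉ B, ∃ (P : X.primeDivisors) (e : ℕ), EGood F Δ ∅ E P Q e) :
    ∃ U : EUData F Δ E B, U.J = 0 := by
  refine ⟨⟨0, 1, one_ne_zero, ?_, ?_, ?_⟩, rfl⟩
  · intro P hP v _ _
    rw [v.map_one]
    simpa using h0 P hP
  · intro P hP v _ _
    rw [v.map_one]
    simpa using h0 P hP
  · intro Q hQ
    obtain ⟨P, e, h1, h2, h3⟩ := hB Q hQ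
    refine ⟨P, e, h1, h2, fun v ε hv => ?_⟩
    obtain ⟨h4, _⟩ := h3 v ε hv
    obtain ⟨a1, a2, a3, a4, a5, a6, a7⟩ :=
      good_of_six F.leg F.Dt_t (fun g => F.star' h1 hv g) h4
    exact ⟨a1, a2, a5, a6, a7, by rw [v.map_one]⟩

theorem euData_pos (tab : ETab k t y l) {S : Finset (K' × K')} (hS : ∀ p ∈ S, OnE l p)
    {n : ℕ} (hn1 : 1 ≤ n)
    (h1 : ∀ P : X.primeDivisors, (∀ x : K, P.1 (algebraMap K L x) = 0) → Δ P ≤ n)
    (hsup : ∀ P : X.primeDivisors, (∀ x : K, P.1 (algebraMap K L x) = 0) → 0 < Δ P →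
      ∀ (v : DVal k L') (ε : ℕ), LiesOver v P.1 ε → 0 ≤ v t → ∃ p ∈ S, Near t y v p)
    (hB : ∀ Q ∉ B, ∃ (P : X.primeDivisors) (e : ℕ), EGood F Δ S E P Q e) :
    ∃ U : EUData F Δ E B, U.J ≠ 0 := by
  classical
  have hfac : ∀ (v : DVal k L') (b : K'), 0 ≤ v t → 0 ≤ v (algebraMap K' L' b) →
      0 ≤ v (t - algebraMap K' L' b) := by
    intro v b h1 h2
    have h3 : v.Ge 0 t := Or.inr (by exact_mod_cast h1)
    have h4 : v.Ge 0 (algebraMap K' L' b) := Or.inr (by exact_mod_cast h2)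
    have h5 := h3.sub h4
    rw [DVal.ge_iff (F.leg.sub_ne b)] at h5
    exact_mod_cast h5
  have hsum : ∀ v : DVal k L', v (∏ p ∈ S, (t - algebraMap K' L' p.1)) =
      ∑ p ∈ S, v (t - algebraMap K' L' p.1) := fun v =>
    v.map_prod S (fun p => t - algebraMap K' L' p.1) fun p _ => F.leg.sub_ne p.1
  refine ⟨⟨n + 2 * (n * S.card), (∏ p ∈ S, (t - algebraMap K' L' p.1)) ^ n,
    pow_ne_zero _ (Finset.prod_ne_zero_iff.2 fun p _ => F.leg.sub_ne p.1), ?_, ?_, ?_⟩, ?_⟩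
  · intro P hP v hv ht
    have htr : ∀ z : K', v (algebraMap K' L' z) = 0 := fun z => triv_ext hP hv z
    have hnn : ∀ p ∈ S, 0 ≤ v (t - algebraMap K' L' p.1) := fun p _ =>
      hfac v p.1 ht (htr p.1).ge
    rw [v.map_pow, hsum v]
    by_cases hpos : 0 < Δ P
    · obtain ⟨p, hp, hn, _⟩ := hsup P hP hpos v 1 hv ht
      rw [DVal.ge_iff (F.leg.sub_ne p.1)] at hn
      have hn' : 1 ≤ v (t - algebraMap K' L' p.1) := by exact_mod_cast hn
      have h2 : v (t - algebraMap K' L' p.1) ≤ ∑ p ∈ S, v (t - algebraMap K' L' p.1) :=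
        Finset.single_le_sum (f := fun p : K' × K' => v (t - algebraMap K' L' p.1)) hnn hp
      have h3 : (1 : ℤ) ≤ ∑ p ∈ S, v (t - algebraMap K' L' p.1) := hn'.trans h2
      have h4 : (n : ℤ) * 1 ≤ n * ∑ p ∈ S, v (t - algebraMap K' L' p.1) :=
        mul_le_mul_of_nonneg_left h3 (Int.natCast_nonneg n)
      rw [mul_one] at h4
      exact (h1 P hP).trans (by exact_mod_cast h4)
    · have h3 : (0 : ℤ) ≤ n * ∑ p ∈ S, v (t - algebraMap K' L' p.1) :=
        mul_nonneg (Int.natCast_nonneg n) (Finset.sum_nonneg hnn)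
      have h4 : (0 : ℚ) ≤ ((n * ∑ p ∈ S, v (t - algebraMap K' L' p.1) : ℤ) : ℚ) := by
        exact_mod_cast h3
      exact (not_lt.1 hpos).trans h4
  · intro P hP v hv ht
    have htr : ∀ z : K', v (algebraMap K' L' z) = 0 := fun z => triv_ext hP hv z
    have ht2 : v t = -2 := (tab.inf v htr ht).1
    have hval : ∀ p ∈ S, v (t - algebraMap K' L' p.1) = -2 := by
      intro p _
      have h8 : -algebraMap K' L' p.1 = 0 ∨ v t < v (-algebraMap K' L' p.1) := by
        right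
        rw [v.map_neg, htr, ht2]
        norm_num
      have h9 := v.map_add_eq_of_lt F.leg.t0 h8
      rw [← sub_eq_add_neg, ht2] at h9
      exact h9
    rw [v.map_pow, hsum v, Finset.sum_congr rfl hval, Finset.sum_const]
    have := h1 P hP
    push_cast
    simp only [nsmul_eq_mul, Int.cast_mul, Int.cast_natCast, Int.cast_neg, Int.cast_ofNat]
    linarith
  · intro Q hQ
    obtain ⟨P, e, g1, g2, g3⟩ := hB Q hQ
    refine ⟨P, e, g1, g2, fun v ε hv => ?_⟩
    obtain ⟨g4, g5⟩ := g3 v ε hv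
    obtain ⟨a1, a2, a3, a4, a5, a6, a7⟩ :=
      good_of_six F.leg F.Dt_t (fun g => F.star' g1 hv g) g4
    refine ⟨a1, a2, a5, a6, a7, ?_⟩
    rw [v.map_pow, hsum v]
    refine mul_nonneg (Int.natCast_nonneg n) ?_
    apply Finset.sum_nonneg
    intro p hp
    refine hfac v p.1 a2.ge ?_
    have h6 := g5 p hp
    rw [a1] at h6
    refine integral_of_kappa F.leg (hS p hp) a2 a5 a7 ?_
    simpa using h6
  · simp only [ne_eq]
    omega

end Pool.Agent.Helper60.PB
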