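import Pool.Agent.Helper60.PB.G1.UpE
import Pool.Agent.Helper60.PB.G1.SupE
import Pool.Agent.Helper60.PB.G1.LowE
import Pool.Agent.Helper60.PB.G1.ETabE
import Pool.Agent.Helper63.PB.AbsMain

set_option autoImplicit false

/-!
# G1-17 EMain: the comparison theorem for a frame of genus one

Assembly of `efinite_not_good`, `elow_zero`, `elow_pos`, `euData_zero`, `euData_pos`,
`upper_of_euData`, `abs_main`.
-/

namespace Pool.Agent.Helper60.PB

open Pool.Agent.Helper92.Weak Pool.Agent.Helper92.Ga Pool.Agent.Helper63.PB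

variable {k K L K' L₀ L' : Type*} [Field k] [Field K] [Field L] [Field K'] [Field L₀] [Field L']
  [Algebra k K] [Algebra k L] [Algebra k K'] [Algebra k L₀] [Algebra k L'] [Algebra K L]
  [Algebra K K'] [Algebra K L'] [Algebra L L'] [Algebra K' L₀] [Algebra K' L'] [Algebra L₀ L']
  [IsScalarTower k K L] [IsScalarTower k K K'] [IsScalarTower k K L'] [IsScalarTower k L L']
  [IsScalarTower k K' L₀] [IsScalarTower k K' L'] [IsScalarTower k L₀ L']
  [IsScalarTower K' L₀ L'] [IsScalarTower K L L'] [IsScalarTower K K' L'] [FiniteDimensional K K']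
  [FiniteDimensional L L'] [Algebra.IsPushout K K' L L'] [CharZero k] [IsAlgClosed k]
  {X : ProjVar k L} {Z : ProjVar k K} {t₀ : L₀} {y : L'} {l : K'}
  (F : EFrame X Z K' (algebraMap L₀ L' t₀) y l) {Δ : X.Div} {E : Z.Div}

/-- No horizontal boundary. -/
theorem eframe_zero (C : ECurve t₀ y l)
    (h0 : ∀ P : X.primeDivisors, (∀ x : K, P.1 (algebraMap K L x) = 0) → Δ P = 0)
    (hbase : ∀ (P : X.primeDivisors) (Q : Z.primeDivisors) (e : ℕ), LiesOver P.1 Q.1 e →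
      e * E Q ≤ Δ P + (e - 1))
    {N₃ : ℕ} (hN₃ : 0 < N₃) {η : K} (hη : η ≠ 0)
    (hT : ∀ Q : Z.primeDivisors, 0 ≤ (Q.1 η : ℚ) + N₃ * (F.cD + E) Q) :
    ∃ B : Finset Z.primeDivisors, ∀ ε : ℚ, 0 < ε →
      X.kod (F.aD + Δ) = (0 : ℕ) + Z.kod (F.cD + E + ε • redDiv B) ∧
      X.nu (F.aD + Δ) = (0 : ℕ) + Z.nu (F.cD + E + ε • redDiv B) := by
  classical
  have hS : ∀ p ∈ (∅ : Finset (K' × K')), OnE l p := fun p hp => absurd hp (Finset.notMem_empty p)
  have hfin := efinite_not_good F Δ hS E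
  have hB1 : ∀ Q ∈ hfin.toFinset, ¬ ∃ (P : X.primeDivisors) (e : ℕ),
      EGood F Δ ∅ E P Q e := by
    intro Q hQ
    rw [Set.Finite.mem_toFinset] at hQ
    exact hQ
  have hB2 : ∀ Q ∉ hfin.toFinset, ∃ (P : X.primeDivisors) (e : ℕ),
      EGood F Δ ∅ E P Q e := by
    intro Q hQ
    rw [Set.Finite.mem_toFinset, Set.mem_ofPred_eq, not_not] at hQ
    exact hQ
  have hlow := elow_zero F (fun P hP => (h0 P hP).ge) hbase hB1
  obtain ⟨U, hU⟩ := euData_zero F (fun P hP => (h0 P hP).le) hB2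
  have hup := upper_of_euData C U
  rw [if_pos hU] at hup
  exact ⟨hfin.toFinset, fun ε hε => abs_main F.equi hlow hup hN₃ hη hT hε⟩

/-- The support of the horizontal boundary consists of the origin and of the points in `S`. -/
theorem eframe_pos (C : ECurve t₀ y l) {S : Finset (K' × K')} (hS : ∀ p ∈ S, OnE l p)
    (h0 : ∀ P : X.primeDivisors, (∀ x : K, P.1 (algebraMap K L x) = 0) → 0 ≤ Δ P)
    {η' : ℚ} (hη' : 0 < η')
    (hbig : ∀ P : X.primeDivisors, (∀ x : K, P.1 (algebraMap K L x) = 0) →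
      ∀ (v : DVal k L') (ε : ℕ), LiesOver v P.1 ε → (v (algebraMap L₀ L' t₀) < 0 ∨
        ∃ p ∈ S, Near (algebraMap L₀ L' t₀) y v p) → η' ≤ Δ P)
    (hsup : ∀ P : X.primeDivisors, (∀ x : K, P.1 (algebraMap K L x) = 0) → 0 < Δ P →
      ∀ (v : DVal k L') (ε : ℕ), LiesOver v P.1 ε → 0 ≤ v (algebraMap L₀ L' t₀) →
        ∃ p ∈ S, Near (algebraMap L₀ L' t₀) y v p)
    (hbase : ∀ (P : X.primeDivisors) (Q : Z.primeDivisors) (e : ℕ), LiesOver P.1 Q.1 e →
      e * E Q ≤ Δ P + (e - 1))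
    {N₃ : ℕ} (hN₃ : 0 < N₃) {η : K} (hη : η ≠ 0)
    (hT : ∀ Q : Z.primeDivisors, 0 ≤ (Q.1 η : ℚ) + N₃ * (F.cD + E) Q) :
    ∃ B : Finset Z.primeDivisors, ∀ ε : ℚ, 0 < ε →
      X.kod (F.aD + Δ) = (1 : ℕ) + Z.kod (F.cD + E + ε • redDiv B) ∧
      X.nu (F.aD + Δ) = (1 : ℕ) + Z.nu (F.cD + E + ε • redDiv B) := by
  classical
  have tab : ETab k (algebraMap L₀ L' t₀) y l := C.tab
  have hfin := efinite_not_good F Δ hS E
  have hB1 : ∀ Q ∈ hfin.toFinset, ¬ ∃ (P : X.primeDivisors) (e : ℕ),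
      EGood F Δ S E P Q e := by
    intro Q hQ
    rw [Set.Finite.mem_toFinset] at hQ
    exact hQ
  have hB2 : ∀ Q ∉ hfin.toFinset, ∃ (P : X.primeDivisors) (e : ℕ),
      EGood F Δ S E P Q e := by
    intro Q hQ
    rw [Set.Finite.mem_toFinset, Set.mem_ofPred_eq, not_not] at hQ
    exact hQ
  have hlow := elow_pos F tab hS h0 hη' hbig hbase hB1
  obtain ⟨n, hn1, hn⟩ : ∃ n : ℕ, 1 ≤ n ∧ ∀ P : X.primeDivisors,
      (∀ x : K, P.1 (algebraMap K L x) = 0) → Δ P ≤ n := by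
    obtain ⟨M, hM⟩ := (Δ.support.finite_toSet.image fun P => Δ P).bddAbove
    obtain ⟨n, hn⟩ := exists_nat_ge M
    refine ⟨n + 1, by omega, fun P _ => ?_⟩
    by_cases hP : Δ P = 0
    · rw [hP]
      positivity
    · have h2 : Δ P ≤ M := hM ⟨P, Finset.mem_coe.2 (Finsupp.mem_support_iff.2 hP), rfl⟩
      push_cast
      linarith
  obtain ⟨U, hU⟩ := euData_pos F tab hS hn1 hn hsup hB2
  have hup := upper_of_euData C U
  rw [if_neg hU] at hup
  exact ⟨hfin.toFinset, fun ε hε => abs_main F.equi hlow hup hN₃ hη hT hε⟩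

end Pool.Agent.Helper60.PB
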