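import Pool.Agent.Helper60.PB.G1.ValTab
import Pool.Agent.Helper60.PB.G1.ETrace
import Pool.Agent.Helper63.PB.LogIneq
import Pool.Agent.Helper63.PB.Hurwitz

set_option autoImplicit false

/-!
# G1-06 EOrd: the order of `dy' ∧ dt` at the places of `L' / K'`

`y'` a transcendence basis of `K' / k`, `v` a discrete valuation of `L'` trivial on `K'`, `t` the image of
`t₀`.

`ord_dt`: `dy' ∧ dt` has order `v y` along `v`. PROOF. On `L₀ = K'(t₀)` the form `Om k y' t₀`
(`= omega1 t₀ 1 y'`, `Ga.omega1`) has order `0` at all `pVal` (`Ga.isOrd_pVal`) and `-2` at `infVal`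
(`Ga.isOrd_inf`) (`dform k y' ≠ 0` for a transcendence basis: `Forms.exists_kaehler_basis` and
`dform_ne_zero`-like, as in Ga and in the proof of `Helper63.PB.ord_u`). `L' / L₀` is finite (`ETrace.finite`);
`hurwitz` for `E = L₀`, `E' = L'` and the transcendence basis `(y', t₀)` of `L₀ / k`
(`Fin.append`, as in `Om`): if `v` is over `w` with ramification `n`, then `Om k y' t` has order
`n (a + 1) - 1` along `v`, where `a` is the order along `w`.
`v t < 0`: `w = infVal`, `n = 2`, `a = -2`: order `-3 = v y` (`val_inf`).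
`v t ≥ 0`: `w = pVal p` (`Ga.exists_pVal`), `a = 0`, order `n - 1`. If `v y = 0`: `n = 1` (`ram_one`).
If `v y ≠ 0`: by `exists_root` and `val_near` `v y = 1`, and `v` lies over `pVal (X - C b)` with ramification
two; `w` is the same by `Helper47.PQ.liesOver_unique`, `n = 2`.

`ord_u`: `Dt` the derivation of `L' / K'` with `Dt t = 1`. PROOF. `Om k y' s = (Dt s) • Om k y' t` (`om_eq` for
`K := K'`, `M := L'`, `s := t`, `D := Dt`; `L'` is algebraic over `K'(t)`). So if `a` is the order of
`Om k y' s`, then `a = v (Dt s) + v y` (`isOrd_smul`, `isOrd_unique`; `Dt s ≠ 0` as `Om k y' s ≠ 0`).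
-/

namespace Pool.Agent.Helper60.PB

open Pool.Agent.Helper92.Weak Pool.Agent.Helper92.Ga Pool.Agent.Helper63.PB
open scoped KaehlerDifferential

/-- `t` is a transcendence basis of `K(t) / K`. -/
private theorem eo_line_basis {K L : Type*} [Field K] [Field L] [Algebra K L] {t : L}
    (h : IsLine K t) : IsTranscendenceBasis K (fun _ : Fin 1 => t) := by
  rw [h.isTorus.indep.isTranscendenceBasis_iff_isAlgebraic]
  constructor
  intro a
  have ha : a ∈ IntermediateField.adjoin K (Set.range (fun _ : Fin 1 => t)) := by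
    rw [h.isTorus.gen]
    trivial
  rw [IntermediateField.mem_adjoin_iff_div] at ha
  obtain ⟨r, hr, s, hs, rfl⟩ := ha
  have h1 : IsAlgebraic (Algebra.adjoin K (Set.range (fun _ : Fin 1 => t))) r :=
    isAlgebraic_algebraMap (⟨r, hr⟩ : Algebra.adjoin K (Set.range (fun _ : Fin 1 => t)))
  have h2 : IsAlgebraic (Algebra.adjoin K (Set.range (fun _ : Fin 1 => t))) s :=
    isAlgebraic_algebraMap (⟨s, hs⟩ : Algebra.adjoin K (Set.range (fun _ : Fin 1 => t)))
  rw [div_eq_mul_inv]
  exact h1.mul h2.inv

/-- The transcendence basis `(y, s)`. -/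
private theorem eo_append_basis {k K L : Type*} [Field k] [Field K] [Field L] [Algebra k K]
    [Algebra k L] [Algebra K L] [IsScalarTower k K L] {d : ℕ} {y : Fin d → K}
    (hy : IsTranscendenceBasis k y) {s : L} (hs : IsTranscendenceBasis K (fun _ : Fin 1 => s)) :
    IsTranscendenceBasis k (Fin.append (fun i => algebraMap K L (y i)) (fun _ : Fin 1 => s)) := by
  have h1 := hy.sumElim_comp hs
  let ε : Fin (d + 1) ≃ Fin 1 ⊕ Fin d := finSumFinEquiv.symm.trans (Equiv.sumComm _ _)
  have h2 := h1.comp_equiv ε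
  convert h2 using 1
  funext i
  induction i using Fin.addCases with
  | left i => rw [Fin.append_left]; simp [ε]
  | right l => rw [Fin.append_right]; simp [ε]

/-- The image of `dy ∧ ds` in a larger field. -/
private theorem eo_om_map {k K L M : Type*} [Field k] [Field K] [Field L] [Field M] [Algebra k K]
    [Algebra k L] [Algebra k M] [Algebra K L] [Algebra K M] [Algebra L M] [IsScalarTower K L M]
    {d : ℕ} (y : Fin d → K) (s : L) :
    dform k (fun i => algebraMap L M
      (Fin.append (fun i => algebraMap K L (y i)) (fun _ : Fin 1 => s) i)) =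
      Om k y (algebraMap L M s) := by
  unfold Om
  congr 1
  funext i
  induction i using Fin.addCases with
  | left i => rw [Fin.append_left, Fin.append_left, ← IsScalarTower.algebraMap_apply]
  | right l => rw [Fin.append_right, Fin.append_right]

variable {k K' L₀ L' : Type*} [Field k] [Field K'] [Field L₀] [Field L'] [Algebra k K']
  [Algebra k L₀] [Algebra k L'] [Algebra K' L₀] [Algebra K' L'] [Algebra L₀ L']
  [IsScalarTower k K' L₀] [IsScalarTower k K' L'] [IsScalarTower k L₀ L']
  [IsScalarTower K' L₀ L'] [CharZero k] {t₀ : L₀} {y : L'} {l : K'}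

namespace ECurve

theorem ord_dt (C : ECurve t₀ y l) {d : ℕ} {y' : Fin d → K'} (hy' : IsTranscendenceBasis k y')
    {v : DVal k L'} (hv : ∀ x : K', v (algebraMap K' L' x) = 0) :
    v.IsOrd (Om k y' (algebraMap L₀ L' t₀)) (v y) := by
  have hfin : FiniteDimensional L₀ L' := C.finite
  obtain ⟨b, hb⟩ := Pool.Agent.Helper50.Forms.exists_kaehler_basis hy'
  have hz : dform k y' ≠ 0 := Pool.Agent.Helper50.Forms.dform_ne_zero y' b hb
  have hom1 : dform k (Fin.append (fun i => algebraMap K' L₀ (y' i)) (fun _ : Fin 1 => t₀)) =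
      omega1 (k := k) t₀ (1 : K') y' := by
    unfold omega1
    rw [map_one, one_smul]
  have hY := eo_append_basis hy' (eo_line_basis C.line)
  have key : ∀ {w : DVal k L₀} {n : ℕ} {a : ℤ}, LiesOver v w n →
      w.IsOrd (omega1 (k := k) t₀ (1 : K') y') a →
      v.IsOrd (Om k y' (algebraMap L₀ L' t₀)) (n * (a + 1) - 1) := by
    intro w n a hw ha
    rw [← hom1] at ha
    have h1 := hurwitz hY hw ha
    rwa [eo_om_map] at h1
  by_cases ht : v (algebraMap L₀ L' t₀) < 0
  · obtain ⟨h1, -, h3⟩ := C.val_inf hv ht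
    have h4 := key h1 (isOrd_inf hy' C.line one_ne_zero y' hz)
    rw [h3]
    exact h4
  · push Not at ht
    by_cases hy0 : v y = 0
    · obtain ⟨w, n, hw⟩ := exists_under (E := L₀) v
      have hn : (0 : ℤ) < n := by exact_mod_cast hw.1
      have hwK : ∀ a : K', w (algebraMap K' L₀ a) = 0 := by
        intro a
        have h1 := hw.2 (algebraMap K' L₀ a)
        rw [← IsScalarTower.algebraMap_apply, hv] at h1
        exact (mul_eq_zero.1 h1.symm).resolve_left hn.ne'
      have hwt : 0 ≤ w t₀ := by
        have h1 := hw.2 t₀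
        rw [h1] at ht
        exact nonneg_of_mul_nonneg_right ht hn
      obtain ⟨p, hp, hwp⟩ := exists_pVal C.line w hwK hwt
      have h4 := key hw (by
        rw [hwp]
        exact isOrd_pVal hy' C.line hp one_ne_zero y' hz)
      rw [C.ram_one hw hy0] at h4
      rw [hy0]
      simpa using h4
    · obtain ⟨b, -, hb1⟩ := C.exists_root hv ht hy0
      obtain ⟨h1, -, h3, -⟩ := (C.val_near hv ht hb1).2 hy0
      have h4 := key h1 (isOrd_pVal hy' C.line _ one_ne_zero y' hz)
      rw [h3]
      exact h4

theorem ord_u (C : ECurve t₀ y l) {d : ℕ} {y' : Fin d → K'} (hy' : IsTranscendenceBasis k y')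
    (Dt : Derivation K' L' L') (hDt : Dt (algebraMap L₀ L' t₀) = 1) {v : DVal k L'}
    (hv : ∀ x : K', v (algebraMap K' L' x) = 0) {s : L'} {a : ℤ} (ha : v.IsOrd (Om k y' s) a) :
    v (Dt s) = a - v y := by
  have hfin : FiniteDimensional L₀ L' := C.finite
  have hs' : ∀ x : L', IsAlgebraic (IntermediateField.adjoin K' {algebraMap L₀ L' t₀}) x := by
    intro x
    have hmem : ∀ a : L₀, algebraMap L₀ L' a ∈
        IntermediateField.adjoin K' {algebraMap L₀ L' t₀} := by
      intro a
      obtain ⟨p, q, -, rfl⟩ := C.line.exists_div a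
      have hp : ∀ p : Polynomial K', algebraMap L₀ L' (Polynomial.aeval t₀ p) ∈
          IntermediateField.adjoin K' {algebraMap L₀ L' t₀} := by
        intro p
        rw [← Polynomial.aeval_algebraMap_apply]
        exact IntermediateField.algebra_adjoin_le_adjoin K' _
          (Polynomial.aeval_mem_adjoin_singleton K' _)
      rw [map_div₀]
      exact div_mem (hp p) (hp q)
    let f : L₀ →+* IntermediateField.adjoin K' {algebraMap L₀ L' t₀} :=
      (algebraMap L₀ L').codRestrict
        (IntermediateField.adjoin K' {algebraMap L₀ L' t₀}).toSubfield hmem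
    exact IsAlgebraic.ringHom_of_comp_eq f (RingHom.id L')
      (Algebra.IsAlgebraic.isAlgebraic (R := L₀) x) f.injective (by ext a; rfl)
  have hom : Om k y' s = Dt s • Om k y' (algebraMap L₀ L' t₀) :=
    om_eq hy' C.leg.tr hs' Dt hDt s
  have hne : Dt s ≠ 0 := by
    intro h0
    rw [hom, h0, zero_smul] at ha
    exact not_isOrd_zero _ _ ha
  rw [hom] at ha
  have h2 := (isOrd_smul v hne).2 (C.ord_dt hy' hv)
  have h3 := IsGreatest.unique h2 ha
  linarith

end ECurve

end Pool.Agent.Helper60.PB
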