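import Pool.Agent.Helper60.PB.G1.EDefs

set_option autoImplicit false

/-!
# G1-05 ETransl: translations of the curve

Let `(b, c)` be a point of the curve over `K'`, `T = TT t y l b c` the abscissa and
`Y = trY l t y b c` the ordinate of the translate by `- (b, c)`; `m = (y + c) / (t - b)`,
`T = m ^ 2 + (1 + l) - t - b`, `Y = - (m (T - t) + y)`.

`T_ne`: `T` is not a constant. PROOF. Suppose `T = a ∈ K'`. Multiply by `(t - b) ^ 2` and expand
(`y ^ 2 = f(t)`): `f(t) + c ^ 2 + 2 c y = (t - b) ^ 2 (t + b + a - 1 - l)`. By `Leg.indep` `2 c = 0`, so `c = 0`, and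
`f(X) = (X - b) ^ 2 (X + b + a - 1 - l)` in `K'[X]`, so `b` is a double root of `f = X (X - 1) (X - l)`,
which has distinct roots (compare the proof of `TT_ne` in G1Val.lean).

`inv`: the slope satisfies `m (T - b) = - (Y - c)`: indeed `Y + m (T - t) + y = 0` and `m (t - b) = y + c`, so
`m (T - b) = m (T - t) + m (t - b) = -Y - y + y + c = c - Y`. So `T ≠ b` (`T` is not a constant),
`m = -(Y - c) / (T - b) = - slope T Y b (-c)`, and so `t = m ^ 2 + (1 + l) - T - b = TT T Y l b (-c)`, and
`y = -(Y + m (T - t)) = -(m' (t - T) + Y)` with `m' = -m`: `y = trY l T Y b (-c)`.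

`leg`: `Y ^ 2 = T (T - 1) (T - l)` is `trY_sq`. `T` is transcendental over `K'`: otherwise `T` and then `Y` (root
of a quadratic equation over `K'(T)`), and `t = TT T Y l b (-c)` are algebraic over `K'`,
contradiction.

`adjoin_eq`: `K'(T, Y) = K'(t, y)` since each side contains the generators of the other one.

`neg`: if `Near t y v (b, c)`, `v` trivial on `K'`, `v t ≥ 0`, then `v T < 0`. PROOF. `v T ≥ 0` would imply
`v m ≥ 0` (`m ^ 2 = T + t + b - 1 - l`). If `c ≠ 0`: `v (y + c) = 0` (`y + c = (y - c) + 2 c`) and `v (t - b) ≥ 1`, so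
`v m < 0`. If `c = 0`: `m ^ 2 = f(t) / (t - b) ^ 2`, `f(b) = 0`, and the other two factors of `f(t)` are units at `v`,
so `2 v m = v (f) - 2 v (t - b) = - v (t - b) < 0`.
-/

namespace Pool.Agent.Helper60.PB

open Pool.Agent.Helper92.Weak Pool.Agent.Helper92.Ga

variable {K' L' : Type*} [Field K'] [Field L'] [Algebra K' L'] {t y : L'} {l : K'}

/-- The ordinate of the translate by `- (b, c)`. -/
def YY (t y : L') (l b c : K') : L' :=
  trY (algebraMap K' L' l) t y (algebraMap K' L' b) (algebraMap K' L' c)

private theorem h45_onE {l b c : K'} (hp : OnE l (b, c)) :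
    (algebraMap K' L' c) ^ 2 = algebraMap K' L' b * (algebraMap K' L' b - 1) *
      (algebraMap K' L' b - algebraMap K' L' l) := by
  have hp' : c ^ 2 = b * (b - 1) * (b - l) := hp
  have h4 := congrArg (algebraMap K' L') hp'
  simpa using h4

/-- a root is a simple root -/
private theorem h45_simple {l b : K'} (l0 : l ≠ 0) (l1 : l ≠ 1) (h14 : b * (b - 1) * (b - l) = 0)
    (h15 : 3 * b ^ 2 - 2 * (1 + l) * b + l = 0) : False := by
  rcases mul_eq_zero.1 h14 with h16 | h16
  · rcases mul_eq_zero.1 h16 with h17 | h17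
    · rw [h17] at h15
      apply l0
      linear_combination h15
    · have h18 : b = 1 := sub_eq_zero.1 h17
      rw [h18] at h15
      apply l1
      linear_combination -h15
  · have h18 : b = l := sub_eq_zero.1 h16
    rw [h18] at h15
    have h19 : l * (l - 1) = 0 := by linear_combination h15
    rcases mul_eq_zero.1 h19 with h20 | h20
    · exact l0 h20
    · exact l1 (sub_eq_zero.1 h20)

private theorem h45_mem (S : IntermediateField K' L') {t y : L'} (ht : t ∈ S) (hy : y ∈ S)
    (l b c : K') : TT t y l b c ∈ S ∧ YY t y l b c ∈ S := by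
  have hs : slope t y (algebraMap K' L' b) (algebraMap K' L' c) ∈ S :=
    S.div_mem (S.add_mem hy (S.algebraMap_mem c)) (S.sub_mem ht (S.algebraMap_mem b))
  have hT : TT t y l b c ∈ S :=
    S.sub_mem (S.sub_mem (S.add_mem (pow_mem hs 2) (S.add_mem S.one_mem (S.algebraMap_mem l))) ht)
      (S.algebraMap_mem b)
  exact ⟨hT, S.neg_mem (S.add_mem (S.mul_mem hs (S.sub_mem hT ht)) hy)⟩

section

variable [CharZero K']

theorem T_ne (h : Leg t y l) {b c : K'} (hp : OnE l (b, c)) (a : K') :
    TT t y l b c ≠ algebraMap K' L' a := by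
  intro hT
  have hb := h.sub_ne b
  unfold TT trT slope at hT
  have h1 : Polynomial.aeval t (Polynomial.X * (Polynomial.X - 1) * (Polynomial.X - Polynomial.C l) +
      Polynomial.C (c ^ 2) + (Polynomial.C (1 + l - b - a) - Polynomial.X) *
        (Polynomial.X - Polynomial.C b) ^ 2 : Polynomial K') +
      Polynomial.aeval t (Polynomial.C (2 * c) : Polynomial K') * y = 0 := by
    simp only [map_mul, map_sub, map_add, map_pow, Polynomial.aeval_C, Polynomial.aeval_X, map_one,
      map_ofNat]
    rw [div_pow] at hT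
    field_simp at hT
    linear_combination hT - h.eq
  obtain ⟨h2, h3⟩ := h.indep _ _ h1
  have h4 : c = 0 := by
    have h5 := Polynomial.C_eq_zero.1 h3
    rcases mul_eq_zero.1 h5 with h6 | h6
    · exact absurd h6 two_ne_zero
    · exact h6
  have hp' : c ^ 2 = b * (b - 1) * (b - l) := hp
  have h13 := congrArg (fun p => Polynomial.eval b (Polynomial.derivative p)) h2
  simp only [Polynomial.derivative_add, Polynomial.derivative_mul, Polynomial.derivative_sub,
    Polynomial.derivative_X, Polynomial.derivative_one, Polynomial.derivative_C,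
    Polynomial.derivative_pow, Polynomial.eval_add, Polynomial.eval_mul, Polynomial.eval_sub,
    Polynomial.eval_X, Polynomial.eval_one, Polynomial.eval_C, Polynomial.eval_pow,
    Polynomial.derivative_zero, Polynomial.eval_zero] at h13
  refine h45_simple (b := b) h.l0 h.l1 (by rw [← hp', h4]; ring) ?_
  simp at h13
  linear_combination h13

theorem TT_inv (h : Leg t y l) {b c : K'} (hp : OnE l (b, c)) :
    TT (TT t y l b c) (YY t y l b c) l b (-c) = t ∧
      YY (TT t y l b c) (YY t y l b c) l b (-c) = y := by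
  have hb := h.sub_ne b
  have hTb : TT t y l b c - algebraMap K' L' b ≠ 0 := sub_ne_zero.2 (T_ne h hp b)
  set m := slope t y (algebraMap K' L' b) (algebraMap K' L' c) with hm
  have hm' : m * (t - algebraMap K' L' b) = y + algebraMap K' L' c := by
    rw [hm, slope]
    field_simp
  have hT : TT t y l b c = m ^ 2 + (1 + algebraMap K' L' l) - t - algebraMap K' L' b := rfl
  have hY : YY t y l b c = -(m * (TT t y l b c - t) + y) := rfl
  have hs : slope (TT t y l b c) (YY t y l b c) (algebraMap K' L' b) (algebraMap K' L' (-c)) =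
      -m := by
    rw [slope, _root_.map_neg, div_eq_iff hTb, hY]
    linear_combination hm'
  have h1 : TT (TT t y l b c) (YY t y l b c) l b (-c) = t := by
    have h2 : TT (TT t y l b c) (YY t y l b c) l b (-c) =
        slope (TT t y l b c) (YY t y l b c) (algebraMap K' L' b) (algebraMap K' L' (-c)) ^ 2 +
          (1 + algebraMap K' L' l) - TT t y l b c - algebraMap K' L' b := rfl
    rw [h2, hs]
    linear_combination -hT
  refine ⟨h1, ?_⟩
  have h2 : YY (TT t y l b c) (YY t y l b c) l b (-c) =
      -(slope (TT t y l b c) (YY t y l b c) (algebraMap K' L' b) (algebraMap K' L' (-c)) *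
        (TT (TT t y l b c) (YY t y l b c) l b (-c) - TT t y l b c) + YY t y l b c) := rfl
  rw [h2, h1, hs]
  linear_combination -hY

theorem leg_translate (h : Leg t y l) {b c : K'} (hp : OnE l (b, c)) :
    Leg (TT t y l b c) (YY t y l b c) l := by
  refine ⟨trY_sq h.eq (h45_onE hp) (h.t_ne b), h.l0, h.l1, fun hT => h.tr ?_⟩
  have h1 : YY t y l b c ^ 2 = TT t y l b c * (TT t y l b c - 1) *
      (TT t y l b c - algebraMap K' L' l) := trY_sq h.eq (h45_onE hp) (h.t_ne b)
  have hT' : TT t y l b c ∈ algebraicClosure K' L' := mem_algebraicClosure_iff.2 hT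
  have hY' : YY t y l b c ∈ algebraicClosure K' L' := by
    rw [mem_algebraicClosure_iff]
    refine IsAlgebraic.of_pow two_pos ?_
    rw [← mem_algebraicClosure_iff, h1]
    exact mul_mem (mul_mem hT' (sub_mem hT' (one_mem _))) (sub_mem hT' (algebraMap_mem _ _))
  have h2 := (h45_mem _ hT' hY' l b (-c)).1
  rw [(TT_inv h hp).1] at h2
  exact mem_algebraicClosure_iff.1 h2

theorem adjoin_translate (h : Leg t y l) {b c : K'} (hp : OnE l (b, c)) :
    IntermediateField.adjoin K' {TT t y l b c, YY t y l b c} =
      IntermediateField.adjoin K' {t, y} := by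
  apply le_antisymm
  · rw [IntermediateField.adjoin_le_iff]
    have ht : t ∈ IntermediateField.adjoin K' {t, y} :=
      IntermediateField.subset_adjoin K' _ (by simp)
    have hy : y ∈ IntermediateField.adjoin K' {t, y} :=
      IntermediateField.subset_adjoin K' _ (by simp)
    obtain ⟨h1, h2⟩ := h45_mem _ ht hy l b c
    rintro x hx
    rcases hx with hx | hx
    · rw [hx]
      exact h1
    · rw [Set.mem_singleton_iff.1 hx]
      exact h2
  · rw [IntermediateField.adjoin_le_iff]
    have ht : TT t y l b c ∈ IntermediateField.adjoin K' {TT t y l b c, YY t y l b c} :=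
      IntermediateField.subset_adjoin K' _ (by simp)
    have hy : YY t y l b c ∈ IntermediateField.adjoin K' {TT t y l b c, YY t y l b c} :=
      IntermediateField.subset_adjoin K' _ (by simp)
    obtain ⟨h1, h2⟩ := h45_mem _ ht hy l b (-c)
    rw [(TT_inv h hp).1] at h1
    rw [(TT_inv h hp).2] at h2
    rintro x hx
    rcases hx with hx | hx
    · rw [hx]
      exact h1
    · rw [Set.mem_singleton_iff.1 hx]
      exact h2

theorem neg_of_near {k : Type*} [Field k] [Algebra k L'] [Algebra k K'] [IsScalarTower k K' L']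
    (h : Leg t y l) {v : DVal k L'}
    (hv : ∀ x : K', v (algebraMap K' L' x) = 0) {b c : K'} (hp : OnE l (b, c))
    (hn : Near t y v (b, c)) : v (TT t y l b c) < 0 := by
  have hc0 : ∀ x : K', v.Ge 0 (algebraMap K' L' x) := fun x => Or.inr (by rw [hv]; norm_num)
  obtain ⟨hn1, hn2⟩ := hn
  change v.Ge 1 (t - algebraMap K' L' b) at hn1
  change v.Ge 1 (y - algebraMap K' L' c) at hn2
  have htb := h.sub_ne b
  have hvb : 1 ≤ v (t - algebraMap K' L' b) := by
    rw [DVal.ge_iff htb] at hn1
    exact_mod_cast hn1
  have ht0 : v.Ge 0 t := by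
    have h1 := (hn1.mono zero_le_one).add (hc0 b)
    rwa [sub_add_cancel] at h1
  -- other points
  have hunit : ∀ a : K', b ≠ a → v (t - algebraMap K' L' a) = 0 := by
    intro a ha
    have h1 : t - algebraMap K' L' a = algebraMap K' L' (b - a) + (t - algebraMap K' L' b) := by
      rw [map_sub]
      ring
    have h2 : algebraMap K' L' (b - a) ≠ 0 := (_root_.map_ne_zero _).2 (sub_ne_zero.2 ha)
    rw [h1, v.map_add_eq_of_lt h2, hv]
    right
    rw [hv]
    omega
  by_contra hneg
  have hT0 : v.Ge 0 (TT t y l b c) := Or.inr (by exact_mod_cast not_lt.1 hneg)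
  set m := slope t y (algebraMap K' L' b) (algebraMap K' L' c) with hm
  have hT : TT t y l b c = m ^ 2 + (1 + algebraMap K' L' l) - t - algebraMap K' L' b := rfl
  have hm2 : v.Ge 0 (m ^ 2) := by
    have h1 : m ^ 2 = TT t y l b c + t + algebraMap K' L' (b - 1 - l) := by
      rw [hT, map_sub, map_sub, map_one]
      ring
    rw [h1]
    exact (hT0.add ht0).add (hc0 _)
  have hyc : y + algebraMap K' L' c ≠ 0 ∧
      2 * v (y + algebraMap K' L' c) < 2 * v (t - algebraMap K' L' b) := by
    by_cases hc : c = 0
    · have hp' : c ^ 2 = b * (b - 1) * (b - l) := hp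
      rw [hc, zero_pow two_ne_zero] at hp'
      rw [hc, _root_.map_zero, add_zero]
      refine ⟨h.y0, ?_⟩
      have h2 := two_v_y (v := v) h
      have h00 : v (t - algebraMap K' L' 0) = v t := by rw [_root_.map_zero, sub_zero]
      have h11 : v (t - algebraMap K' L' 1) = v (t - 1) := by rw [_root_.map_one]
      rcases mul_eq_zero.1 hp'.symm with h3 | h3
      · rcases mul_eq_zero.1 h3 with h4 | h4
        · have e1 := hunit 1 (by rw [h4]; exact zero_ne_one)
          have e2 := hunit l (by rw [h4]; exact h.l0.symm)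
          rw [h4, h00] at hvb ⊢
          rw [h11] at e1
          omega
        · have hb1 : b = 1 := sub_eq_zero.1 h4
          have e1 := hunit 0 (by rw [hb1]; exact one_ne_zero)
          have e2 := hunit l (by rw [hb1]; exact h.l1.symm)
          rw [hb1, h11] at hvb ⊢
          rw [h00] at e1
          omega
      · have hbl : b = l := sub_eq_zero.1 h3
        have e1 := hunit 0 (by rw [hbl]; exact h.l0)
        have e2 := hunit 1 (by rw [hbl]; exact h.l1)
        rw [hbl] at hvb ⊢
        rw [h00] at e1
        rw [h11] at e2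
        omega
    · have h2c : (2 : K') * c ≠ 0 := mul_ne_zero two_ne_zero hc
      have h1 : y + algebraMap K' L' c = algebraMap K' L' (2 * c) + (y - algebraMap K' L' c) := by
        rw [map_mul, map_ofNat]
        ring
      have h2 : algebraMap K' L' (2 * c) ≠ 0 := (_root_.map_ne_zero _).2 h2c
      have h3 : y - algebraMap K' L' c = 0 ∨
          v (algebraMap K' L' (2 * c)) < v (y - algebraMap K' L' c) := by
        rcases hn2 with h4 | h4
        · exact Or.inl h4
        · right
          rw [hv]
          have h5 : (1 : ℤ) ≤ v (y - algebraMap K' L' c) := by exact_mod_cast h4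
          omega
      have h4 := v.add_ne_zero_of_lt h2 h3
      have h5 := v.map_add_eq_of_lt h2 h3
      rw [← h1] at h4 h5
      refine ⟨h4, ?_⟩
      rw [h5, hv]
      omega
  have hm0 : m ≠ 0 := by
    rw [hm, slope]
    exact div_ne_zero hyc.1 htb
  rw [DVal.ge_iff (pow_ne_zero 2 hm0), v.map_pow, hm, slope, v.map_div hyc.1 htb] at hm2
  have h1 : (0 : ℤ) ≤ ((2 : ℕ) : ℤ) * (v (y + algebraMap K' L' c) - v (t - algebraMap K' L' b)) := by
    exact_mod_cast hm2
  have h2 := hyc.2
  push_cast at h1
  omega

end

end Pool.Agent.Helper60.PB
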