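import Pool.Agent.Helper60.PB.G1.ValTab
import Pool.Agent.Helper60.PB.G1.ETrace

set_option autoImplicit false

/-!
# G1-03 EUniq: uniqueness of the places at a point and at the origin

`exists_res`: the residue field of `w = pVal (X - C b)` on `L₀ = K'(t₀)` is `K'`: for `h ∈ L₀` with `w h ≥ 0`
there is `h₀ ∈ K'` with `w (h - h₀) ≥ 1`. PROOF. `h = a(t₀) / q(t₀)`, `X - C b` does not divide `q`
(`mem_pVal_ring`); `h₀ = a(b) / q(b)`, and `q(b) a - a(b) q` is divisible by `X - C b`.

`near_unique`. PROOF. It suffices that `v z = v' z` for all `z ≠ 0`, `z = A + B y` (`C.gen`). Case `c ≠ 0`: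
`y ≡ c`, so `v y = 0 = v' y`, and by `val_near` `v` and `v'` both lie over `w = pVal (X - C b)` with ramification
one. If `B = 0` both values are `w A`. Otherwise `h = -A / B`, `z = B (y - h)`. If `h ≠ 0` and `w h < 0`, both
`v (y - h)` and `v' (y - h)` are `w h`. Otherwise let `h₀` be as in `exists_res`;
`y - h = (y - c) - (h - h₀) + (c - h₀)`: if `h₀ ≠ c` both values of `y - h` are zero. If `h₀ = c`:
`y + h = (y - c) + (h - h₀) + 2 c` has value zero at both, and `(y - h) (y + h) = f - h ^ 2 ∈ L₀` (nonzero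
by `eq_zero`) has value `w (f - h ^ 2)` at both.
Case `c = 0`: `v y ≥ 1`, so by `val_near` `v` lies over `w` with ramification two, `v y = 1`;
`v A = 2 w A` is even and `v (B y) = 2 w B + 1` is odd, so `v z` is the minimum (of those of
`A`, `B y` which are nonzero); the same for `v'`.

`inf_unique`: the same with `infVal`, ramification two and `v y = -3` (`val_inf`).

`Near` is only possible if `v t ≥ 0` (`v (t - b) ≥ 1`, `v b = 0`).
-/

namespace Pool.Agent.Helper60.PB

open Pool.Agent.Helper92.Weak Pool.Agent.Helper92.Ga Pool.Agent.Helper63.PB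

variable {k K' L₀ L' : Type*} [Field k] [Field K'] [Field L₀] [Field L'] [Algebra k K']
  [Algebra k L₀] [Algebra k L'] [Algebra K' L₀] [Algebra K' L'] [Algebra L₀ L']
  [IsScalarTower k K' L₀] [IsScalarTower k K' L'] [IsScalarTower k L₀ L']
  [IsScalarTower K' L₀ L'] [CharZero k] {t₀ : L₀} {y : L'} {l : K'}

omit [IsScalarTower k K' L'] [IsScalarTower k L₀ L'] [IsScalarTower K' L₀ L'] [CharZero k]
  [Algebra k L'] [Algebra K' L'] [Algebra L₀ L'] [Field L'] in
theorem exists_res (h : IsLine K' t₀) (b : K') {g : L₀}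
    (hg : 0 ≤ pVal k h (Polynomial.X - Polynomial.C b) (Polynomial.prime_X_sub_C b) g) :
    ∃ g₀ : K', (pVal k h (Polynomial.X - Polynomial.C b) (Polynomial.prime_X_sub_C b)).Ge 1
      (g - algebraMap K' L₀ g₀) := by
  have hp := Polynomial.prime_X_sub_C b
  set w := pVal k h (Polynomial.X - Polynomial.C b) (Polynomial.prime_X_sub_C b) with hw
  have hg' : g ∈ w.ring := hg
  rw [hw, mem_pVal_ring] at hg'
  obtain ⟨a, q, hq, hgq⟩ := hg'
  have hqb : q.eval b ≠ 0 := fun h0 => hq (Polynomial.dvd_iff_isRoot.2 h0)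
  refine ⟨a.eval b / q.eval b, ?_⟩
  have hq0 : q ≠ 0 := fun h0 => hq (h0 ▸ dvd_zero _)
  have hqt : Polynomial.aeval t₀ q ≠ 0 := h.aeval_ne hq0
  have hqb' : algebraMap K' L₀ (q.eval b) ≠ 0 := (_root_.map_ne_zero _).2 hqb
  set N : Polynomial K' := Polynomial.C (q.eval b) * a - Polynomial.C (a.eval b) * q with hN
  have h1 : g - algebraMap K' L₀ (a.eval b / q.eval b) =
      Polynomial.aeval t₀ N / (algebraMap K' L₀ (q.eval b) * Polynomial.aeval t₀ q) := by
    rw [hgq, hN, map_div₀, map_sub, map_mul, map_mul, Polynomial.aeval_C, Polynomial.aeval_C]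
    field_simp
  rw [h1]
  by_cases hN0 : N = 0
  · left
    rw [hN0, map_zero, zero_div]
  · have hNt : Polynomial.aeval t₀ N ≠ 0 := h.aeval_ne hN0
    have hdvd : (Polynomial.X - Polynomial.C b) ∣ N := by
      rw [Polynomial.dvd_iff_isRoot, Polynomial.IsRoot.def, hN, Polynomial.eval_sub,
        Polynomial.eval_mul, Polynomial.eval_mul, Polynomial.eval_C, Polynomial.eval_C]
      ring
    have h2 := (pVal_pos_iff k h hp hN0).2 hdvd
    have h3 := pVal_eq_zero k h hp hq
    right
    rw [w.map_div hNt (mul_ne_zero hqb' hqt), w.map_mul hqb' hqt, hw, h3, pVal_algebraMap]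
    have h4 : (1 : ℤ) ≤ pVal k h (Polynomial.X - Polynomial.C b) hp (Polynomial.aeval t₀ N) := h2
    push_cast
    have h5 : ((1 : ℤ) : ℚ) ≤
      ((pVal k h (Polynomial.X - Polynomial.C b) hp (Polynomial.aeval t₀ N) : ℤ) : ℚ) := by
      exact_mod_cast h4
    simpa using h5

namespace ECurve

omit [CharZero k] [IsScalarTower k K' L'] [IsScalarTower k L₀ L'] in
/-- the values at a place which is ramified over `w` -/
private theorem h45_ram2 (C : ECurve t₀ y l) (w : DVal k L₀) {m : ℤ} (hm : m % 2 = 1) (z : L') :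
    ∃ n : ℤ, ∀ v : DVal k L', LiesOver v w 2 → v y = m → v z = n := by
  obtain ⟨A, B, hz⟩ := C.gen z
  have hy0 := C.leg.y0
  have hinj := (algebraMap L₀ L').injective
  by_cases hA : A = 0
  · by_cases hB : B = 0
    · refine ⟨0, fun v _ _ => ?_⟩
      rw [hz, hA, hB]
      simp
    · refine ⟨2 * w B + m, fun v hv hy => ?_⟩
      have hB' : algebraMap L₀ L' B ≠ 0 := (_root_.map_ne_zero _).2 hB
      rw [hz, hA, _root_.map_zero, zero_add, v.map_mul hB' hy0, hv.2, hy]
      push_cast
      ring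
  · have hA' : algebraMap L₀ L' A ≠ 0 := (_root_.map_ne_zero _).2 hA
    by_cases hB : B = 0
    · refine ⟨2 * w A, fun v hv _ => ?_⟩
      rw [hz, hB, _root_.map_zero, zero_mul, add_zero, hv.2]
      push_cast
      ring
    · have hB' : algebraMap L₀ L' B ≠ 0 := (_root_.map_ne_zero _).2 hB
      by_cases hlt : 2 * w A < 2 * w B + m
      · refine ⟨2 * w A, fun v hv hy => ?_⟩
        have h1 : v (algebraMap L₀ L' A) = 2 * w A := by
          rw [hv.2]
          push_cast
          ring
        have h2 : v (algebraMap L₀ L' B * y) = 2 * w B + m := by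
          rw [v.map_mul hB' hy0, hv.2, hy]
          push_cast
          ring
        rw [hz, v.map_add_eq_of_lt hA' (Or.inr (by rw [h1, h2]; exact hlt)), h1]
      · refine ⟨2 * w B + m, fun v hv hy => ?_⟩
        have h1 : v (algebraMap L₀ L' A) = 2 * w A := by
          rw [hv.2]
          push_cast
          ring
        have h2 : v (algebraMap L₀ L' B * y) = 2 * w B + m := by
          rw [v.map_mul hB' hy0, hv.2, hy]
          push_cast
          ring
        rw [hz, add_comm, v.map_add_eq_of_lt (mul_ne_zero hB' hy0)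
          (Or.inr (by rw [h1, h2]; omega)), h2]

omit [CharZero k] [IsScalarTower k K' L'] [IsScalarTower k L₀ L'] in
/-- the values at a place which is unramified over a rational place -/
private theorem h45_ram1 [CharZero K'] (C : ECurve t₀ y l) (b : K') {c : K'} (hc : c ≠ 0)
    (z : L') :
    ∃ n : ℤ, ∀ v : DVal k L', LiesOver v (pVal k C.line (Polynomial.X - Polynomial.C b)
        (Polynomial.prime_X_sub_C b)) 1 → v.Ge 1 (y - algebraMap K' L' c) → v z = n := by
  obtain ⟨A, B, hz⟩ := C.gen z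
  have hy0 := C.leg.y0
  set w := pVal k C.line (Polynomial.X - Polynomial.C b) (Polynomial.prime_X_sub_C b) with hw
  have hover : ∀ v : DVal k L', LiesOver v w 1 → ∀ x : L₀, v (algebraMap L₀ L' x) = w x := by
    intro v hv x
    rw [hv.2]
    push_cast
    ring
  have htriv : ∀ v : DVal k L', LiesOver v w 1 → ∀ x : K', v (algebraMap K' L' x) = 0 := by
    intro v hv x
    rw [IsScalarTower.algebraMap_apply K' L₀ L', hover v hv, hw, pVal_algebraMap]
  -- a nonzero constant plus something of positive value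
  have hunit : ∀ v : DVal k L', LiesOver v w 1 → ∀ x : K', x ≠ 0 → ∀ e : L', v.Ge 1 e →
      v (algebraMap K' L' x + e) = 0 := by
    intro v hv x hx e he
    have h1 : algebraMap K' L' x ≠ 0 := (_root_.map_ne_zero _).2 hx
    rw [v.map_add_eq_of_lt h1, htriv v hv]
    rcases he with he | he
    · exact Or.inl he
    · right
      rw [htriv v hv]
      have h2 : (1 : ℤ) ≤ v e := by exact_mod_cast he
      omega
  have hy : ∀ v : DVal k L', LiesOver v w 1 → v.Ge 1 (y - algebraMap K' L' c) → v y = 0 := by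
    intro v hv h1
    have h2 := hunit v hv c hc _ h1
    rwa [add_sub_cancel] at h2
  by_cases hB : B = 0
  · refine ⟨w A, fun v hv _ => ?_⟩
    rw [hz, hB, _root_.map_zero, zero_mul, add_zero, hover v hv]
  have hB' : algebraMap L₀ L' B ≠ 0 := (_root_.map_ne_zero _).2 hB
  set g : L₀ := -A / B with hg
  have hzg : z = algebraMap L₀ L' B * (y - algebraMap L₀ L' g) := by
    rw [hz, hg, map_div₀, _root_.map_neg]
    field_simp
    ring
  have hyg : ∀ s : L₀, y + algebraMap L₀ L' s ≠ 0 := by
    intro s h0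
    have h1 : algebraMap L₀ L' s + algebraMap L₀ L' 1 * y = 0 := by
      rw [_root_.map_one, one_mul, add_comm, h0]
    exact one_ne_zero (C.eq_zero h1).2
  have hyg' : y - algebraMap L₀ L' g ≠ 0 := by
    have h1 := hyg (-g)
    rwa [_root_.map_neg, ← sub_eq_add_neg] at h1
  -- it is enough to treat `y - g`
  suffices hs : ∃ n : ℤ, ∀ v : DVal k L', LiesOver v w 1 → v.Ge 1 (y - algebraMap K' L' c) →
      v (y - algebraMap L₀ L' g) = n by
    obtain ⟨n, hn⟩ := hs
    refine ⟨w B + n, fun v hv h1 => ?_⟩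
    rw [hzg, v.map_mul hB' hyg', hover v hv, hn v hv h1]
  by_cases hg0 : g = 0
  · refine ⟨0, fun v hv h1 => ?_⟩
    rw [hg0, _root_.map_zero, sub_zero, hy v hv h1]
  have hg0' : algebraMap L₀ L' g ≠ 0 := (_root_.map_ne_zero _).2 hg0
  by_cases hwg : w g < 0
  · refine ⟨w g, fun v hv h1 => ?_⟩
    have h2 : y - algebraMap L₀ L' g = -algebraMap L₀ L' g + y := by ring
    rw [h2, v.map_add_eq_of_lt (neg_ne_zero.2 hg0'), v.map_neg, hover v hv]
    right
    rw [v.map_neg, hover v hv, hy v hv h1]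
    exact hwg
  obtain ⟨g₀, hg₀⟩ := exists_res (k := k) C.line b (not_lt.1 hwg)
  have hgv : ∀ v : DVal k L', LiesOver v w 1 →
      v.Ge 1 (algebraMap L₀ L' g - algebraMap K' L' g₀) := by
    intro v hv
    rcases hg₀ with h1 | h1
    · left
      rw [IsScalarTower.algebraMap_apply K' L₀ L', ← map_sub, h1, _root_.map_zero]
    · right
      rw [IsScalarTower.algebraMap_apply K' L₀ L', ← map_sub, hover v hv]
      exact h1
  by_cases hgc : g₀ = c
  · refine ⟨w (t₀ * (t₀ - 1) * (t₀ - algebraMap K' L₀ l) - g ^ 2), fun v hv h1 => ?_⟩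
    have h2 : v (y + algebraMap L₀ L' g) = 0 := by
      have h3 := hunit v hv (2 * c) (mul_ne_zero two_ne_zero hc) _ (h1.add (hgv v hv))
      rw [hgc, map_mul, map_ofNat] at h3
      have h4 : 2 * algebraMap K' L' c + (y - algebraMap K' L' c +
          (algebraMap L₀ L' g - algebraMap K' L' c)) = y + algebraMap L₀ L' g := by ring
      rwa [h4] at h3
    have h3 : (y - algebraMap L₀ L' g) * (y + algebraMap L₀ L' g) =
        algebraMap L₀ L' (t₀ * (t₀ - 1) * (t₀ - algebraMap K' L₀ l) - g ^ 2) := by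
      rw [map_sub, map_mul, map_mul, map_sub, map_sub, map_one, map_pow,
        ← IsScalarTower.algebraMap_apply K' L₀ L']
      linear_combination C.leg.eq
    have h4 := congrArg v h3
    rw [v.map_mul hyg' (hyg g), h2, hover v hv, add_zero] at h4
    exact h4
  · refine ⟨0, fun v hv h1 => ?_⟩
    have h3 := hunit v hv (c - g₀) (sub_ne_zero.2 (Ne.symm hgc)) _ (h1.sub (hgv v hv))
    have h4 : algebraMap K' L' (c - g₀) + (y - algebraMap K' L' c -
        (algebraMap L₀ L' g - algebraMap K' L' g₀)) = y - algebraMap L₀ L' g := by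
      rw [map_sub]
      ring
    rwa [h4] at h3

theorem near_nonneg (C : ECurve t₀ y l) {v : DVal k L'} (hv : ∀ x : K', v (algebraMap K' L' x) = 0)
    {p : K' × K'} (h : Near (algebraMap L₀ L' t₀) y v p) : 0 ≤ v (algebraMap L₀ L' t₀) := by
  have h1 : v.Ge 0 (algebraMap L₀ L' t₀) := by
    have h2 : v.Ge 1 (algebraMap L₀ L' t₀ - algebraMap K' L' p.1) := h.1
    have h3 : v.Ge 0 (algebraMap K' L' p.1) := Or.inr (by rw [hv]; norm_num)
    have h4 := (h2.mono zero_le_one).add h3
    rwa [sub_add_cancel] at h4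
  rcases h1 with h1 | h1
  · rw [h1, v.map_zero]
  · exact_mod_cast h1

theorem near_unique (C : ECurve t₀ y l) {v v' : DVal k L'}
    (hv : ∀ x : K', v (algebraMap K' L' x) = 0) (hv' : ∀ x : K', v' (algebraMap K' L' x) = 0)
    {p : K' × K'} (h : Near (algebraMap L₀ L' t₀) y v p)
    (h' : Near (algebraMap L₀ L' t₀) y v' p) : v = v' := by
  have hcz : CharZero K' := charZero_of_injective_algebraMap (algebraMap k K').injective
  obtain ⟨b, c⟩ := p
  have key : ∀ v : DVal k L', (∀ x : K', v (algebraMap K' L' x) = 0) →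
      Near (algebraMap L₀ L' t₀) y v (b, c) →
      (c ≠ 0 → LiesOver v (pVal k C.line (Polynomial.X - Polynomial.C b)
        (Polynomial.prime_X_sub_C b)) 1) ∧
      (c = 0 → LiesOver v (pVal k C.line (Polynomial.X - Polynomial.C b)
        (Polynomial.prime_X_sub_C b)) 2 ∧ v y = 1) := by
    intro v hv h
    have h1 := C.val_near hv (C.near_nonneg hv h) h.1
    have h2 : v.Ge 1 (y - algebraMap K' L' c) := h.2
    refine ⟨fun hc => (h1.1 ?_).1, fun hc => ?_⟩
    · have hc' : algebraMap K' L' c ≠ 0 := (_root_.map_ne_zero _).2 hc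
      have h3 : v (algebraMap K' L' c + (y - algebraMap K' L' c)) = v (algebraMap K' L' c) := by
        apply v.map_add_eq_of_lt hc'
        rcases h2 with h4 | h4
        · exact Or.inl h4
        · right
          rw [hv]
          have h5 : (1 : ℤ) ≤ v (y - algebraMap K' L' c) := by exact_mod_cast h4
          omega
      rwa [add_sub_cancel, hv] at h3
    · rw [hc, _root_.map_zero, sub_zero, DVal.ge_iff C.leg.y0] at h2
      have h3 : (1 : ℤ) ≤ v y := by exact_mod_cast h2
      have h4 := h1.2 (by omega)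
      exact ⟨h4.1, h4.2.2.1⟩
  refine DVal.ext fun z => ?_
  by_cases hc : c = 0
  · obtain ⟨n, hn⟩ := h45_ram2 C (pVal k C.line (Polynomial.X - Polynomial.C b)
        (Polynomial.prime_X_sub_C b)) (m := 1) (by norm_num) z
    obtain ⟨h1, h2⟩ := (key v hv h).2 hc
    obtain ⟨h3, h4⟩ := (key v' hv' h').2 hc
    rw [hn v h1 h2, hn v' h3 h4]
  · obtain ⟨n, hn⟩ := h45_ram1 (k := k) C b hc z
    rw [hn v ((key v hv h).1 hc) h.2, hn v' ((key v' hv' h').1 hc) h'.2]

theorem inf_unique (C : ECurve t₀ y l) {v v' : DVal k L'}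
    (hv : ∀ x : K', v (algebraMap K' L' x) = 0) (hv' : ∀ x : K', v' (algebraMap K' L' x) = 0)
    (h : v (algebraMap L₀ L' t₀) < 0) (h' : v' (algebraMap L₀ L' t₀) < 0) : v = v' := by
  refine DVal.ext fun z => ?_
  obtain ⟨n, hn⟩ := h45_ram2 C (infVal k C.line) (m := -3) (by norm_num) z
  obtain ⟨h1, -, h2⟩ := C.val_inf hv h
  obtain ⟨h3, -, h4⟩ := C.val_inf hv' h'
  rw [hn v h1 h2, hn v' h3 h4]

end ECurve

end Pool.Agent.Helper60.PB
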