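import Pool.Agent.Helper60.PB.G1.ETrace

set_option autoImplicit false

/-!
# G1-17 PushE: extension of constants of the function field of a curve of genus one

`L' = K'(t, y)`, `L'' = K''(t, y)`, `K'' / K'` finite. Then `L'' = L' ⊗ K''`.

PROOF. It suffices (`Algebra.IsPushout.symm`) that `IsPushout K' L' K'' L''`, i.e. that `K'' → L''` is a base
change to `L'`: a basis `e` of `K'' / K'` is mapped to a basis of `L'' / L'` (`isBaseChange_of_basis`).
Linear independence: let `∑ c_i e_i = 0`, `c_i ∈ L'`, not all zero. By `ecurve_of_adjoin` and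
`IsLine.exists_div` (common denominator) there is `q ≠ 0` in `K'[X]` with
`q(t) c_i = a_i(t) + b_i(t) y`, `a_i, b_i ∈ K'[X]`. So in `L''`:
`aeval t (∑ C e_i * a_i) + aeval t (∑ C e_i * b_i) * y = 0` and `Leg.indep` over `K''` gives
`∑ C e_i * a_i = 0`, and for each coefficient `j`: `∑ e_i (a_i)_j = 0`, so `(a_i)_j = 0` by the linear
independence of `e` over `K'`; the same for `b_i`. So `c_i = 0`.
Generation: the `L'`-span `M` of the `e_i` is a subalgebra of `L''` (`e_i e_j` is a `K'`-combination of the
`e_l`) of finite dimension over `L'`, so a field (a domain which is finite over a field); it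
contains `K''`, `t` and `y`, so it is everything by `hg''` (as an intermediate field of `L'' / K''`).
-/

namespace Pool.Agent.Helper60.PB

open Pool.Agent.Helper92.Ga

theorem isBaseChange_of_basis {R S M N ι : Type*} [CommRing R] [CommRing S] [Algebra R S]
    [AddCommGroup M] [Module R M] [AddCommGroup N] [Module R N] [Module S N] [IsScalarTower R S N]
    (b : Module.Basis ι R M) (c : Module.Basis ι S N) (f : M →ₗ[R] N) (h : ∀ i, f (b i) = c i) :
    IsBaseChange S f := by
  let e : TensorProduct R S M ≃ₗ[S] N :=
    (Algebra.TensorProduct.basis S b).equiv c (Equiv.refl ι)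
  have he : ∀ i, e (1 ⊗ₜ[R] b i) = c i := by
    intro i
    have h1 := (Algebra.TensorProduct.basis S b).equiv_apply i c (Equiv.refl ι)
    rw [Algebra.TensorProduct.basis_apply] at h1
    exact h1
  let g : M →ₗ[R] N := (e.toLinearMap.restrictScalars R).comp (TensorProduct.mk R S M 1)
  have hgf : g = f := b.ext fun i => (he i).trans (h i).symm
  exact IsBaseChange.of_equiv e fun x => LinearMap.congr_fun hgf x

open Polynomial in
private theorem exists_mul_poly {K' L' : Type*} [Field K'] [Field L'] [Algebra K' L'] {t y : L'}
    {l : K'} (h : Leg t y l) (hg : IntermediateField.adjoin K' {t, y} = ⊤) (z : L') :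
    ∃ q a b : K'[X], q ≠ 0 ∧ aeval t q * z = aeval t a + aeval t b * y := by
  have C := ecurve_of_adjoin h hg
  obtain ⟨a, b, hz⟩ := C.gen z
  obtain ⟨p, q, hq, ha⟩ := C.line.exists_div a
  obtain ⟨r, s, hs, hb⟩ := C.line.exists_div b
  have key : ∀ f : K'[X], algebraMap (IntermediateField.adjoin K' {t}) L'
      (aeval (⟨t, IntermediateField.mem_adjoin_simple_self K' t⟩ :
        IntermediateField.adjoin K' {t}) f) = aeval t f := fun f =>
    (aeval_algebraMap_apply L' _ f).symm
  have hne : ∀ f : K'[X], f ≠ 0 → aeval t f ≠ 0 := fun f hf h0 =>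
    hf ((transcendental_iff_injective.1 h.tr) (by rw [h0, map_zero]))
  have hq' := hne q hq
  have hs' := hne s hs
  refine ⟨q * s, p * s, r * q, mul_ne_zero hq hs, ?_⟩
  rw [hz, ha, hb, map_div₀, map_div₀, key, key, key, key, map_mul, map_mul, map_mul]
  field_simp

open Polynomial in
private theorem exists_common {K' L' : Type*} [Field K'] [Field L'] [Algebra K' L'] {t y : L'}
    {l : K'} (h : Leg t y l) (hg : IntermediateField.adjoin K' {t, y} = ⊤) {ι : Type*} [Fintype ι]
    (g : ι → L') :
    ∃ (q : K'[X]) (a b : ι → K'[X]), q ≠ 0 ∧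
      ∀ i, aeval t q * g i = aeval t (a i) + aeval t (b i) * y := by
  classical
  choose q a b hq hab using fun i => exists_mul_poly h hg (g i)
  refine ⟨∏ i, q i, fun i => (∏ j ∈ Finset.univ.erase i, q j) * a i,
    fun i => (∏ j ∈ Finset.univ.erase i, q j) * b i, Finset.prod_ne_zero_iff.2 fun i _ => hq i, ?_⟩
  intro i
  rw [← Finset.mul_prod_erase Finset.univ q (Finset.mem_univ i), map_mul, map_mul, map_mul]
  linear_combination (aeval t (∏ j ∈ Finset.univ.erase i, q j)) * hab i

open Polynomial in
theorem pushout_leg {K' K'' L' L'' : Type*} [Field K'] [Field K''] [Field L'] [Field L'']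
    [Algebra K' K''] [Algebra K' L'] [Algebra K' L''] [Algebra K'' L''] [Algebra L' L'']
    [IsScalarTower K' K'' L''] [IsScalarTower K' L' L''] [FiniteDimensional K' K''] {t y : L'}
    {l : K'} (h : Leg t y l) (hg : IntermediateField.adjoin K' {t, y} = ⊤)
    (h'' : Leg (algebraMap L' L'' t) (algebraMap L' L'' y) (algebraMap K' K'' l))
    (hg'' : IntermediateField.adjoin K'' {algebraMap L' L'' t, algebraMap L' L'' y} = ⊤) :
    Algebra.IsPushout K' K'' L' L'' := by
  apply Algebra.IsPushout.symm
  let e := Module.finBasis K' K''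
  have hmap : ∀ f : K'[X], algebraMap L' L'' (aeval t f) =
      aeval (algebraMap L' L'' t) (f.map (algebraMap K' K'')) := by
    intro f
    rw [aeval_map_algebraMap, aeval_algebraMap_apply]
  have hli : LinearIndependent L' (fun i => algebraMap K'' L'' (e i)) := by
    rw [Fintype.linearIndependent_iff]
    intro g hg0 i
    obtain ⟨q, a, b, hq, hab⟩ := exists_common h hg g
    have hq' : aeval t q ≠ 0 := fun h0 =>
      hq ((transcendental_iff_injective.1 h.tr) (by rw [h0, map_zero]))
    have h1 := h''.indep (∑ i, C (e i) * (a i).map (algebraMap K' K''))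
      (∑ i, C (e i) * (b i).map (algebraMap K' K'')) (by
        rw [map_sum, map_sum, Finset.sum_mul, ← Finset.sum_add_distrib]
        have h2 : ∀ i, aeval (algebraMap L' L'' t) (C (e i) * (a i).map (algebraMap K' K'')) +
            aeval (algebraMap L' L'' t) (C (e i) * (b i).map (algebraMap K' K'')) *
              algebraMap L' L'' y =
            algebraMap L' L'' (aeval t q) * (g i • algebraMap K'' L'' (e i)) := by
          intro i
          rw [map_mul, map_mul, ← hmap, ← hmap, aeval_C, Algebra.smul_def]
          have h3 := congrArg (algebraMap L' L'') (hab i)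
          rw [map_add, map_mul, map_mul] at h3
          linear_combination -(algebraMap K'' L'' (e i)) * h3
        rw [Finset.sum_congr rfl fun i _ => h2 i, ← Finset.mul_sum, hg0, mul_zero])
    have hco : ∀ f : Fin (Module.finrank K' K'') → K'[X],
        ∑ i, C (e i) * (f i).map (algebraMap K' K'') = 0 → ∀ i, f i = 0 := by
      intro f hf i
      ext j
      rw [coeff_zero]
      have h2 := congrArg (fun p => coeff p j) hf
      simp only [finsetSum_coeff, coeff_C_mul, coeff_map, coeff_zero] at h2
      refine Fintype.linearIndependent_iff.1 e.linearIndependent (fun i => (f i).coeff j) ?_ i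
      rw [← h2]
      exact Finset.sum_congr rfl fun i _ => by rw [Algebra.smul_def, mul_comm]
    have ha := hco a h1.1 i
    have hb := hco b h1.2 i
    have h3 := hab i
    rw [ha, hb, map_zero, zero_mul, add_zero] at h3
    exact (mul_eq_zero.1 h3).resolve_left hq'
  have hE : ∀ x : K'', algebraMap K'' L'' x ∈
      Submodule.span L' (Set.range fun i => algebraMap K'' L'' (e i)) := by
    intro x
    rw [← e.sum_repr x, map_sum]
    refine Submodule.sum_mem _ fun i _ => ?_
    rw [Algebra.smul_def, map_mul, ← IsScalarTower.algebraMap_apply,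
      IsScalarTower.algebraMap_apply K' L' L'', ← Algebra.smul_def]
    exact Submodule.smul_mem _ _ (Submodule.subset_span ⟨i, rfl⟩)
  have hsp : ⊤ ≤ Submodule.span L' (Set.range fun i => algebraMap K'' L'' (e i)) := by
    let F : IntermediateField L' L'' :=
      IntermediateField.adjoin L' (Set.range (algebraMap K'' L''))
    let F' : IntermediateField K'' L'' :=
      { F.toSubfield with
        algebraMap_mem' := fun x => IntermediateField.subset_adjoin L' _ ⟨x, rfl⟩ }
    have hF' : F' = ⊤ := by
      rw [eq_top_iff, ← hg'', IntermediateField.adjoin_le_iff]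
      rintro z (rfl | rfl)
      · exact F.algebraMap_mem t
      · exact F.algebraMap_mem y
    intro z _
    have hz : z ∈ F' := by rw [hF']; trivial
    have hz1 : z ∈ F.toSubalgebra := hz
    have halg : ∀ x ∈ Set.range (algebraMap K'' L''), IsAlgebraic L' x := by
      rintro _ ⟨x, rfl⟩
      have h1 : IsAlgebraic K' x := Algebra.IsAlgebraic.isAlgebraic x
      have h2 : IsAlgebraic K' (algebraMap K'' L'' x) := h1.algebraMap
      exact h2.tower_top L'
    rw [IntermediateField.adjoin_toSubalgebra_of_isAlgebraic halg] at hz1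
    have hz2 : z ∈ Subalgebra.toSubmodule (Algebra.adjoin L' (Set.range (algebraMap K'' L''))) :=
      hz1
    rw [Algebra.adjoin_eq_span] at hz2
    have hcl : ((Submonoid.closure (Set.range (algebraMap K'' L'')) : Submonoid L'') : Set L'') ⊆
        Set.range (algebraMap K'' L'') := by
      have : Submonoid.closure (Set.range (algebraMap K'' L'')) ≤
          MonoidHom.mrange (algebraMap K'' L'' : K'' →* L'') := by
        rw [Submonoid.closure_le]
        rintro _ ⟨x, rfl⟩
        exact ⟨x, rfl⟩
      intro z hz
      obtain ⟨x, hx⟩ := this hz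
      exact ⟨x, hx⟩
    refine Submodule.span_le.2 ?_ hz2
    intro w hw
    obtain ⟨x, rfl⟩ := hcl hw
    exact hE x
  let c : Module.Basis (Fin (Module.finrank K' K'')) L' L'' := Module.Basis.mk hli hsp
  refine ⟨isBaseChange_of_basis e c _ fun i => ?_⟩
  rw [Module.Basis.mk_apply]
  rfl

end Pool.Agent.Helper60.PB
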