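import Pool.Agent.Helper60.PB.G1.NearE
import Pool.Agent.Helper60.PB.G1.PushE
import Mathlib.FieldTheory.IsAlgClosed.AlgebraicClosure

set_option autoImplicit false
set_option linter.unusedSectionVars false

/-!
# G1-18 EnlargeE: enlarging `K'`

After a finite extension of `K'` all places over the horizontal boundary are places at rational
points or at the origin.
-/

namespace Pool.Agent.Helper60.PB

open Pool.Agent.Helper92.Weak Pool.Agent.Helper92.Ga Pool.Agent.Helper63.PB
open Polynomial

universe v

theorem enlarge_e {k K L K' : Type*} {L' : Type v} [Field k] [Field K] [Field L] [Field K']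
    [Field L'] [Algebra k K] [Algebra k L] [Algebra k K'] [Algebra k L'] [Algebra K L]
    [Algebra K K'] [Algebra K L'] [Algebra L L'] [Algebra K' L'] [IsScalarTower k K L]
    [IsScalarTower k K K'] [IsScalarTower k K L'] [IsScalarTower k L L'] [IsScalarTower k K' L']
    [IsScalarTower K L L'] [IsScalarTower K K' L'] [FiniteDimensional K K']
    [FiniteDimensional L L'] [Algebra.IsPushout K K' L L'] [CharZero k] {X : ProjVar k L}
    {t y : L'} {l : K'} (h : Leg t y l) (hg : IntermediateField.adjoin K' {t, y} = ⊤)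
    (Δ : X.Div) {R : Prop}
    (H : ∀ (K'' L'' : Type v) [Field K''] [Field L''] [Algebra k K''] [Algebra k L'']
      [Algebra K K''] [Algebra K L''] [Algebra L L''] [Algebra L' L''] [Algebra K' K'']
      [Algebra K'' L''] [IsScalarTower k K K''] [IsScalarTower k K L'']
      [IsScalarTower k L L''] [IsScalarTower k K'' L''] [IsScalarTower k L' L'']
      [IsScalarTower K L L''] [IsScalarTower K K'' L''] [IsScalarTower L L' L'']
      [FiniteDimensional K K''] [FiniteDimensional L L''] [FiniteDimensional L' L'']
      [Algebra.IsPushout K K'' L L''],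
      Leg (algebraMap L' L'' t) (algebraMap L' L'' y) (algebraMap K' K'' l) →
      IntermediateField.adjoin K'' {algebraMap L' L'' t, algebraMap L' L'' y} = ⊤ →
      (∀ P : X.primeDivisors, (∀ x : K, P.1 (algebraMap K L x) = 0) → Δ P ≠ 0 →
        ∀ (w : DVal k L'') (ε : ℕ), LiesOver w P.1 ε → w (algebraMap L' L'' t) < 0 ∨
          ∃ x : K'' × K'', Near (algebraMap L' L'' t) (algebraMap L' L'' y) w x) → R) : R := by
  classical
  -- the polynomial
  have i0 : IsScalarTower k (IntermediateField.adjoin K' {t}) L' :=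
    IsScalarTower.of_algebraMap_eq fun _ => rfl
  have hC := ecurve_of_adjoin h hg
  obtain ⟨f, hf, hPf⟩ : ∃ f : K'[X], f ≠ 0 ∧
      ∀ P : X.primeDivisors, (∀ x : K, P.1 (algebraMap K L x) = 0) → Δ P ≠ 0 →
        ∀ (v : DVal k L') (ε : ℕ), LiesOver v P.1 ε → 0 ≤ v t → 0 < v (aeval t f) := by
    have hfin : {v : DVal k L' | ∃ P : X.primeDivisors, (∀ x : K, P.1 (algebraMap K L x) = 0) ∧
        Δ P ≠ 0 ∧ ∃ ε, LiesOver v P.1 ε}.Finite := by
      have h1 : (⋃ P ∈ Δ.support, {v : DVal k L' | ∃ ε, LiesOver v P.1 ε}).Finite :=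
        Δ.support.finite_toSet.biUnion fun P _ => finite_above P.1
      refine h1.subset ?_
      rintro v ⟨P, -, hP, ε, hv⟩
      rw [Set.mem_iUnion₂]
      exact ⟨P, Finsupp.mem_support_iff.2 hP, ε, hv⟩
    obtain ⟨f, hf, hfT⟩ := hC.exists_num hfin.toFinset (by
      intro v hv
      rw [Set.Finite.mem_toFinset] at hv
      obtain ⟨P, hP, -, ε, hv⟩ := hv
      exact fun x => triv_ext (K := K) hP hv x)
    refine ⟨f, hf, fun P hP hPΔ v ε hv hvt => hfT v ?_ hvt⟩
    rw [Set.Finite.mem_toFinset]
    exact ⟨P, hP, hPΔ, ε, hv⟩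
  -- the algebraic closure of `L'`
  let Ω := AlgebraicClosure L'
  have j1 : IsScalarTower K' L' Ω := inferInstance
  have j2 : IsScalarTower k K' Ω := inferInstance
  have j3 : IsScalarTower K K' Ω := inferInstance
  have j4 : IsScalarTower k K Ω := inferInstance
  let S₀ : Finset Ω := (f.map (algebraMap K' Ω)).roots.toFinset
  let S₁ : Finset Ω := S₀.biUnion fun b =>
    (Polynomial.X ^ 2 - Polynomial.C (b * (b - 1) * (b - algebraMap K' Ω l)) : Polynomial Ω).roots.toFinset
  have hmap : f.map (algebraMap K' Ω) ≠ 0 :=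
    (Polynomial.map_ne_zero_iff (algebraMap K' Ω).injective).2 hf
  have hS₀ : ∀ x, x ∈ S₀ ↔ (f.map (algebraMap K' Ω)).IsRoot x := fun x => by
    rw [Multiset.mem_toFinset, mem_roots hmap]
  have hS₁ : ∀ x, x ∈ S₁ ↔ ∃ b ∈ S₀, x ^ 2 = b * (b - 1) * (b - algebraMap K' Ω l) := fun x => by
    rw [Finset.mem_biUnion]
    refine exists_congr fun b => and_congr_right fun _ => ?_
    rw [Multiset.mem_toFinset, mem_roots (X_pow_sub_C_ne_zero two_pos _), IsRoot.def, eval_sub,
      eval_pow, eval_X, eval_C, sub_eq_zero]
  have hint₀ : ∀ x ∈ S₀, IsIntegral K' x := by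
    intro x hx
    have h1 : IsAlgebraic K' x := ⟨f, hf, by
      have h2 := (hS₀ x).1 hx
      rwa [IsRoot.def, eval_map_algebraMap] at h2⟩
    exact h1.isIntegral
  have hint₁ : ∀ x ∈ S₁, IsIntegral K' x := by
    intro x hx
    obtain ⟨b, hb, hxb⟩ := (hS₁ x).1 hx
    have h1 := hint₀ b hb
    have h2 : IsIntegral K' (x ^ 2) := by
      rw [hxb]
      exact (h1.mul (h1.sub isIntegral_one)).mul (h1.sub isIntegral_algebraMap)
    exact IsIntegral.of_pow two_pos h2
  let K'' : IntermediateField K' Ω := IntermediateField.adjoin K' ((S₀ ∪ S₁ : Finset Ω) : Set Ω)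
  have hfd : FiniteDimensional K' K'' := by
    refine IntermediateField.finiteDimensional_adjoin fun x hx => ?_
    rw [Finset.mem_coe, Finset.mem_union] at hx
    rcases hx with hx | hx
    · exact hint₀ x hx
    · exact hint₁ x hx
  have hK''mem : ∀ x, (x ∈ S₀ ∨ x ∈ S₁) → x ∈ K'' := fun x hx =>
    IntermediateField.subset_adjoin K' _ (by rw [Finset.mem_coe, Finset.mem_union]; exact hx)
  have e1 : IsScalarTower k K'' Ω := IsScalarTower.of_algebraMap_eq fun x => rfl
  have e2 : IsScalarTower K K'' Ω := IsScalarTower.of_algebraMap_eq fun x => rfl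
  let tΩ : Ω := algebraMap L' Ω t
  let yΩ : Ω := algebraMap L' Ω y
  let L'' : IntermediateField K'' Ω := IntermediateField.adjoin K'' {tΩ, yΩ}
  have htm : tΩ ∈ L'' := IntermediateField.subset_adjoin K'' _ (by simp)
  have hym : yΩ ∈ L'' := IntermediateField.subset_adjoin K'' _ (by simp)
  have hLmem : ∀ z : L', algebraMap L' Ω z ∈ L'' := by
    let M : IntermediateField K' L' :=
      (L''.restrictScalars K').comap (IsScalarTower.toAlgHom K' L' Ω)
    have hM : ∀ z : L', z ∈ M ↔ algebraMap L' Ω z ∈ L'' := fun z => Iff.rfl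
    have h1 : IntermediateField.adjoin K' {t, y} ≤ M := by
      rw [IntermediateField.adjoin_le_iff]
      rintro z (rfl | rfl)
      · exact (hM _).2 htm
      · exact (hM _).2 hym
    rw [hg] at h1
    exact fun z => (hM z).1 (h1 IntermediateField.mem_top)
  let φ : L' →+* L'' := (algebraMap L' Ω).codRestrict L''.toSubfield.toSubring hLmem
  let a1 : Algebra L' L'' := φ.toAlgebra
  let a2 : Algebra L L'' := (φ.comp (algebraMap L L')).toAlgebra
  have hφ : ∀ z : L', ((algebraMap L' L'' z : L'') : Ω) = algebraMap L' Ω z := fun z => rfl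
  have b1 : IsScalarTower k K K'' := by
    apply IsScalarTower.of_algebraMap_eq
    intro x
    apply Subtype.ext
    change algebraMap k Ω x = algebraMap K Ω (algebraMap k K x)
    exact IsScalarTower.algebraMap_apply k K Ω x
  have b2 : IsScalarTower k K L'' := by
    apply IsScalarTower.of_algebraMap_eq
    intro x
    apply Subtype.ext
    change algebraMap k Ω x = algebraMap K Ω (algebraMap k K x)
    exact IsScalarTower.algebraMap_apply k K Ω x
  have b3 : IsScalarTower k L L'' := by
    apply IsScalarTower.of_algebraMap_eq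
    intro x
    apply Subtype.ext
    change algebraMap k Ω x = algebraMap L' Ω (algebraMap L L' (algebraMap k L x))
    rw [← IsScalarTower.algebraMap_apply k L L', ← IsScalarTower.algebraMap_apply k L' Ω]
  have b4 : IsScalarTower k K'' L'' := by
    apply IsScalarTower.of_algebraMap_eq
    intro x
    apply Subtype.ext
    rfl
  have b5 : IsScalarTower k L' L'' := by
    apply IsScalarTower.of_algebraMap_eq
    intro x
    apply Subtype.ext
    change algebraMap k Ω x = algebraMap L' Ω (algebraMap k L' x)
    exact IsScalarTower.algebraMap_apply k L' Ω x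
  have b6 : IsScalarTower K L L'' := by
    apply IsScalarTower.of_algebraMap_eq
    intro x
    apply Subtype.ext
    change algebraMap K Ω x = algebraMap L' Ω (algebraMap L L' (algebraMap K L x))
    rw [← IsScalarTower.algebraMap_apply K L L', ← IsScalarTower.algebraMap_apply K L' Ω]
  have b7 : IsScalarTower K K'' L'' := by
    apply IsScalarTower.of_algebraMap_eq
    intro x
    apply Subtype.ext
    rfl
  have b8 : IsScalarTower L L' L'' := IsScalarTower.of_algebraMap_eq fun x => rfl
  have b9 : IsScalarTower K' K'' L'' := by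
    apply IsScalarTower.of_algebraMap_eq
    intro x
    apply Subtype.ext
    rfl
  have b10 : IsScalarTower K' L' L'' := by
    apply IsScalarTower.of_algebraMap_eq
    intro x
    apply Subtype.ext
    change algebraMap K' Ω x = algebraMap L' Ω (algebraMap K' L' x)
    exact IsScalarTower.algebraMap_apply K' L' Ω x
  have b11 : IsScalarTower K K' K'' := by
    apply IsScalarTower.of_algebraMap_eq
    intro x
    apply Subtype.ext
    change algebraMap K Ω x = algebraMap K' Ω (algebraMap K K' x)
    exact IsScalarTower.algebraMap_apply K K' Ω x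
  have b12 : FiniteDimensional K K'' := FiniteDimensional.trans K K' K''
  -- the curve over `K''`
  have htr : Transcendental K'' (algebraMap L' L'' t) := by
    intro halg
    have h1 : Algebra.IsAlgebraic K' K'' := inferInstance
    have h2 : IsAlgebraic K' (algebraMap L' L'' t) := halg.restrictScalars K'
    exact h.tr ((isAlgebraic_algebraMap_iff (algebraMap L' L'').injective).1 h2)
  have h'' : Leg (algebraMap L' L'' t) (algebraMap L' L'' y) (algebraMap K' K'' l) := by
    refine ⟨?_, ?_, ?_, htr⟩
    · rw [← IsScalarTower.algebraMap_apply K' K'' L'', IsScalarTower.algebraMap_apply K' L' L'',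
        ← map_pow, h.eq]
      simp only [map_mul, map_sub, map_one]
    · exact (_root_.map_ne_zero _).2 h.l0
    · intro h1
      exact h.l1 ((algebraMap K' K'').injective (by rw [h1, map_one]))
  have hg'' : IntermediateField.adjoin K'' {algebraMap L' L'' t, algebraMap L' L'' y} = ⊤ := by
    apply IntermediateField.map_injective L''.val
    rw [IntermediateField.adjoin_map, Set.image_pair, ← AlgHom.fieldRange_eq_map,
      IntermediateField.fieldRange_val]
    rfl
  have c1 : Algebra.IsPushout K' K'' L' L'' := pushout_leg h hg h'' hg''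
  have c2 : Algebra.IsPushout K' L' K'' L'' := c1.symm
  have c3 : FiniteDimensional L' L'' :=
    Module.Finite.equiv (Algebra.IsPushout.equiv K' L' K'' L'').toLinearEquiv
  have c4 : FiniteDimensional L L'' := FiniteDimensional.trans L L' L''
  have c6 : IsScalarTower K L' L'' := by
    apply IsScalarTower.of_algebraMap_eq
    intro x
    rw [IsScalarTower.algebraMap_apply K L L'', IsScalarTower.algebraMap_apply L L' L'',
      ← IsScalarTower.algebraMap_apply K L L']
  have c5 : Algebra.IsPushout K K'' L L'' := (Algebra.IsPushout.comp_iff K K' L L').2 c1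
  refine H K'' L'' h'' hg'' ?_
  intro P hP hPΔ w ε hw
  refine near_of_splits (K := K) h'' (f := f) ?_ hf ?_ hP (hPf P hP hPΔ) w ε hw
  · refine IntermediateField.splits_of_splits (IsAlgClosed.splits _) fun x hx => ?_
    refine hK''mem x (Or.inl ((hS₀ x).2 ?_))
    rw [Polynomial.mem_rootSet] at hx
    rw [IsRoot.def, eval_map_algebraMap]
    exact hx.2
  · intro b hb
    have hb' : (b : Ω) ∈ S₀ := by
      rw [hS₀, IsRoot.def, eval_map_algebraMap]
      rw [IsRoot.def, eval_map_algebraMap] at hb
      have h1 := congrArg (algebraMap K'' Ω) hb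
      rw [← aeval_algebraMap_apply, map_zero] at h1
      exact h1
    obtain ⟨c, hc⟩ := IsAlgClosed.exists_pow_nat_eq
      ((b : Ω) * (b - 1) * (b - algebraMap K' Ω l)) two_pos
    have hc' : c ∈ K'' := hK''mem c (Or.inr ((hS₁ c).2 ⟨b, hb', hc⟩))
    exact ⟨⟨c, hc'⟩, Subtype.ext hc⟩

end Pool.Agent.Helper60.PB
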