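import Pool.Agent.Helper60.PB.G1.EDefs
import Pool.Agent.Helper63.PB.Finite
import Pool.Agent.Helper63.PB.VertPrimes

set_option autoImplicit false

/-!
# G1-08 FinE: finiteness

`efinite_mu`: the same as `Helper63.PB.finite_mu` (PB-19, FinMu.lean): outside a finite set of prime
divisors `P` of `X`: `a P = 0`, `c Q = 0` for the `Q` below `P`, and `v t = 0`, `v u = 0` for all `v` over `P`
(`finite_ne`). `star` with `g = t`: `0 = v (Dt t) ≥ v t - μ = -μ`, and `μ = ε (1 - e)`. So `e = 1`, `μ = 0`.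

`kap_ne_zero`: `T ≠ t`. PROOF. By `trT_sub_self` `(T - t) (t - b) ^ 2 = 2 y c + b (3 t ^ 2 - 2 (1 + l) t + l) + y ^ 2 +
(1 + l - 2 t) t ^ 2`, and `y ^ 2 = t (t - 1) (t - l)`: this is `p(t) + q(t) y` with `p` of degree three and leading
coefficient `-1`, so it is not zero by `Leg.indep`.

`efinite_not_good`: the same as `Helper63.PB.finite_not_good` (GoodFin.lean): for `P` outside a finite set
`a P = c Q = 0`, `Δ P = 0`, `e = 1`, `μ = 0`, `E Q = 0`, `v (six y l) = 0` and `v (kap p) = 0` for all `v` over `P`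
and `p ∈ S` (`finite_ne`, `six_ne_zero`, `kap_ne_zero`), so `P` is good (`v (kap p) = 0 < 1`, `kap p ≠ 0`).
-/

namespace Pool.Agent.Helper60.PB

open Pool.Agent.Helper92.Weak Pool.Agent.Helper92.Ga Pool.Agent.Helper63.PB
open Polynomial (C X aeval)
open scoped Polynomial

theorem kap_ne_zero {K' L' : Type*} [Field K'] [Field L'] [Algebra K' L'] {t y : L'} {l : K'}
    (h : Leg t y l) {b c : K'} (hp : OnE l (b, c)) : kap t y l b c ≠ 0 := by
  intro h0
  have hc1 : (algebraMap K' L' c) ^ 2 = algebraMap K' L' b * (algebraMap K' L' b - 1) *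
      (algebraMap K' L' b - algebraMap K' L' l) := by
    have h7 := congrArg (algebraMap K' L') (show c ^ 2 = b * (b - 1) * (b - l) from hp)
    simpa using h7
  have hid := trT_sub_self (l := algebraMap K' L' l) (t := t) (y := y) hc1 (h.t_ne b)
  have h1 : TT t y l b c - t = 0 := by
    unfold kap at h0
    rcases div_eq_zero_iff.1 h0 with h2 | h2
    · exact h2
    · exact absurd h2 (pow_ne_zero 2 h.y0)
  have h2 : trT (algebraMap K' L' l) t y (algebraMap K' L' b) (algebraMap K' L' c) - t = 0 := h1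
  rw [h2] at hid
  have hy := h.eq
  have h3 : aeval t (C b * (3 * X ^ 2 - 2 * (1 + C l) * X + C l) + X * (X - 1) * (X - C l) +
      (1 + C l - 2 * X) * X ^ 2 : K'[X]) + aeval t (C (2 * c) : K'[X]) * y = 0 := by
    simp only [map_mul, map_sub, map_add, map_pow, Polynomial.aeval_C, Polynomial.aeval_X, map_one,
      map_ofNat]
    linear_combination (-1 : L') * hid - hy
  obtain ⟨h4, -⟩ := h.indep _ _ h3
  have h5 := congrArg (fun p : K'[X] => p.coeff 3) h4
  have e : (C b * (3 * X ^ 2 - 2 * (1 + C l) * X + C l) + X * (X - 1) * (X - C l) +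
      (1 + C l - 2 * X) * X ^ 2 : K'[X]) =
      C (-1) * X ^ 3 + C (3 * b) * X ^ 2 + C (l - 2 * b * (1 + l)) * X + C (b * l) := by
    simp only [map_mul, map_sub, map_add, map_one, map_ofNat, map_neg]
    ring
  rw [e] at h5
  simp only [Polynomial.coeff_add, Polynomial.coeff_C_mul, Polynomial.coeff_X_pow,
    Polynomial.coeff_X, Polynomial.coeff_C, Polynomial.coeff_zero] at h5
  norm_num at h5

variable {k K L K' L' : Type*} [Field k] [Field K] [Field L] [Field K'] [Field L']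
  [Algebra k K] [Algebra k L] [Algebra k K'] [Algebra k L'] [Algebra K L] [Algebra K K']
  [Algebra L L'] [Algebra K' L'] [IsScalarTower k K L] [IsScalarTower k L L']
  [IsScalarTower k K' L'] [FiniteDimensional L L'] [CharZero k]
  {X : ProjVar k L} {Z : ProjVar k K} {t y : L'} {l : K'} (F : EFrame X Z K' t y l)

theorem efinite_mu : {P : X.primeDivisors | ∃ (Q : Z.primeDivisors) (e : ℕ) (v : DVal k L') (ε : ℕ),
    LiesOver P.1 Q.1 e ∧ LiesOver v P.1 ε ∧ (F.mu P Q e v ε ≠ 0 ∨ e ≠ 1)}.Finite := by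
  classical
  have ht : t ≠ 0 := F.leg.t0
  have hA : {P : X.primeDivisors | F.a P ≠ 0}.Finite := by
    refine (F.a.support.finite_toSet).subset fun P hP => ?_
    simpa using hP
  have hc : {Q : Z.primeDivisors | F.c Q ≠ 0}.Finite := by
    refine (F.c.support.finite_toSet).subset fun Q hQ => ?_
    simpa using hQ
  have hB : (⋃ Q ∈ {Q : Z.primeDivisors | F.c Q ≠ 0},
      {P : X.primeDivisors | ∃ e, LiesOver P.1 Q.1 e}).Finite :=
    hc.biUnion fun Q _ => finite_over_base X Q.1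
  have hC := finite_ne (L' := L') X ht
  have hD := finite_ne (L' := L') X F.u_ne
  refine (((hA.union hB).union hC).union hD).subset ?_
  rintro P ⟨Q, e, v, ε, hPQ, hvP, hne⟩
  by_contra hP
  simp only [Set.mem_union, Set.mem_ofPred_eq, Set.mem_iUnion, not_or, not_exists, not_and,
    not_not, exists_prop] at hP
  obtain ⟨⟨⟨ha, hb⟩, ht'⟩, hu'⟩ := hP
  have hcQ : F.c Q = 0 := by
    by_contra h
    exact hb Q h e hPQ
  have hvt : v t = 0 := ht' v ε hvP
  have hvu : v F.u = 0 := hu' v ε hvP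
  have hstar := F.star P Q e hPQ v ε hvP t
  rw [F.Dt_t, ha, hcQ, hvt, hvu] at hstar
  have h1 : (0 : ℤ) - (ε * (0 + 1 - e * (0 + 1)) - 0) ≤ v (1 : L') := by
    rcases hstar with h | h
    · exact absurd h one_ne_zero
    · exact_mod_cast h
  rw [DVal.map_one] at h1
  have he : (1 : ℤ) ≤ e := by exact_mod_cast hPQ.1
  have hε : (1 : ℤ) ≤ ε := by exact_mod_cast hvP.1
  have he1 : (e : ℤ) = 1 := by nlinarith
  rcases hne with h | h
  · apply h
    unfold EFrame.mu EFrame.lam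
    rw [ha, hcQ, hvu, he1]
    ring
  · exact h (by exact_mod_cast he1)

theorem efinite_not_good (Δ : X.Div) {S : Finset (K' × K')} (hS : ∀ p ∈ S, OnE l p) (E : Z.Div) :
    {Q : Z.primeDivisors | ¬ ∃ (P : X.primeDivisors) (e : ℕ), EGood F Δ S E P Q e}.Finite := by
  classical
  set T₁ : Set X.primeDivisors := {P | Δ P ≠ 0} with hT₁
  set T₂ : Set X.primeDivisors := {P | ∃ (Q : Z.primeDivisors) (e : ℕ) (v : DVal k L') (ε : ℕ),
    LiesOver P.1 Q.1 e ∧ LiesOver v P.1 ε ∧ (F.mu P Q e v ε ≠ 0 ∨ e ≠ 1)} with hT₂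
  set T₃ : Set X.primeDivisors := ⋃ p ∈ S,
    {P | ∃ (v : DVal k L') (ε : ℕ), LiesOver v P.1 ε ∧ v (kap t y l p.1 p.2) ≠ 0} with hT₃
  set T₄ : Set X.primeDivisors :=
    {P | ∃ (v : DVal k L') (ε : ℕ), LiesOver v P.1 ε ∧ v (six y l) ≠ 0} with hT₄
  have h1 : T₁.Finite := Δ.finite_support
  have h2 : T₂.Finite := efinite_mu F
  have h3 : T₃.Finite := by
    refine S.finite_toSet.biUnion fun p hp => ?_
    exact finite_ne X (kap_ne_zero F.leg (hS p hp))
  have h4' : T₄.Finite := finite_ne X (six_ne_zero F.leg)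
  have h4 := finite_image Z (((h1.union h2).union h3).union h4')
  refine (h4.union E.finite_support).subset fun Q hQ => ?_
  by_contra hcon
  rw [Set.mem_union, not_or] at hcon
  obtain ⟨hc1, hc2⟩ := hcon
  apply hQ
  obtain ⟨s, hs, hs'⟩ := F.tr
  obtain ⟨P₀, hP₀, e, hPQ⟩ := exists_vert F.mor hs hs' Q.2
  set P : X.primeDivisors := ⟨P₀, hP₀⟩ with hP
  have hPT : P ∉ ((T₁ ∪ T₂) ∪ T₃) ∪ T₄ := fun h => hc1 ⟨P, h, e, hPQ⟩
  rw [Set.mem_union, Set.mem_union, Set.mem_union, not_or, not_or, not_or] at hPT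
  obtain ⟨⟨⟨hn1, hn2⟩, hn3⟩, hn4⟩ := hPT
  have hΔ : Δ P = 0 := by
    by_contra h
    exact hn1 h
  have hE : E Q = 0 := by
    by_contra h
    exact hc2 h
  have hmu : ∀ (v : DVal k L') (ε : ℕ), LiesOver v P.1 ε → F.mu P Q e v ε = 0 ∧ e = 1 := by
    intro v ε hv
    by_contra h
    apply hn2
    refine ⟨Q, e, v, ε, hPQ, hv, ?_⟩
    by_contra h'
    rw [not_or, not_not, not_not] at h'
    exact h h'
  obtain ⟨v₀, ε₀, hv₀⟩ := Helper47.PQ.exists_over L' P.1
  have he : e = 1 := (hmu v₀ ε₀ hv₀).2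
  refine ⟨P, e, hPQ, ?_, ?_⟩
  · rw [hΔ, hE, he]
    norm_num
  · intro v ε hv
    rw [(hmu v ε hv).1]
    have h6 : v (six y l) = 0 := by
      by_contra h
      exact hn4 ⟨v, ε, hv, h⟩
    refine ⟨by rw [h6]; norm_num, fun p hp hge => ?_⟩
    have h7 : v (kap t y l p.1 p.2) = 0 := by
      by_contra h
      apply hn3
      simp only [hT₃, Set.mem_iUnion]
      exact ⟨p, hp, v, ε, hv, h⟩
    rw [DVal.ge_iff (kap_ne_zero F.leg (hS p hp)), h7] at hge
    norm_num at hge

end Pool.Agent.Helper60.PB
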