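import Pool.Agent.Helper60.PB.G1.SplitE
import Pool.Agent.Helper60.PB.G1.EnlargeE
import Pool.Agent.Helper60.PB.G1.ETransl

set_option autoImplicit false
set_option linter.unusedSectionVars false

/-!
# G1-20 FinalE: the comparison theorem for fibrations in curves of genus one
-/

namespace Pool.Agent.Helper60.PB

open Pool.Agent.Helper92.Weak Pool.Agent.Helper92.Ga Pool.Agent.Helper63.PB

/-- `X → Z` is a morphism which maps every prime divisor of `X` onto `Z` or onto a prime divisor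
of `Z`, and the geometric generic fibre is a smooth curve of genus one: the function field
`L' = L ⊗ K'` of `X` over the finite extension `K'` of the function field `K` of `Z` is `K'(t, y)`,
`y ^ 2 = t (t - 1) (t - l)`, `l ≠ 0, 1`. -/
structure IsEllipticFibration {k K L : Type*} (K' L' : Type*) [Field k] [Field K] [Field L]
    [Field K'] [Field L'] [Algebra k K] [Algebra k L] [Algebra K L] [Algebra K K'] [Algebra K L']
    [Algebra L L'] [Algebra K' L'] [IsScalarTower K L L'] [IsScalarTower K K' L']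
    (X : ProjVar k L) (Z : ProjVar k K) : Prop where
  mor : IsMorphism X Z
  equi : ∀ P ∈ X.primeDivisors, (∃ a : K, P (algebraMap K L a) ≠ 0) →
    ∃ Q ∈ Z.primeDivisors, ∃ e, LiesOver P Q e
  finite : FiniteDimensional K K'
  pushout : Algebra.IsPushout K K' L L'
  curve : ∃ (t y : L') (l : K'), Transcendental K' t ∧ l ≠ 0 ∧ l ≠ 1 ∧
    y ^ 2 = t * (t - 1) * (t - algebraMap K' L' l) ∧ IntermediateField.adjoin K' {t, y} = ⊤

universe v

/-- The comparison theorem, the horizontal boundary contains the origin. -/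
theorem emain_origin {k K L K' : Type*} {L' : Type v} [Field k] [Field K] [Field L] [Field K']
    [Field L'] [Algebra k K] [Algebra k L] [Algebra k K'] [Algebra k L'] [Algebra K L]
    [Algebra K K'] [Algebra K L'] [Algebra L L'] [Algebra K' L'] [IsScalarTower k K L]
    [IsScalarTower k K K'] [IsScalarTower k K L'] [IsScalarTower k L L'] [IsScalarTower k K' L']
    [IsScalarTower K L L'] [IsScalarTower K K' L'] [FiniteDimensional K K']
    [FiniteDimensional L L'] [Algebra.IsPushout K K' L L'] [CharZero k] [IsAlgClosed k]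
    {X : ProjVar k L} {Z : ProjVar k K} {d : ℕ} (hd : Algebra.trdeg k K = d)
    (hmor : IsMorphism X Z)
    (hequi : ∀ P ∈ X.primeDivisors, (∃ a : K, P (algebraMap K L a) ≠ 0) →
      ∃ Q ∈ Z.primeDivisors, ∃ e, LiesOver P Q e)
    {t y : L'} {l : K'} (h : Leg t y l) (hg : IntermediateField.adjoin K' {t, y} = ⊤)
    (p : X.Pair (d + 1)) (q : Z.Pair d)
    {P₀ : X.primeDivisors} (hP₀ : ∀ x : K, P₀.1 (algebraMap K L x) = 0) (hΔ₀ : p.Δ P₀ ≠ 0)
    {v₀ : DVal k L'} {ε₀ : ℕ} (hv₀ : LiesOver v₀ P₀.1 ε₀) (hv₀t : v₀ t < 0)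
    (hq : IsOrbifoldBase p q) (hκ : Z.kod q.logDiv ≠ ⊥) :
    ∃ B : Z.Div, (∀ Q, 0 ≤ B Q) ∧ ∀ ε : ℚ, 0 < ε →
      X.kod p.logDiv = (1 : ℕ) + Z.kod (q.logDiv + ε • B) ∧
      X.nu p.logDiv = (1 : ℕ) + Z.nu (q.logDiv + ε • B) := by
  refine enlarge_e (K := K) h hg p.Δ ?_
  intro K'' L'' _ _ _ _ _ _ _ _ _ _ _ _ _ _ _ _ _ _ _ _ _ _ h'' hg'' hsplit
  obtain ⟨w, n, hw⟩ := Helper47.PQ.exists_over L'' v₀
  have hwP := under_trans hw hv₀
  have hwt : w (algebraMap L' L'' t) < 0 := by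
    rw [hw.2]
    have hn : (0 : ℤ) < n := by exact_mod_cast hw.1
    exact mul_neg_of_pos_of_neg hn hv₀t
  exact esplit_main hd hmor hequi h'' hg'' p q hsplit hP₀ hΔ₀ hwP hwt hq hκ

variable {k K L K' : Type*} {L' : Type v} [Field k] [Field K] [Field L] [Field K'] [Field L']
  [Algebra k K] [Algebra k L] [Algebra k K'] [Algebra k L'] [Algebra K L] [Algebra K K']
  [Algebra K L'] [Algebra L L'] [Algebra K' L'] [IsScalarTower k K L] [IsScalarTower k K K']
  [IsScalarTower k K L'] [IsScalarTower k L L'] [IsScalarTower k K' L'] [IsScalarTower K L L']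
  [IsScalarTower K K' L'] {X : ProjVar k L} {Z : ProjVar k K}

/-- The comparison theorem for fibrations in curves of genus one. -/
theorem emain [IsAlgClosed k] [CharZero k] {d : ℕ} (hd : Algebra.trdeg k K = d)
    (h : IsEllipticFibration K' L' X Z) (p : X.Pair (d + 1)) (q : Z.Pair d)
    (hq : IsOrbifoldBase p q) (hκ : Z.kod q.logDiv ≠ ⊥) :
    ∃ (s : ℕ) (B : Z.Div), s ≤ 1 ∧ (∀ Q, 0 ≤ B Q) ∧ ∀ ε : ℚ, 0 < ε →
      X.kod p.logDiv = s + Z.kod (q.logDiv + ε • B) ∧
      X.nu p.logDiv = s + Z.nu (q.logDiv + ε • B) := by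
  obtain ⟨t, y, l, e1, e2, e3, e4, hg⟩ := h.curve
  have hl : Leg t y l := ⟨e4, e2, e3, e1⟩
  have j1 : FiniteDimensional K K' := h.finite
  have j2 : Algebra.IsPushout K K' L L' := h.pushout
  have j3 : Algebra.IsPushout K L K' L' := j2.symm
  have j4 : FiniteDimensional L L' :=
    Module.Finite.equiv (Algebra.IsPushout.equiv K L K' L').toLinearEquiv
  by_cases h0 : ∀ P : X.primeDivisors, (∀ x : K, P.1 (algebraMap K L x) = 0) → p.Δ P = 0
  · obtain ⟨B, hB, key⟩ := ezero_main hd h.mor h.equi hl hg p q h0 hq hκ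
    exact ⟨0, B, zero_le_one, hB, key⟩
  · push Not at h0
    obtain ⟨P₀, hP₀, hΔ₀⟩ := h0
    suffices hs : ∃ B : Z.Div, (∀ Q, 0 ≤ B Q) ∧ ∀ ε : ℚ, 0 < ε →
        X.kod p.logDiv = (1 : ℕ) + Z.kod (q.logDiv + ε • B) ∧
        X.nu p.logDiv = (1 : ℕ) + Z.nu (q.logDiv + ε • B) by
      obtain ⟨B, hB, key⟩ := hs
      exact ⟨1, B, le_rfl, hB, key⟩
    refine enlarge_e (K := K) hl hg p.Δ ?_
    intro K'' L'' _ _ _ _ _ _ _ _ _ _ _ _ _ _ _ _ _ _ _ _ _ _ h'' hg'' hsplit
    obtain ⟨w, n, hw⟩ := Helper47.PQ.exists_over L'' P₀.1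
    rcases hsplit P₀ hP₀ hΔ₀ w n hw with hwt | ⟨⟨b, c⟩, hn⟩
    · exact emain_origin hd h.mor h.equi h'' hg'' p q hP₀ hΔ₀ hw hwt hq hκ
    · have hwK : ∀ x : K'', w (algebraMap K'' L'' x) = 0 := triv_ext (K := K) hP₀ hw
      have hp := onE_of_near h'' hwK hn
      have hc : CharZero K'' := charZero_of_injective_algebraMap (algebraMap k K'').injective
      have hneg := neg_of_near h'' hwK hp hn
      have hg3 := adjoin_translate h'' hp
      rw [hg''] at hg3
      exact emain_origin hd h.mor h.equi (leg_translate h'' hp) hg3 p q hP₀ hΔ₀ hw hneg hq hκ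

end Pool.Agent.Helper60.PB
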