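import Pool.Agent.Helper60.PB.G1.EOrd
import Pool.Agent.Helper63.PB.Unram
import Pool.Agent.Helper92.Weak.Final
import Pool.Agent.Helper60.MA.Pairs
import Pool.Agent.Helper60.MA.Ops

set_option autoImplicit false

/-!
# G1-07 MkE: the frame of a fibration in curves of genus one

The same as `Helper63.PB.exists_frame` (PB-18, MkFrame.lean; see the proof there), with
`ECurve.ord_u` instead of `Helper63.PB.ord_u`:

Let `y : Fin d → K` be a transcendence basis of `K / k`. `s`: `L' = L ⊗ K'` is algebraic over `L` and
`trdeg_K L' = 1` (`t` transcendental over `K'`, `K' / K` algebraic, `L'` algebraic over `K'(t)`), so some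
`s ∈ L` is transcendental over `K` (otherwise `L'` is algebraic over `K`), and `L ⊆ L'` is algebraic over
`K(s)` (exchange). `Dt`: the derivation of `L' / K'` with `Dt t = 1` (`Forms.exists_kaehler_basis` for
`k := K'` and the transcendence basis `(t)` of `L' / K'`; `Dt = (b.coord 0).compDer (D K' L')`).
`u = Dt s`, nonzero: otherwise `Dt` kills everything algebraic over `K'(s)`
(`MA.der_eq_zero_of_isAlgebraic`), so `t`. `g`, `h`, `a`, `c`, `star` as in `exists_frame`.
`hor`: `P` trivial on `K`: `ε = 1` by `unram`; then `Om k y s` on `L'` has order `a P` along `v`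
(`hurwitz`), `v` is trivial on `K'` (`triv_ext`), and `ECurve.ord_u` with `y' = algebraMap K K' ∘ y` gives
`v u = a P - v y`.
-/

namespace Pool.Agent.Helper60.PB

open Pool.Agent.Helper92.Weak Pool.Agent.Helper92.Ga Pool.Agent.Helper63.PB
open scoped KaehlerDifferential

/-- `t` is a transcendence basis of `K(t) / K`. -/
private theorem line_basis {K L : Type*} [Field K] [Field L] [Algebra K L] {t : L}
    (h : IsLine K t) : IsTranscendenceBasis K (fun _ : Fin 1 => t) := by
  rw [h.isTorus.indep.isTranscendenceBasis_iff_isAlgebraic]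
  constructor
  intro a
  have ha : a ∈ IntermediateField.adjoin K (Set.range (fun _ : Fin 1 => t)) := by
    rw [h.isTorus.gen]
    trivial
  rw [IntermediateField.mem_adjoin_iff_div] at ha
  obtain ⟨r, hr, s, hs, rfl⟩ := ha
  have h1 : IsAlgebraic (Algebra.adjoin K (Set.range (fun _ : Fin 1 => t))) r :=
    isAlgebraic_algebraMap (⟨r, hr⟩ : Algebra.adjoin K (Set.range (fun _ : Fin 1 => t)))
  have h2 : IsAlgebraic (Algebra.adjoin K (Set.range (fun _ : Fin 1 => t))) s :=
    isAlgebraic_algebraMap (⟨s, hs⟩ : Algebra.adjoin K (Set.range (fun _ : Fin 1 => t)))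
  rw [div_eq_mul_inv]
  exact h1.mul h2.inv

/-- A function on `L` which is a transcendence basis over `K`. -/
private theorem exists_s {K L K' L' : Type*} [Field K] [Field L] [Field K'] [Field L']
    [Algebra K L] [Algebra K K'] [Algebra K L'] [Algebra L L'] [Algebra K' L']
    [IsScalarTower K L L'] [IsScalarTower K K' L'] [FiniteDimensional K K']
    [FiniteDimensional L L'] {t : L'} (ht : IsTranscendenceBasis K' (fun _ : Fin 1 => t)) :
    ∃ s : Fin 1 → L, IsTranscendenceBasis K s := by
  have h1 : Algebra.trdeg K' L' = 1 := by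
    have h := ht.lift_cardinalMk_eq_trdeg
    simp only [Cardinal.mk_fintype, Fintype.card_fin, Nat.cast_one, Cardinal.lift_one] at h
    have h' : Cardinal.lift.{0} (Algebra.trdeg K' L') = 1 := by
      rw [← h]
    simpa using h'
  have h2 : Algebra.trdeg K L' = 1 := by
    have h := lift_trdeg_add_eq K K' L'
    rw [trdeg_eq_zero (R := K) (A := K'), h1] at h
    simp only [Cardinal.lift_zero, zero_add, Cardinal.lift_one] at h
    rw [eq_comm, Cardinal.lift_eq_one] at h
    exact h
  have h3 : Algebra.trdeg K L = 1 := by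
    have h := lift_trdeg_add_eq K L L'
    rw [trdeg_eq_zero (R := L) (A := L'), h2] at h
    simp only [Cardinal.lift_zero, add_zero, Cardinal.lift_one] at h
    rw [Cardinal.lift_eq_one] at h
    exact h
  exact exists_basis_of_trdeg (d := 1) (by rw [h3]; norm_num)

/-- The transcendence basis `(y, s)`. -/
private theorem append_basis {k K L : Type*} [Field k] [Field K] [Field L] [Algebra k K]
    [Algebra k L] [Algebra K L] [IsScalarTower k K L] {d : ℕ} {y : Fin d → K}
    (hy : IsTranscendenceBasis k y) {s : L} (hs : IsTranscendenceBasis K (fun _ : Fin 1 => s)) :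
    IsTranscendenceBasis k (Fin.append (fun i => algebraMap K L (y i)) (fun _ : Fin 1 => s)) := by
  have h1 := hy.sumElim_comp hs
  let ε : Fin (d + 1) ≃ Fin 1 ⊕ Fin d := finSumFinEquiv.symm.trans (Equiv.sumComm _ _)
  have h2 := h1.comp_equiv ε
  convert h2 using 1
  funext i
  induction i using Fin.addCases with
  | left i => rw [Fin.append_left]; simp [ε]
  | right l => rw [Fin.append_right]; simp [ε]

/-- The image of `dy ∧ ds` in a larger field. -/
private theorem om_map {k K L M : Type*} [Field k] [Field K] [Field L] [Field M] [Algebra k K]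
    [Algebra k L] [Algebra k M] [Algebra K L] [Algebra K M] [Algebra L M] [IsScalarTower K L M]
    {d : ℕ} (y : Fin d → K) (s : L) :
    dform k (fun i => algebraMap L M
      (Fin.append (fun i => algebraMap K L (y i)) (fun _ : Fin 1 => s) i)) =
      Om k y (algebraMap L M s) := by
  unfold Om
  congr 1
  funext i
  induction i using Fin.addCases with
  | left i => rw [Fin.append_left, Fin.append_left, ← IsScalarTower.algebraMap_apply]
  | right l => rw [Fin.append_right, Fin.append_right]

/-- The form `dy ∧ ds` and extension of the base. -/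
private theorem om_base {k K K' L' : Type*} [Field k] [Field K] [Field K'] [Field L'] [Algebra k K]
    [Algebra k K'] [Algebra k L'] [Algebra K K'] [Algebra K L'] [Algebra K' L']
    [IsScalarTower K K' L'] {d : ℕ} (y : Fin d → K) (s : L') :
    Om k (fun i => algebraMap K K' (y i)) s = Om k y s := by
  unfold Om
  congr 1
  funext i
  induction i using Fin.addCases with
  | left i => rw [Fin.append_left, Fin.append_left, ← IsScalarTower.algebraMap_apply]
  | right l => rw [Fin.append_right, Fin.append_right]

theorem exists_eframe {k K L K' L₀ L' : Type*} [Field k] [Field K] [Field L] [Field K'] [Field L₀]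
    [Field L'] [Algebra k K] [Algebra k L] [Algebra k K'] [Algebra k L₀] [Algebra k L']
    [Algebra K L] [Algebra K K'] [Algebra K L'] [Algebra L L'] [Algebra K' L₀] [Algebra K' L']
    [Algebra L₀ L'] [IsScalarTower k K L] [IsScalarTower k K K'] [IsScalarTower k K L']
    [IsScalarTower k L L'] [IsScalarTower k K' L₀] [IsScalarTower k K' L']
    [IsScalarTower k L₀ L'] [IsScalarTower K' L₀ L'] [IsScalarTower K L L']
    [IsScalarTower K K' L'] [FiniteDimensional K K'] [FiniteDimensional L L']
    [Algebra.IsPushout K K' L L'] [CharZero k] {d : ℕ} (hd : Algebra.trdeg k K = d)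
    {X : ProjVar k L} {Z : ProjVar k K} (hmor : IsMorphism X Z)
    (hequi : ∀ P ∈ X.primeDivisors, (∃ a : K, P (algebraMap K L a) ≠ 0) →
      ∃ Q ∈ Z.primeDivisors, ∃ e, LiesOver P Q e)
    {t₀ : L₀} {y : L'} {l : K'} (C : ECurve t₀ y l) (p : X.Pair (d + 1)) (q : Z.Pair d) :
    ∃ (F : EFrame X Z K' (algebraMap L₀ L' t₀) y l) (g : L) (h : K), g ≠ 0 ∧ h ≠ 0 ∧
      (∀ P, p.can P = P.1 g + F.a P) ∧ ∀ Q, q.can Q = Q.1 h + F.c Q := by
  classical
  have hfin : FiniteDimensional L₀ L' := C.finite
  set t : L' := algebraMap L₀ L' t₀ with htdef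
  have htb : IsTranscendenceBasis K' (fun _ : Fin 1 => t) :=
    (line_basis C.line).algebraMap_comp (A := L')
  have hK0 : CharZero K := charZero_of_injective_algebraMap (algebraMap k K).injective
  have hK'0 : CharZero K' := charZero_of_injective_algebraMap (algebraMap k K').injective
  obtain ⟨yy, hyy⟩ := exists_basis_of_trdeg hd
  obtain ⟨s₁, hs₁⟩ := exists_s (K := K) (L := L) htb
  obtain ⟨s, rfl⟩ : ∃ s : L, s₁ = fun _ : Fin 1 => s :=
    ⟨s₁ 0, funext fun i => by rw [Subsingleton.elim i 0]⟩
  have hsT : Transcendental K s := by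
    have := hs₁.1
    rwa [algebraicIndependent_unique_type_iff] at this
  have hsA : ∀ x : L, IsAlgebraic (IntermediateField.adjoin K {s}) x := by
    have h1 := hs₁.isAlgebraic_field
    rw [Set.range_const] at h1
    exact fun x => h1.isAlgebraic x
  set s' : L' := algebraMap L L' s with hs'def
  have hs'₁ : IsTranscendenceBasis K (fun _ : Fin 1 => s') :=
    hs₁.algebraMap_comp (A := L')
  have hs'T : Transcendental K s' := by
    have := hs'₁.1
    rwa [algebraicIndependent_unique_type_iff] at this
  have hs'A : ∀ x : L', IsAlgebraic (IntermediateField.adjoin K {s'}) x := by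
    have h1 := hs'₁.isAlgebraic_field
    rw [Set.range_const] at h1
    exact fun x => h1.isAlgebraic x
  -- the derivation
  obtain ⟨b, hb⟩ := Pool.Agent.Helper50.Forms.exists_kaehler_basis htb
  let Dt : Derivation K' L' L' := (b.coord 0).compDer (KaehlerDifferential.D K' L')
  have hDt : Dt t = 1 := by
    change b.coord 0 (KaehlerDifferential.D K' L' t) = 1
    rw [← hb 0, Module.Basis.coord_apply, b.repr_self, Finsupp.single_eq_same]
  have hu : Dt s' ≠ 0 := by
    intro h0
    let δ : Derivation K L' L' := Dt.restrictScalars K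
    have h1 : IntermediateField.adjoin K {s'} ≤ Pool.Agent.Helper60.MA.constField δ := by
      rw [IntermediateField.adjoin_le_iff]
      rintro _ rfl
      exact h0
    have h2 : δ t = 0 := Pool.Agent.Helper60.MA.der_eq_zero_of_isAlgebraic δ _ (fun z hz => h1 hz)
      (hs'A t)
    have h3 : δ t = 1 := hDt
    rw [h3] at h2
    exact one_ne_zero h2
  -- the forms
  obtain ⟨g, hg, hgP⟩ := Pool.Agent.Helper60.MA.exists_psi X p (append_basis hyy hs₁)
    (one_ne_zero (α := L))
  obtain ⟨h, hh, hhQ⟩ := Pool.Agent.Helper60.MA.exists_psi Z q hyy (one_ne_zero (α := K))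
  choose a haO haC using hgP
  choose c hcO hcC using hhQ
  simp only [one_smul] at haO hcO
  have hfa : ∀ P : X.primeDivisors, a P ≠ 0 → P ∈ p.can.support ∪ (X.finite_prin g).toFinset := by
    intro P hP
    rw [Finset.mem_union, Finsupp.mem_support_iff, Set.Finite.mem_toFinset]
    by_contra hcon
    push Not at hcon
    have h1 := haC P
    have h2 : (P.1 g : ℚ) = 0 := by
      by_contra h3
      exact hcon.2 h3
    rw [hcon.1, h2, add_zero] at h1
    exact hP (by exact_mod_cast h1.symm)
  have hfc : ∀ Q : Z.primeDivisors, c Q ≠ 0 → Q ∈ q.can.support ∪ (Z.finite_prin h).toFinset := by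
    intro Q hQ
    rw [Finset.mem_union, Finsupp.mem_support_iff, Set.Finite.mem_toFinset]
    by_contra hcon
    push Not at hcon
    have h1 := hcC Q
    have h2 : (Q.1 h : ℚ) = 0 := by
      by_contra h3
      exact hcon.2 h3
    rw [hcon.1, h2, add_zero] at h1
    exact hQ (by exact_mod_cast h1.symm)
  let aF : X.primeDivisors →₀ ℤ := Finsupp.onFinset _ a hfa
  let cF : Z.primeDivisors →₀ ℤ := Finsupp.onFinset _ c hfc
  have haF : ∀ P, aF P = a P := fun _ => rfl
  have hcF : ∀ Q, cF Q = c Q := fun _ => rfl
  -- the form on `L'`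
  have hord : ∀ (P : X.primeDivisors) (v : DVal k L') (ε : ℕ), LiesOver v P.1 ε →
      v.IsOrd (Om k yy s') (ε * (a P + 1) - 1) := by
    intro P v ε hv
    have h1 := hurwitz (append_basis hyy hs₁) hv (haO P)
    rwa [om_map] at h1
  have star : ∀ (P : X.primeDivisors) (Q : Z.primeDivisors) (e : ℕ), LiesOver P.1 Q.1 e →
      ∀ (v : DVal k L') (ε : ℕ), LiesOver v P.1 ε → ∀ g : L',
        v.Ge ((v g - (ε * (aF P + 1 - e * (cF Q + 1)) - v (Dt s')) : ℤ) : ℚ) (Dt g) := by
    intro P Q e hPQ v ε hv x
    have h1 := log_ineq_gen hyy hs'T hs'A ((Dt s')⁻¹ • Dt.restrictScalars K)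
      (by
        change (Dt s')⁻¹ * Dt s' = 1
        exact inv_mul_cancel₀ hu)
      (under_trans hv hPQ) (hord P v ε hv) (hcO Q) x
    have h2 : ((Dt s')⁻¹ • Dt.restrictScalars K) x = (Dt s')⁻¹ * Dt x := rfl
    rw [h2] at h1
    have h3 := (DVal.ge_self (v := v) (Dt s')).mul h1
    rw [← mul_assoc, mul_inv_cancel₀ hu, one_mul] at h3
    refine h3.mono (le_of_eq ?_)
    rw [haF, hcF]
    push_cast
    ring
  have hor : ∀ P : X.primeDivisors, (∀ x : K, P.1 (algebraMap K L x) = 0) →
      ∀ (v : DVal k L') (ε : ℕ), LiesOver v P.1 ε →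
        ε = 1 ∧ v (Dt s') = aF P - v y := by
    intro P hP v ε hv
    have h1 : ε = 1 := unram (K' := K') hP hv
    have h2 : v.IsOrd (Om k (fun i => algebraMap K K' (yy i)) s') (a P) := by
      have h3 := hord P v ε hv
      rw [h1] at h3
      rw [om_base]
      convert h3 using 1
      push_cast
      ring
    have hyy' : IsTranscendenceBasis k (fun i => algebraMap K K' (yy i)) :=
      hyy.algebraMap_comp (A := K')
    exact ⟨h1, C.ord_u hyy' Dt hDt (triv_ext hP hv) h2⟩
  refine ⟨{ mor := hmor, equi := hequi, tr := ⟨s, hsT, hsA⟩, leg := C.leg, Dt := Dt, Dt_t := hDt,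
            u := Dt s', u_ne := hu, a := aF, c := cF, star := star, hor := hor },
    g, h, hg, hh, ?_, ?_⟩
  · intro P
    rw [haC P]
    change (a P : ℚ) + _ = _ + (a P : ℚ)
    ring
  · intro Q
    rw [hcC Q]
    change (c Q : ℚ) + _ = _ + (c Q : ℚ)
    ring

end Pool.Agent.Helper60.PB
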