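import Pool.Agent.Helper60.PB.G1.EDefs
import Pool.Agent.Helper63.PB.Approx

set_option autoImplicit false
set_option linter.unusedSectionVars false

/-!
# G1-18a NearE: places over the horizontal boundary become rational

`exists_num_e`: a polynomial over `K'` which is positive at all finite places over the horizontal
boundary. `near_of_splits`: if it splits over `K''` and the points over its roots are rational over
`K''`, then all places of `L''` over the horizontal boundary are places at rational points.
-/

namespace Pool.Agent.Helper60.PB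

open Pool.Agent.Helper92.Weak Pool.Agent.Helper92.Ga Pool.Agent.Helper63.PB
open Polynomial

section Num

variable {k K' L₀ L' : Type*} [Field k] [Field K'] [Field L₀] [Field L'] [Algebra k K']
  [Algebra k L₀] [Algebra k L'] [Algebra K' L₀] [Algebra K' L'] [Algebra L₀ L']
  [IsScalarTower k K' L₀] [IsScalarTower k K' L'] [IsScalarTower k L₀ L']
  [IsScalarTower K' L₀ L'] [CharZero k] {t₀ : L₀} {y : L'} {l : K'}

theorem ECurve.isAlgebraic (C : ECurve t₀ y l) : Algebra.IsAlgebraic L₀ L' := by
  have hy : IsAlgebraic L₀ y := by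
    refine ⟨X ^ 2 - Polynomial.C (t₀ * (t₀ - 1) * (t₀ - algebraMap K' L₀ l)), ?_, ?_⟩
    · exact X_pow_sub_C_ne_zero two_pos _
    · simp only [map_sub, map_pow, aeval_X, aeval_C, map_mul, map_one]
      rw [C.leg.eq, ← IsScalarTower.algebraMap_apply K' L₀ L', sub_self]
  constructor
  intro z
  obtain ⟨a, b, rfl⟩ := C.gen z
  exact (isAlgebraic_algebraMap a).add ((isAlgebraic_algebraMap b).mul hy)

/-- A polynomial which is positive at a finite place. -/
theorem ECurve.exists_pos (C : ECurve t₀ y l) {v : DVal k L'}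
    (hv : ∀ x : K', v (algebraMap K' L' x) = 0) (ht : 0 ≤ v (algebraMap L₀ L' t₀)) :
    ∃ f : K'[X], f ≠ 0 ∧ 0 < v (aeval (algebraMap L₀ L' t₀) f) := by
  have := C.isAlgebraic
  obtain ⟨w, n, hw⟩ := exists_under (E := L₀) v
  have hn : (0 : ℤ) < n := by exact_mod_cast hw.1
  have hwK : ∀ x : K', w (algebraMap K' L₀ x) = 0 := by
    intro x
    have h1 := hw.2 (algebraMap K' L₀ x)
    rw [← IsScalarTower.algebraMap_apply K' L₀ L', hv] at h1
    rcases mul_eq_zero.1 h1.symm with h2 | h2
    · omega
    · exact h2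
  have hwt : 0 ≤ w t₀ := by
    rw [hw.2] at ht
    exact nonneg_of_mul_nonneg_right ht hn
  obtain ⟨p, hp, hwp⟩ := exists_pVal C.line w hwK hwt
  refine ⟨p, hp.ne_zero, ?_⟩
  rw [aeval_algebraMap_apply, hw.2, hwp, pVal_self k C.line hp, mul_one]
  exact hn

/-- Polynomials have nonnegative values at finite places. -/
theorem aeval_ge_zero {k K' L' : Type*} [Field k] [Field K'] [Field L'] [Algebra k L']
    [Algebra K' L'] {v : DVal k L'} (hv : ∀ x : K', v (algebraMap K' L' x) = 0) {t : L'}
    (ht : 0 ≤ v t) (f : K'[X]) : v.Ge 0 (aeval t f) := by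
  have ht' : v.Ge 0 t := by
    right
    exact_mod_cast ht
  induction f using Polynomial.induction_on' with
  | add p q hp hq =>
    rw [map_add]
    exact hp.add hq
  | monomial n a =>
    rw [aeval_monomial]
    have h1 : v.Ge 0 (algebraMap K' L' a) := by
      have h2 := v.ge_self (algebraMap K' L' a)
      rw [hv a] at h2
      simpa using h2
    have h2 : v.Ge 0 (t ^ n) := by
      induction n with
      | zero =>
        rw [pow_zero]
        have h2 := v.ge_self (1 : L')
        rw [v.map_one] at h2
        simpa using h2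
      | succ n ih =>
        rw [pow_succ]
        simpa using ih.mul ht'
    simpa using h1.mul h2

/-- A polynomial which is positive at finitely many finite places. -/
theorem ECurve.exists_num (C : ECurve t₀ y l) (T : Finset (DVal k L'))
    (hT : ∀ v ∈ T, ∀ x : K', v (algebraMap K' L' x) = 0) :
    ∃ f : K'[X], f ≠ 0 ∧ ∀ v ∈ T, 0 ≤ v (algebraMap L₀ L' t₀) →
      0 < v (aeval (algebraMap L₀ L' t₀) f) := by
  classical
  have hne : ∀ f : K'[X], f ≠ 0 → aeval (algebraMap L₀ L' t₀) f ≠ 0 := fun f hf h0 =>
    C.leg.tr ⟨f, hf, h0⟩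
  induction T using Finset.induction_on with
  | empty => exact ⟨1, one_ne_zero, fun v hv => absurd hv (Finset.notMem_empty v)⟩
  | insert w T hw ih =>
    obtain ⟨f, hf, hfT⟩ := ih fun v hv => hT v (Finset.mem_insert_of_mem hv)
    by_cases hwt : 0 ≤ w (algebraMap L₀ L' t₀)
    · obtain ⟨p, hp, hwp⟩ := C.exists_pos (hT w (Finset.mem_insert_self w T)) hwt
      refine ⟨p * f, mul_ne_zero hp hf, fun v hv hvt => ?_⟩
      have hn : ∀ g : K'[X], g ≠ 0 → 0 ≤ v (aeval (algebraMap L₀ L' t₀) g) := fun g hg => by
        have h1 := aeval_ge_zero (hT v hv) hvt g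
        rw [DVal.ge_iff (hne g hg)] at h1
        exact_mod_cast h1
      rw [map_mul, v.map_mul (hne p hp) (hne f hf)]
      rcases Finset.mem_insert.1 hv with rfl | hv'
      · have h2 := hn f hf
        omega
      · have h1 := hfT v hv' hvt
        have h2 := hn p hp
        omega
    · refine ⟨f, hf, fun v hv hvt => ?_⟩
      rcases Finset.mem_insert.1 hv with rfl | hv'
      · exact absurd hvt hwt
      · exact hfT v hv' hvt

/-- If a product of linear polynomials is positive at a place, one of them is. -/
theorem exists_root_of_splits {k K' L' : Type*} [Field k] [Field K'] [Field L'] [Algebra k L']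
    [Algebra K' L'] {v : DVal k L'} (hv : ∀ x : K', v (algebraMap K' L' x) = 0) {t : L'}
    (htr : Transcendental K' t) {g : K'[X]} (hg : g ≠ 0) (hs : g.Splits)
    (hpos : 0 < v (aeval t g)) : ∃ b : K', g.IsRoot b ∧ v.Ge 1 (t - algebraMap K' L' b) := by
  by_contra hcon
  push Not at hcon
  have hne : ∀ f : K'[X], f ≠ 0 → aeval t f ≠ 0 := fun f hf h0 => htr ⟨f, hf, h0⟩
  have hlin : ∀ β : K', g.IsRoot β → v (t - algebraMap K' L' β) ≤ 0 := fun β hβ => by
    by_contra h0
    apply hcon β hβ
    right
    have h1 : 1 ≤ v (t - algebraMap K' L' β) := by omega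
    exact_mod_cast h1
  have key : ∀ m : Multiset K', (∀ a ∈ m, g.IsRoot a) →
      v (aeval t (m.map fun a => (X - C a : K'[X])).prod) ≤ 0 := by
    intro m
    induction m using Multiset.induction_on with
    | empty =>
      intro _
      rw [Multiset.map_zero, Multiset.prod_zero, map_one, v.map_one]
    | cons a m ih =>
      intro hm
      have h1 : (X - C a : K'[X]) ≠ 0 := X_sub_C_ne_zero a
      have h2 : (m.map fun a => (X - C a : K'[X])).prod ≠ 0 :=
        (monic_multisetProd_X_sub_C m).ne_zero
      rw [Multiset.map_cons, Multiset.prod_cons, map_mul, v.map_mul (hne _ h1) (hne _ h2)]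
      have h3 := hlin a (hm a (Multiset.mem_cons_self a m))
      have h4 := ih fun b hb => hm b (Multiset.mem_cons_of_mem hb)
      have h5 : aeval t (X - C a : K'[X]) = t - algebraMap K' L' a := by
        rw [map_sub, aeval_X, aeval_C]
      rw [h5]
      omega
  have h4 := key g.roots fun a ha => (mem_roots hg).1 ha
  rw [hs.eq_prod_roots, map_mul, aeval_C, v.map_mul] at hpos
  · rw [hv] at hpos
    omega
  · have := leadingCoeff_ne_zero.2 hg
    intro h0
    exact this ((map_eq_zero_iff _ (algebraMap K' L').injective).1 h0)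
  · exact hne _ (monic_multisetProd_X_sub_C _).ne_zero

/-- A finite place at which `t - b` is positive, `b` with a rational point over it. -/
theorem near_of_pos {k K' L' : Type*} [Field k] [Field K'] [Field L'] [Algebra k L']
    [Algebra K' L'] {t y : L'} {l : K'} (h : Leg t y l) {v : DVal k L'}
    (hv : ∀ x : K', v (algebraMap K' L' x) = 0) {b c : K'}
    (hc : c ^ 2 = b * (b - 1) * (b - l)) (hb : v.Ge 1 (t - algebraMap K' L' b)) :
    ∃ x : K' × K', Near t y v x := by
  have hcc : ∀ x : K', v.Ge 0 (algebraMap K' L' x) := fun x => by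
    have h3 := v.ge_self (algebraMap K' L' x)
    rw [hv x] at h3
    simpa using h3
  have h1' : v.Ge 0 (t - algebraMap K' L' b) := hb.mono zero_le_one
  have ht : v.Ge 0 t := by
    have h3 := h1'.add (hcc b)
    rwa [sub_add_cancel] at h3
  have h4 : v.Ge 1 ((t - algebraMap K' L' b) * (t ^ 2 + t * algebraMap K' L' b +
      algebraMap K' L' b ^ 2 - (1 + algebraMap K' L' l) * (t + algebraMap K' L' b) +
      algebraMap K' L' l)) := by
    have e1 : v.Ge 0 (t ^ 2) := by
      rw [pow_two]
      simpa using ht.mul ht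
    have e2 : v.Ge 0 (t * algebraMap K' L' b) := by simpa using ht.mul (hcc b)
    have e3 : v.Ge 0 (algebraMap K' L' b ^ 2) := by
      rw [pow_two]
      simpa using (hcc b).mul (hcc b)
    have e4 : v.Ge 0 ((1 + algebraMap K' L' l) * (t + algebraMap K' L' b)) := by
      have e5 : v.Ge 0 (1 + algebraMap K' L' l) := by
        have := (hcc 1).add (hcc l)
        rwa [map_one] at this
      simpa using e5.mul (ht.add (hcc b))
    have h5 := hb.mul ((((e1.add e2).add e3).sub e4).add (hcc l))
    rwa [add_zero] at h5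
  have h5 : (t - algebraMap K' L' b) * (t ^ 2 + t * algebraMap K' L' b +
      algebraMap K' L' b ^ 2 - (1 + algebraMap K' L' l) * (t + algebraMap K' L' b) +
      algebraMap K' L' l) = (y - algebraMap K' L' c) * (y + algebraMap K' L' c) := by
    have hc' : (algebraMap K' L' c) ^ 2 = algebraMap K' L' b * (algebraMap K' L' b - 1) *
        (algebraMap K' L' b - algebraMap K' L' l) := by
      have h6 := congrArg (algebraMap K' L') hc
      simpa using h6
    linear_combination -h.eq + hc'
  rw [h5] at h4
  by_cases h6 : v.Ge 1 (y - algebraMap K' L' c)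
  · exact ⟨(b, c), hb, h6⟩
  · refine ⟨(b, -c), hb, ?_⟩
    change v.Ge 1 (y - algebraMap K' L' (-c))
    rw [map_neg, sub_neg_eq_add]
    by_contra h7
    unfold DVal.Ge at h6 h7
    push Not at h6 h7
    obtain ⟨h6, h6'⟩ := h6
    obtain ⟨h7, h7'⟩ := h7
    rw [DVal.ge_iff (mul_ne_zero h6 h7), v.map_mul h6 h7] at h4
    have e1 : v (y - algebraMap K' L' c) < 1 := by exact_mod_cast h6'
    have e2 : v (y + algebraMap K' L' c) < 1 := by exact_mod_cast h7'
    have e3 : 1 ≤ v (y - algebraMap K' L' c) + v (y + algebraMap K' L' c) := by exact_mod_cast h4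
    omega

end Num

section Near

variable {k K L K' L' K'' L'' : Type*} [Field k] [Field K] [Field L] [Field K'] [Field L']
  [Field K''] [Field L''] [Algebra k K'] [Algebra k L] [Algebra k L'] [Algebra k L'']
  [Algebra K L] [Algebra K K''] [Algebra K L''] [Algebra L L'] [Algebra L L''] [Algebra K' K'']
  [Algebra K' L'] [Algebra L' L''] [Algebra K' L''] [Algebra K'' L'']
  [IsScalarTower k L L''] [IsScalarTower k L' L''] [IsScalarTower K L L'']
  [IsScalarTower K K'' L''] [IsScalarTower L L' L''] [IsScalarTower K' K'' L'']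
  [IsScalarTower K' L' L''] [FiniteDimensional K K''] [FiniteDimensional L' L'']
  {t y : L'} {l : K'}

theorem near_of_splits
    (h'' : Leg (algebraMap L' L'' t) (algebraMap L' L'' y) (algebraMap K' K'' l))
    {f : K'[X]} (hs : (f.map (algebraMap K' K'')).Splits) (hf : f ≠ 0)
    (hsq : ∀ b : K'', (f.map (algebraMap K' K'')).IsRoot b →
      ∃ c : K'', c ^ 2 = b * (b - 1) * (b - algebraMap K' K'' l))
    {P : DVal k L} (hP : ∀ x : K, P (algebraMap K L x) = 0)
    (hPf : ∀ (v : DVal k L') (ε : ℕ), LiesOver v P ε → 0 ≤ v t → 0 < v (aeval t f))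
    (w : DVal k L'') (ε : ℕ) (hw : LiesOver w P ε) :
    w (algebraMap L' L'' t) < 0 ∨
      ∃ x : K'' × K'', Near (algebraMap L' L'' t) (algebraMap L' L'' y) w x := by
  have hwt : ∀ x : K'', w (algebraMap K'' L'' x) = 0 := triv_ext hP hw
  obtain ⟨v, ε', hv⟩ := exists_under (E := L') w
  obtain ⟨e, hve, -⟩ := under_factor hv hw
  by_cases ht : w (algebraMap L' L'' t) < 0
  · exact Or.inl ht
  · have ht' := not_lt.1 ht
    have hε : (0 : ℤ) < ε' := by exact_mod_cast hv.1
    have hvt : 0 ≤ v t := by
      have h1 := hv.2 t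
      by_contra h0
      have h2 := mul_neg_of_pos_of_neg hε (not_le.1 h0)
      omega
    have h1 := hPf v e hve hvt
    have h2 : 0 < w (aeval (algebraMap L' L'' t) (f.map (algebraMap K' K''))) := by
      rw [aeval_map_algebraMap, aeval_algebraMap_apply, hv.2]
      exact mul_pos hε h1
    obtain ⟨b, hb, hb'⟩ := exists_root_of_splits hwt h''.tr
      ((Polynomial.map_ne_zero_iff (algebraMap K' K'').injective).2 hf) hs h2
    obtain ⟨c, hc⟩ := hsq b hb
    exact Or.inr (near_of_pos h'' hwt hc hb')

end Near

end Pool.Agent.Helper60.PB
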