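import Pool.Agent.Helper60.PB.G1.ValTab
import Pool.Agent.Helper60.PB.G1.ETrace
import Pool.Agent.Helper63.PB.Unram

set_option autoImplicit false

/-!
# G1-10 PolE: functions with poles only at the origin

`F ∈ L'` with `v F ≥ 0` at all places (`v` trivial on `K'`) with `v t ≥ 0`, and `v F ≥ -n` at those with
`v t < 0`. Then `F = p₀(t) + p₁(t) y` with polynomials of degree at most `n`.

PROOF. `F = a + b y` (`C.gen`). `L' / L₀` is finite (`C.finite`), `f = t₀ (t₀ - 1) (t₀ - l) ∈ L₀`, `y ^ 2 = f`.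
`trace F = 2 a`, `trace (F y) = trace (b f + a y) = 2 b f` (`trace_eq`). Let `w = pVal p` be a place of `L₀`;
every `v` over `w` is trivial on `K'` and `v t ≥ 0`, `v y ≥ 0`, so `v F ≥ 0` and `v (F y) ≥ 0`, and
`Helper47.PQ.trace_ge` (with `q = 0`) gives `w a ≥ 0`, `w (b f) ≥ 0` (constants have value zero). So
`a = p₀(t₀)` (`exists_poly_of_nonneg`). If `w f = 0` then `w b ≥ 0`. If `w f ≥ 1` then `p` divides
`X (X - 1) (X - C l)`, so `w = pVal (X - C r)` for a root `r`, `w f = 1` (the other factors are units), and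
`2 v y = ε w f > 0` so `v y ≥ 1` for all `v` over `w`, so `v (F y) ≥ 1` for all of them, and `w (b f) ≥ 1` by
`Helper63.PB.trace_pos`; so `w b ≥ 0`. Hence `b = p₁(t₀)`.
Degrees: `w = infVal`, `v` over `w` with ramification `ε ≥ 1`: `v F ≥ -n ≥ -ε n`, so `w a ≥ -n`
(`trace_ge` with `q = -n`), `w a = -natDegree p₀` (`infVal_aeval`). `2 v y = 3 v t = -3 ε`, so
`v (F y) ≥ -n - 3 ε / 2 ≥ ε (-n - 2)`, so `w (b f) ≥ -n - 2`, `w f = -3`, `w b ≥ 1 - n`: `natDegree p₁ ≤ n - 1`
or `p₁ = 0`.
-/

namespace Pool.Agent.Helper60.PB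

open Pool.Agent.Helper92.Weak Pool.Agent.Helper92.Ga Pool.Agent.Helper63.PB

variable {k K' L₀ L' : Type*} [Field k] [Field K'] [Field L₀] [Field L'] [Algebra k K']
  [Algebra k L₀] [Algebra k L'] [Algebra K' L₀] [Algebra K' L'] [Algebra L₀ L']
  [IsScalarTower k K' L₀] [IsScalarTower k K' L'] [IsScalarTower k L₀ L']
  [IsScalarTower K' L₀ L'] [CharZero k] {t₀ : L₀} {y : L'} {l : K'}

omit [IsScalarTower k K' L'] [IsScalarTower k L₀ L'] [Algebra k L'] [Algebra K' L'] [Algebra L₀ L']
  [IsScalarTower K' L₀ L'] in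
/-- The cubic as a polynomial. -/
private theorem g1p_cubic (t₀ : L₀) (l : K') : Polynomial.aeval t₀ ((Polynomial.X - Polynomial.C (0 : K')) *
      (Polynomial.X - Polynomial.C 1) * (Polynomial.X - Polynomial.C l)) =
      t₀ * (t₀ - 1) * (t₀ - algebraMap K' L₀ l) := by
  simp

/-- Values of the cubic at a finite place. -/
private theorem g1p_le_one (h : IsLine K' t₀) (l0 : l ≠ 0) (l1 : l ≠ 1) {p : Polynomial K'}
    (hp : Prime p) (hd : 0 < pVal k h p hp (Polynomial.aeval t₀ ((Polynomial.X - Polynomial.C (0 : K')) *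
      (Polynomial.X - Polynomial.C 1) * (Polynomial.X - Polynomial.C l)))) :
    pVal k h p hp (Polynomial.aeval t₀ ((Polynomial.X - Polynomial.C (0 : K')) *
      (Polynomial.X - Polynomial.C 1) * (Polynomial.X - Polynomial.C l))) = 1 := by
  have hne : ∀ r : K', (Polynomial.aeval t₀ (Polynomial.X - Polynomial.C r)) ≠ 0 := fun r =>
    h.aeval_ne (Polynomial.X_sub_C_ne_zero r)
  have hmul : ∀ r s q : K', pVal k h p hp (Polynomial.aeval t₀ ((Polynomial.X - Polynomial.C r) *
      (Polynomial.X - Polynomial.C s) * (Polynomial.X - Polynomial.C q))) =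
      pVal k h p hp (Polynomial.aeval t₀ (Polynomial.X - Polynomial.C r)) +
      pVal k h p hp (Polynomial.aeval t₀ (Polynomial.X - Polynomial.C s)) +
      pVal k h p hp (Polynomial.aeval t₀ (Polynomial.X - Polynomial.C q)) := by
    intro r s q
    rw [map_mul, map_mul, DVal.map_mul _ (mul_ne_zero (hne r) (hne s)) (hne q),
      DVal.map_mul _ (hne r) (hne s)]
  have h1 : ∀ r : K', p ∣ Polynomial.X - Polynomial.C r →
      pVal k h p hp (Polynomial.aeval t₀ (Polynomial.X - Polynomial.C r)) = 1 := by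
    intro r hr
    have hq : Prime (Polynomial.X - Polynomial.C r) := Polynomial.prime_X_sub_C r
    have h2 : (Polynomial.X - Polynomial.C r) ∣ p :=
      ((hp.dvd_prime_iff_associated hq).1 hr).symm.dvd
    rw [pVal_eq_of_dvd k h hp hq h2]
    exact pVal_self k h hq
  have h0 : ∀ r : K', ¬ p ∣ Polynomial.X - Polynomial.C r →
      pVal k h p hp (Polynomial.aeval t₀ (Polynomial.X - Polynomial.C r)) = 0 :=
    fun r hr => pVal_eq_zero k h hp hr
  have hdis : ∀ r s : K', r ≠ s → p ∣ Polynomial.X - Polynomial.C r →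
      ¬ p ∣ Polynomial.X - Polynomial.C s := by
    intro r s hrs h2 h3
    have h4 := dvd_sub h2 h3
    have h5 : (Polynomial.X - Polynomial.C r) - (Polynomial.X - Polynomial.C s) =
        Polynomial.C (s - r) := by
      rw [Polynomial.C_sub]
      ring
    rw [h5] at h4
    have h6 : IsUnit (Polynomial.C (s - r)) :=
      (IsUnit.mk0 _ (sub_ne_zero.2 hrs.symm)).map Polynomial.C
    exact hp.not_isUnit (isUnit_of_dvd_unit h4 h6)
  rw [hmul] at hd ⊢
  by_cases a0 : p ∣ Polynomial.X - Polynomial.C (0 : K')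
  · rw [h1 0 a0, h0 1 (hdis 0 1 zero_ne_one a0), h0 l (hdis 0 l l0.symm a0)]
    rfl
  by_cases a1 : p ∣ Polynomial.X - Polynomial.C (1 : K')
  · rw [h0 0 a0, h1 1 a1, h0 l (hdis 1 l l1.symm a1)]
    rfl
  by_cases a2 : p ∣ Polynomial.X - Polynomial.C l
  · rw [h0 0 a0, h0 1 a1, h1 l a2]
    rfl
  · rw [h0 0 a0, h0 1 a1, h0 l a2] at hd
    exact absurd hd (by norm_num)

theorem ECurve.exists_pair (C : ECurve t₀ y l) {F : L'} {n : ℕ}
    (hfin : ∀ v : DVal k L', (∀ x : K', v (algebraMap K' L' x) = 0) →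
      0 ≤ v (algebraMap L₀ L' t₀) → v.Ge 0 F)
    (hinf : ∀ v : DVal k L', (∀ x : K', v (algebraMap K' L' x) = 0) →
      v (algebraMap L₀ L' t₀) < 0 → v.Ge (-(n : ℚ)) F) :
    ∃ p₀ p₁ : Polynomial K', F = Polynomial.aeval (algebraMap L₀ L' t₀) p₀ +
      Polynomial.aeval (algebraMap L₀ L' t₀) p₁ * y ∧ p₀.natDegree ≤ n ∧ p₁.natDegree ≤ n := by
  classical
  have hfd : FiniteDimensional L₀ L' := C.finite
  obtain ⟨a, b, hF⟩ := C.gen F
  set g : Polynomial K' := (Polynomial.X - Polynomial.C (0 : K')) *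
      (Polynomial.X - Polynomial.C 1) * (Polynomial.X - Polynomial.C l) with hg
  set f : L₀ := Polynomial.aeval t₀ g with hf
  have hf1 : f = t₀ * (t₀ - 1) * (t₀ - algebraMap K' L₀ l) := g1p_cubic t₀ l
  have hg0 : g ≠ 0 := mul_ne_zero (mul_ne_zero (Polynomial.X_sub_C_ne_zero _)
    (Polynomial.X_sub_C_ne_zero _)) (Polynomial.X_sub_C_ne_zero _)
  have hf0 : f ≠ 0 := C.line.aeval_ne hg0
  have hfy : y ^ 2 = algebraMap L₀ L' f := by
    rw [C.leg.eq, hf1, map_mul, map_mul, map_sub, map_sub, map_one,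
      ← IsScalarTower.algebraMap_apply K' L₀ L']
  have htr1 : Algebra.trace L₀ L' F = 2 * a := by rw [hF, C.trace_eq]
  have hFy : F * y = algebraMap L₀ L' (b * f) + algebraMap L₀ L' a * y := by
    rw [hF, map_mul, ← hfy]
    ring
  have htr2 : Algebra.trace L₀ L' (F * y) = 2 * (b * f) := by rw [hFy, C.trace_eq]
  have h2k : (2 : k) ≠ 0 := two_ne_zero
  have half : ∀ (w : DVal k L₀) (q : ℚ) (x : L₀), w.Ge q (2 * x) → w.Ge q x := by
    intro w q x hx
    have h3 := hx.smul ((2 : k)⁻¹)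
    rwa [Algebra.smul_def, map_inv₀, map_ofNat, inv_mul_cancel_left₀] at h3
    have h4 : algebraMap k L₀ (2 : k) ≠ 0 := (_root_.map_ne_zero _).2 h2k
    rwa [map_ofNat] at h4
  have triv : ∀ (w : DVal k L₀) (v : DVal k L') (ε : ℕ), (∀ x : K', w (algebraMap K' L₀ x) = 0) →
      LiesOver v w ε → ∀ x : K', v (algebraMap K' L' x) = 0 := by
    intro w v ε hw hv x
    rw [IsScalarTower.algebraMap_apply K' L₀ L', hv.2, hw, mul_zero]
  have finT : ∀ (p : Polynomial K') (hp : Prime p) (v : DVal k L') (ε : ℕ),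
      LiesOver v (pVal k C.line p hp) ε → 0 ≤ v (algebraMap L₀ L' t₀) := by
    intro p hp v ε hv
    rw [hv.2]
    have h3 := pVal_nonneg k C.line hp Polynomial.X
    rw [Polynomial.aeval_X] at h3
    positivity
  -- the polynomial part
  have ha : ∀ (p : Polynomial K') (hp : Prime p), 0 ≤ pVal k C.line p hp a := by
    intro p hp
    have h3 : (pVal k C.line p hp).Ge ((0 : ℤ) : ℚ) (Algebra.trace L₀ L' F) := by
      apply Pool.Agent.Helper47.PQ.trace_ge
      intro v ε hv
      rw [Int.cast_zero, mul_zero]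
      exact hfin v (triv _ v ε (pVal_algebraMap k C.line hp) hv) (finT p hp v ε hv)
    rw [htr1, Int.cast_zero] at h3
    rcases half _ _ _ h3 with h4 | h4
    · rw [h4]
      simp
    · exact_mod_cast h4
  have hb : ∀ (p : Polynomial K') (hp : Prime p), 0 ≤ pVal k C.line p hp b := by
    intro p hp
    by_cases hb0 : b = 0
    · rw [hb0]
      simp
    have hvt : ∀ (v : DVal k L') (ε : ℕ), LiesOver v (pVal k C.line p hp) ε →
        v.Ge 0 F ∧ 0 ≤ v y := by
      intro v ε hv
      have h5 := triv _ v ε (pVal_algebraMap k C.line hp) hv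
      exact ⟨hfin v h5 (finT p hp v ε hv), C.val_y_nonneg h5 (finT p hp v ε hv)⟩
    have hyy : ∀ (v : DVal k L') (ε : ℕ), LiesOver v (pVal k C.line p hp) ε →
        2 * v y = ε * pVal k C.line p hp f := by
      intro v ε hv
      have h6 := congrArg v hfy
      rw [v.map_pow, hv.2] at h6
      exact_mod_cast h6
    rcases (pVal_nonneg k C.line hp g).eq_or_lt with h3 | h3
    · -- unit
      have h4 : (pVal k C.line p hp).Ge ((0 : ℤ) : ℚ) (Algebra.trace L₀ L' (F * y)) := by
        apply Pool.Agent.Helper47.PQ.trace_ge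
        intro v ε hv
        rw [Int.cast_zero, mul_zero]
        obtain ⟨h5, h6⟩ := hvt v ε hv
        have h7 : v.Ge 0 y := Or.inr (by exact_mod_cast h6)
        have h8 := h5.mul h7
        rwa [add_zero] at h8
      rw [htr2, Int.cast_zero] at h4
      have h5 := half _ _ _ h4
      rw [DVal.ge_iff (mul_ne_zero hb0 hf0), DVal.map_mul _ hb0 hf0] at h5
      have h6 : (0 : ℤ) ≤ pVal k C.line p hp b + pVal k C.line p hp f := by exact_mod_cast h5
      rw [hf, ← h3] at h6
      omega
    · have h4 := g1p_le_one (k := k) C.line C.leg.l0 C.leg.l1 hp h3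
      have h5 : (pVal k C.line p hp).Ge 1 (Algebra.trace L₀ L' (F * y)) := by
        apply trace_pos
        intro v ε hv
        obtain ⟨h5, h6⟩ := hvt v ε hv
        have h7 := hyy v ε hv
        rw [hf, hg, h4] at h7
        have h8 := hv.1
        have h9 : 1 ≤ v y := by omega
        have h10 : v.Ge 1 y := Or.inr (by exact_mod_cast h9)
        have h11 := h5.mul h10
        rwa [zero_add] at h11
      rw [htr2] at h5
      have h6 := half _ _ _ h5
      rw [DVal.ge_iff (mul_ne_zero hb0 hf0), DVal.map_mul _ hb0 hf0] at h6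
      have h7 : (1 : ℤ) ≤ pVal k C.line p hp b + pVal k C.line p hp f := by exact_mod_cast h6
      rw [hf, hg, h4] at h7
      omega
  obtain ⟨p₀, hp₀⟩ := exists_poly_of_nonneg k C.line ha
  obtain ⟨p₁, hp₁⟩ := exists_poly_of_nonneg k C.line hb
  -- the place at infinity
  have hw : ∀ x : K', infVal k C.line (algebraMap K' L₀ x) = 0 := infVal_algebraMap C.line
  have infT : ∀ (v : DVal k L') (ε : ℕ), LiesOver v (infVal k C.line) ε →
      v (algebraMap L₀ L' t₀) = -ε := by
    intro v ε hv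
    rw [hv.2, infVal_t]
    ring
  refine ⟨p₀, p₁, ?_, ?_, ?_⟩
  · rw [hF, hp₀, hp₁, Polynomial.aeval_algebraMap_apply, Polynomial.aeval_algebraMap_apply]
  · by_cases h0 : p₀ = 0
    · rw [h0]
      simp
    have h3 : (infVal k C.line).Ge ((-(n : ℤ) : ℤ) : ℚ) (Algebra.trace L₀ L' F) := by
      apply Pool.Agent.Helper47.PQ.trace_ge
      intro v ε hv
      have h4 := hv.1
      have h5 := hinf v (triv _ v ε hw hv) (by rw [infT v ε hv]; omega)
      refine h5.mono ?_
      push_cast
      have h6 : (1 : ℚ) ≤ ε := by exact_mod_cast h4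
      have h7 : (0 : ℚ) ≤ n := by positivity
      nlinarith
    rw [htr1] at h3
    have h4 := half _ _ _ h3
    have ha0 : a ≠ 0 := by
      rw [hp₀]
      exact C.line.aeval_ne h0
    rw [DVal.ge_iff ha0, hp₀, infVal_aeval C.line h0] at h4
    have h5 : -(n : ℤ) ≤ -(p₀.natDegree : ℤ) := by exact_mod_cast h4
    omega
  · by_cases h0 : p₁ = 0
    · rw [h0]
      simp
    have h3 : (infVal k C.line).Ge ((-((n : ℤ) + 2) : ℤ) : ℚ) (Algebra.trace L₀ L' (F * y)) := by
      apply Pool.Agent.Helper47.PQ.trace_ge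
      intro v ε hv
      have h4 := hv.1
      have htv := triv _ v ε hw hv
      have h5 := hinf v htv (by rw [infT v ε hv]; omega)
      obtain ⟨-, h6, h7⟩ := C.val_inf htv (by rw [infT v ε hv]; omega)
      rw [infT v ε hv] at h6
      have hε : ε = 2 := by omega
      have h8 : v.Ge (-3) y := Or.inr (by rw [h7]; norm_num)
      have h9 := h5.mul h8
      refine h9.mono ?_
      rw [hε]
      push_cast
      have h7 : (0 : ℚ) ≤ n := by positivity
      linarith
    rw [htr2] at h3
    have h4 := half _ _ _ h3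
    have hb0 : b ≠ 0 := by
      rw [hp₁]
      exact C.line.aeval_ne h0
    have hdeg : g.natDegree = 3 := by
      rw [hg, Polynomial.natDegree_mul (mul_ne_zero (Polynomial.X_sub_C_ne_zero _)
        (Polynomial.X_sub_C_ne_zero _)) (Polynomial.X_sub_C_ne_zero _),
        Polynomial.natDegree_mul (Polynomial.X_sub_C_ne_zero _) (Polynomial.X_sub_C_ne_zero _),
        Polynomial.natDegree_X_sub_C, Polynomial.natDegree_X_sub_C, Polynomial.natDegree_X_sub_C]
    rw [DVal.ge_iff (mul_ne_zero hb0 hf0), DVal.map_mul _ hb0 hf0, hp₁, infVal_aeval C.line h0, hf,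
      infVal_aeval C.line hg0, hdeg] at h4
    have h5 : -((n : ℤ) + 2) ≤ -(p₁.natDegree : ℤ) + -((3 : ℕ) : ℤ) := by exact_mod_cast h4
    push_cast at h5
    omega

end Pool.Agent.Helper60.PB
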