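import Pool.Agent.Helper60.PB.G1.PolE
import Pool.Agent.Helper63.PB.Approx
import Pool.Agent.Helper63.PB.HorPrimes

set_option autoImplicit false

/-!
# G1-11 SecE: sections are pairs of polynomials

`t` = image of `t₀`. Compare `Helper63.PB.exists_poly_of_sec` (UBpoly.lean).

`exists_hor_under`: every `v` trivial on `K'` lies over a prime divisor `P` of `X` trivial on `K`,
unramified: `exists_under` (`L' / L` algebraic) gives `w` on `L` and `ε`, `w` is trivial on `K` (`ε > 0`), so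
`w ∈ X.primeDivisors` (`hor_mem` with `F.mor`, `F.tr`), and `ε = 1` by `F.hor`.

`esec`: for every divisor `A` on `X` there are a nonzero polynomial `g` over `K'` and `J_A ∈ ℕ` (`g = 1`, `J_A = 0`
if `A = 0`) such that for `f ∈ H⁰(X, m (aD + Δ) + A)` the function `f (u y Ψ) ^ m g(t)` is
`p₀(t) + p₁(t) y` with polynomials of degree `≤ m J + J_A`.
PROOF. `g`: for `P` in the support of `A`, trivial on `K`, and each of the finitely many `v` over `P`
(`finite_above`) with `v t ≥ 0`: `v` lies over `w = pVal p_v` on `L₀` (`exists_under`, `Ga.exists_pVal`), so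
`v (p_v(t)) ≥ 1`. `g = ∏_P ∏_v p_v ^ (⌈|A P|⌉)`. So `v (g(t)) ≥ A P` for all `v` over horizontal `P` with
`v t ≥ 0`. `J_A = 2 deg g + ∑_P ⌈|A P|⌉`.
Let `F' = f (u y Ψ) ^ m g(t)`, `v` trivial on `K'`, over `P` (trivial on `K`, `ε = 1`); `v u = a P - v y` by
`F.hor`. If `f = 0` take `p₀ = p₁ = 0`. `v t ≥ 0`: `v F' ≥ -m (a P + Δ P) - A P + m a P + m Δ P + v (g(t)) ≥ 0`.
`v t < 0`: `v t = -2` (`val_inf`), `v (g(t)) = -2 deg g` (`val_aeval_of_neg` on `L₀`, or estimate),
`v F' ≥ -m (a P + Δ P) - A P + m a P + m (Δ P - J) - 2 deg g ≥ -m J - J_A`. `ECurve.exists_pair`.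
-/

namespace Pool.Agent.Helper60.PB

open Pool.Agent.Helper92.Weak Pool.Agent.Helper92.Ga Pool.Agent.Helper63.PB

variable {k K L K' L₀ L' : Type*} [Field k] [Field K] [Field L] [Field K'] [Field L₀] [Field L']
  [Algebra k K] [Algebra k L] [Algebra k K'] [Algebra k L₀] [Algebra k L'] [Algebra K L]
  [Algebra K K'] [Algebra K L'] [Algebra L L'] [Algebra K' L₀] [Algebra K' L'] [Algebra L₀ L']
  [IsScalarTower k K L] [IsScalarTower k K K'] [IsScalarTower k L L'] [IsScalarTower k K' L₀]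
  [IsScalarTower k K' L'] [IsScalarTower k L₀ L'] [IsScalarTower K' L₀ L'] [IsScalarTower K L L']
  [IsScalarTower K K' L'] [FiniteDimensional K K'] [FiniteDimensional L L'] [CharZero k]
  {X : ProjVar k L} {Z : ProjVar k K} {t₀ : L₀} {y : L'} {l : K'}
  (F : EFrame X Z K' (algebraMap L₀ L' t₀) y l)

omit [Field L₀] [Algebra k L₀] [Algebra K' L₀] [Algebra L₀ L'] [IsScalarTower k K' L₀]
  [IsScalarTower k L₀ L'] [IsScalarTower K' L₀ L'] in
theorem exists_hor_under_e {t : L'} (F : EFrame X Z K' t y l) {v : DVal k L'}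
    (hv : ∀ x : K', v (algebraMap K' L' x) = 0) :
    ∃ P : X.primeDivisors, (∀ x : K, P.1 (algebraMap K L x) = 0) ∧ LiesOver v P.1 1 := by
  have : Algebra.IsAlgebraic L L' := Algebra.IsAlgebraic.of_finite L L'
  obtain ⟨w, ε, hw⟩ := exists_under (E := L) v
  have hK : ∀ x : K, w (algebraMap K L x) = 0 := by
    intro x
    have h1 := hw.2 (algebraMap K L x)
    rw [← IsScalarTower.algebraMap_apply K L L', IsScalarTower.algebraMap_apply K K' L', hv] at h1
    have h2 : (0 : ℤ) < ε := by exact_mod_cast hw.1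
    rcases mul_eq_zero.1 h1.symm with h3 | h3
    · omega
    · exact h3
  obtain ⟨s, -, hs⟩ := F.tr
  have hmem : w ∈ X.primeDivisors := hor_mem F.mor hs hK
  refine ⟨⟨w, hmem⟩, hK, ?_⟩
  have h1 := (F.hor ⟨w, hmem⟩ hK v ε hw).1
  rw [h1] at hw
  exact hw

/-- A polynomial in `t` with positive value at a given finite place. -/
private theorem exists_pos (C : ECurve t₀ y l) {v : DVal k L'}
    (hv : ∀ x : K', v (algebraMap K' L' x) = 0) (ht : 0 ≤ v (algebraMap L₀ L' t₀)) :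
    ∃ p : Polynomial K', p ≠ 0 ∧ 1 ≤ v (Polynomial.aeval (algebraMap L₀ L' t₀) p) := by
  have : FiniteDimensional L₀ L' := C.finite
  have : Algebra.IsAlgebraic L₀ L' := Algebra.IsAlgebraic.of_finite L₀ L'
  obtain ⟨w, n, hw⟩ := exists_under (E := L₀) v
  have hn : (0 : ℤ) < n := by exact_mod_cast hw.1
  have hwK : ∀ x : K', w (algebraMap K' L₀ x) = 0 := by
    intro x
    have h1 := hw.2 (algebraMap K' L₀ x)
    rw [← IsScalarTower.algebraMap_apply K' L₀ L', hv] at h1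
    rcases mul_eq_zero.1 h1.symm with h3 | h3
    · omega
    · exact h3
  have hwt : 0 ≤ w t₀ := by
    rw [hw.2] at ht
    exact nonneg_of_mul_nonneg_right ht hn
  obtain ⟨p, hp, hwp⟩ := exists_pVal C.line w hwK hwt
  refine ⟨p, hp.ne_zero, ?_⟩
  rw [Polynomial.aeval_algebraMap_apply, hw.2, hwp, pVal_self, mul_one]
  omega

theorem esec (C : ECurve t₀ y l) {Δ : X.Div} {J : ℕ} {Ψ : L'} (hΨ : Ψ ≠ 0)
    (hfin : ∀ P : X.primeDivisors, (∀ x : K, P.1 (algebraMap K L x) = 0) → ∀ v : DVal k L',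
      LiesOver v P.1 1 → 0 ≤ v (algebraMap L₀ L' t₀) → Δ P ≤ v Ψ)
    (hinf : ∀ P : X.primeDivisors, (∀ x : K, P.1 (algebraMap K L x) = 0) → ∀ v : DVal k L',
      LiesOver v P.1 1 → v (algebraMap L₀ L' t₀) < 0 → Δ P - J ≤ v Ψ) (A : X.Div) :
    ∃ (g : Polynomial K') (JA : ℕ), g ≠ 0 ∧ (A = 0 → g = 1 ∧ JA = 0) ∧ ∀ (m : ℕ) (f : L),
      f ∈ X.H0 ((m : ℚ) • (F.aD + Δ) + A) → ∃ p₀ p₁ : Polynomial K',
        algebraMap L L' f * (F.u * y * Ψ) ^ m * Polynomial.aeval (algebraMap L₀ L' t₀) g =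
          Polynomial.aeval (algebraMap L₀ L' t₀) p₀ +
            Polynomial.aeval (algebraMap L₀ L' t₀) p₁ * y ∧
        p₀.natDegree ≤ m * J + JA ∧ p₁.natDegree ≤ m * J + JA := by
  classical
  have hne : ∀ {b : Polynomial K'}, b ≠ 0 → Polynomial.aeval (algebraMap L₀ L' t₀) b ≠ 0 := fun {b} hb h0 =>
    C.leg.tr ⟨b, hb, h0⟩
  have hnn : ∀ v : DVal k L', (∀ x : K', v (algebraMap K' L' x) = 0) → 0 ≤ v (algebraMap L₀ L' t₀) →
      ∀ b : Polynomial K', 0 ≤ v (Polynomial.aeval (algebraMap L₀ L' t₀) b) := by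
    intro v hv ht b
    have h1 : Polynomial.aeval (algebraMap L₀ L' t₀) b ∈ v.ring :=
      aeval_mem_of (R := v.ring) (fun a => by rw [DVal.mem_ring, hv]) (by rwa [DVal.mem_ring]) b
    rwa [DVal.mem_ring] at h1
  have hb : ∀ v : DVal k L', ∃ p : Polynomial K', p ≠ 0 ∧
      ((∀ x : K', v (algebraMap K' L' x) = 0) → 0 ≤ v (algebraMap L₀ L' t₀) → 1 ≤ v (Polynomial.aeval (algebraMap L₀ L' t₀) p)) := by
    intro v
    by_cases hv : (∀ x : K', v (algebraMap K' L' x) = 0) ∧ 0 ≤ v (algebraMap L₀ L' t₀)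
    · obtain ⟨p, hp0, hp⟩ := exists_pos C hv.1 hv.2
      exact ⟨p, hp0, fun _ _ => hp⟩
    · exact ⟨1, one_ne_zero, fun h1 h2 => absurd ⟨h1, h2⟩ hv⟩
  choose b hb0 hb1 using hb
  have hex : ∀ P : X.primeDivisors, ∃ a : Polynomial K', a ≠ 0 ∧ ∀ v : DVal k L',
      LiesOver v P.1 1 → (∀ x : K', v (algebraMap K' L' x) = 0) → 0 ≤ v (algebraMap L₀ L' t₀) →
        1 ≤ v (Polynomial.aeval (algebraMap L₀ L' t₀) a) := by
    intro P
    have hfinP := finite_above (E' := L') P.1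
    refine ⟨∏ w ∈ hfinP.toFinset, b w, Finset.prod_ne_zero_iff.2 fun w _ => hb0 w,
      fun v hv hvK ht => ?_⟩
    have hmem : v ∈ hfinP.toFinset := by
      rw [Set.Finite.mem_toFinset]
      exact ⟨1, hv⟩
    rw [map_prod, v.map_prod _ _ fun w _ => hne (hb0 w)]
    have h3 := Finset.single_le_sum (f := fun w => v (Polynomial.aeval (algebraMap L₀ L' t₀) (b w)))
      (fun w _ => hnn v hvK ht (b w)) hmem
    exact (hb1 v hvK ht).trans h3
  choose a ha0 ha using hex
  let n : X.primeDivisors → ℕ := fun P => ⌈|A P|⌉₊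
  have hn : ∀ P, A P ≤ n P := fun P => (le_abs_self _).trans (Nat.le_ceil _)
  let g : Polynomial K' := ∏ P ∈ A.support, a P ^ n P
  have hg0 : g ≠ 0 := Finset.prod_ne_zero_iff.2 fun P _ => pow_ne_zero _ (ha0 P)
  have hG0 : Polynomial.aeval (algebraMap L₀ L' t₀) g ≠ 0 := hne hg0
  have hG : ∀ (P : X.primeDivisors) (v : DVal k L'), LiesOver v P.1 1 →
      (∀ x : K', v (algebraMap K' L' x) = 0) → 0 ≤ v (algebraMap L₀ L' t₀) → A P ≤ v (Polynomial.aeval (algebraMap L₀ L' t₀) g) := by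
    intro P v hv hvK ht
    have h1 : v (Polynomial.aeval (algebraMap L₀ L' t₀) g) =
        ∑ Q ∈ A.support, (n Q : ℤ) * v (Polynomial.aeval (algebraMap L₀ L' t₀) (a Q)) := by
      change v (Polynomial.aeval (algebraMap L₀ L' t₀) (∏ P ∈ A.support, a P ^ n P)) = _
      rw [map_prod, v.map_prod _ _ fun Q _ => by
        rw [map_pow]
        exact pow_ne_zero _ (hne (ha0 Q))]
      refine Finset.sum_congr rfl fun Q _ => ?_
      rw [map_pow, v.map_pow]
    have h2 : ∀ Q ∈ A.support, 0 ≤ (n Q : ℤ) * v (Polynomial.aeval (algebraMap L₀ L' t₀) (a Q)) := fun Q _ =>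
      mul_nonneg (Int.natCast_nonneg _) (hnn v hvK ht _)
    by_cases hP : P ∈ A.support
    · have h3 := Finset.single_le_sum h2 hP
      have h4 : (1 : ℤ) ≤ v (Polynomial.aeval (algebraMap L₀ L' t₀) (a P)) := ha P v hv hvK ht
      have h5 : (n P : ℤ) ≤ n P * v (Polynomial.aeval (algebraMap L₀ L' t₀) (a P)) := by
        have h6 : (0 : ℤ) ≤ n P := Int.natCast_nonneg _
        nlinarith
      rw [← h1] at h3
      have h7 : ((n P : ℤ) : ℚ) ≤ v (Polynomial.aeval (algebraMap L₀ L' t₀) g) := by exact_mod_cast h5.trans h3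
      refine (hn P).trans ?_
      exact_mod_cast h7
    · have h3 : A P = 0 := Finsupp.notMem_support_iff.1 hP
      rw [h3, h1]
      exact_mod_cast Finset.sum_nonneg h2
  have hAn : ∀ P : X.primeDivisors, A P ≤ ((∑ Q ∈ A.support, n Q : ℕ) : ℚ) := by
    intro P
    by_cases hP : P ∈ A.support
    · refine (hn P).trans ?_
      exact_mod_cast Finset.single_le_sum (f := n) (fun Q _ => Nat.zero_le _) hP
    · have h3 : A P = 0 := Finsupp.notMem_support_iff.1 hP
      rw [h3]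
      exact Nat.cast_nonneg _
  refine ⟨g, 2 * g.natDegree + ∑ Q ∈ A.support, n Q, hg0, ?_, ?_⟩
  · intro hA
    have hs : A.support = ∅ := by rw [hA, Finsupp.support_zero]
    have hg1 : g = 1 := by
      change ∏ P ∈ A.support, a P ^ n P = 1
      rw [hs, Finset.prod_empty]
    rw [hg1, hs, Finset.sum_empty, Polynomial.natDegree_one]
    exact ⟨rfl, rfl⟩
  · intro m f hf
    by_cases hf0 : f = 0
    · refine ⟨0, 0, ?_, ?_, ?_⟩
      · rw [hf0, map_zero, zero_mul, zero_mul, map_zero, zero_mul, add_zero]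
      · rw [Polynomial.natDegree_zero]; exact Nat.zero_le _
      · rw [Polynomial.natDegree_zero]; exact Nat.zero_le _
    rw [Pool.Agent.Helper60.MA.mem_H0] at hf
    have hf0' : algebraMap L L' f ≠ 0 := (map_ne_zero _).2 hf0
    have huy : F.u * y ≠ 0 := mul_ne_zero F.u_ne C.leg.y0
    have huyΨ : F.u * y * Ψ ≠ 0 := mul_ne_zero huy hΨ
    have hF0 : algebraMap L L' f * (F.u * y * Ψ) ^ m * Polynomial.aeval (algebraMap L₀ L' t₀) g ≠ 0 :=
      mul_ne_zero (mul_ne_zero hf0' (pow_ne_zero m huyΨ)) hG0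
    have hvF : ∀ v : DVal k L',
        v (algebraMap L L' f * (F.u * y * Ψ) ^ m * Polynomial.aeval (algebraMap L₀ L' t₀) g) =
          v (algebraMap L L' f) + m * (v F.u + v y + v Ψ) + v (Polynomial.aeval (algebraMap L₀ L' t₀) g) := by
      intro v
      rw [v.map_mul (mul_ne_zero hf0' (pow_ne_zero m huyΨ)) hG0,
        v.map_mul hf0' (pow_ne_zero m huyΨ), v.map_pow, v.map_mul huy hΨ,
        v.map_mul F.u_ne C.leg.y0]
    have hvf : ∀ (P : X.primeDivisors) (v : DVal k L'), LiesOver v P.1 1 →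
        -((m : ℚ) * (F.a P + Δ P) + A P) ≤ (v (algebraMap L L' f) : ℚ) := by
      intro P v hv
      have h1 := hf P
      rw [DVal.ge_iff hf0, Finsupp.add_apply, Finsupp.smul_apply, Finsupp.add_apply,
        EFrame.aD_apply, smul_eq_mul] at h1
      have h2 := hv.2 f
      rw [Nat.cast_one, one_mul] at h2
      rw [h2]
      exact h1
    refine C.exists_pair (k := k) (fun v hvK ht => ?_) (fun v hvK ht => ?_)
    · obtain ⟨P, hPK, hvP⟩ := exists_hor_under_e F hvK
      have h1 := (F.hor P hPK v 1 hvP).2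
      have h2 := hfin P hPK v hvP ht
      have h3 := hG P v hvP hvK ht
      have h4 := hvf P v hvP
      rw [DVal.ge_iff hF0, hvF, h1]
      push_cast
      have h6 : (m : ℚ) * Δ P ≤ m * v Ψ := mul_le_mul_of_nonneg_left h2 (Nat.cast_nonneg m)
      linarith
    · obtain ⟨P, hPK, hvP⟩ := exists_hor_under_e F hvK
      have h1 := (F.hor P hPK v 1 hvP).2
      have h2 := hinf P hPK v hvP ht
      have h3 : v (Polynomial.aeval (algebraMap L₀ L' t₀) g) = 2 * -(g.natDegree : ℤ) := by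
        rw [Polynomial.aeval_algebraMap_apply, (C.val_inf hvK ht).1.2, infVal_aeval C.line hg0]
        norm_num
      have h4 := hvf P v hvP
      have h5 := hAn P
      rw [DVal.ge_iff hF0, hvF, h1, h3]
      push_cast at h5 ⊢
      have h6 : (m : ℚ) * (Δ P - J) ≤ m * v Ψ := mul_le_mul_of_nonneg_left h2 (Nat.cast_nonneg m)
      linarith

end Pool.Agent.Helper60.PB
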