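import Pool.Agent.Helper60.PB.G1.EMain
import Pool.Agent.Helper60.PB.G1.EUniq
import Pool.Agent.Helper60.PB.G1.MkE
import Pool.Agent.Helper92.Ga.Final

set_option autoImplicit false
set_option linter.unusedSectionVars false

/-!
# G1-19 SplitE: the comparison theorem when the boundary splits over `K'`
-/

namespace Pool.Agent.Helper60.PB

open Pool.Agent.Helper92.Weak Pool.Agent.Helper92.Ga Pool.Agent.Helper63.PB

section

variable {k K' L' : Type*} [Field k] [Field K'] [Field L'] [Algebra k L'] [Algebra K' L']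
  {t y : L'} {l : K'}

theorem eq_zero_of_ge_one {v : DVal k L'} (hv : ∀ x : K', v (algebraMap K' L' x) = 0) {a : K'}
    (h : v.Ge 1 (algebraMap K' L' a)) : a = 0 := by
  rcases h with h | h
  · exact (map_eq_zero _).1 h
  · rw [hv a] at h
    norm_num at h

/-- A point near a place is unique. -/
theorem near_eq {v : DVal k L'} (hv : ∀ x : K', v (algebraMap K' L' x) = 0)
    {p p' : K' × K'} (hp : Near t y v p) (hp' : Near t y v p') : p = p' := by
  have h1 : p.1 = p'.1 := by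
    have h2 := hp'.1.sub hp.1
    have h3 : t - algebraMap K' L' p'.1 - (t - algebraMap K' L' p.1) =
        algebraMap K' L' (p.1 - p'.1) := by
      rw [map_sub]
      ring
    rw [h3] at h2
    exact sub_eq_zero.1 (eq_zero_of_ge_one hv h2)
  have h2 : p.2 = p'.2 := by
    have h2 := hp'.2.sub hp.2
    have h3 : y - algebraMap K' L' p'.2 - (y - algebraMap K' L' p.2) =
        algebraMap K' L' (p.2 - p'.2) := by
      rw [map_sub]
      ring
    rw [h3] at h2
    exact sub_eq_zero.1 (eq_zero_of_ge_one hv h2)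
  exact Prod.ext h1 h2

/-- A point near a place lies on the curve. -/
theorem onE_of_near (h : Leg t y l) {v : DVal k L'}
    (hv : ∀ x : K', v (algebraMap K' L' x) = 0) {p : K' × K'} (hp : Near t y v p) : OnE l p := by
  obtain ⟨b, c⟩ := p
  obtain ⟨h1, h2⟩ := hp
  change v.Ge 1 (t - algebraMap K' L' b) at h1
  change v.Ge 1 (y - algebraMap K' L' c) at h2
  have hc : ∀ x : K', v.Ge 0 (algebraMap K' L' x) := fun x => by
    have h3 := v.ge_self (algebraMap K' L' x)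
    rw [hv x] at h3
    simpa using h3
  have h1' : v.Ge 0 (t - algebraMap K' L' b) := h1.mono zero_le_one
  have h2' : v.Ge 0 (y - algebraMap K' L' c) := h2.mono zero_le_one
  have ht : v.Ge 0 t := by
    have h3 := h1'.add (hc b)
    rwa [sub_add_cancel] at h3
  have hy : v.Ge 0 y := by
    have h3 := h2'.add (hc c)
    rwa [sub_add_cancel] at h3
  -- `y ^ 2 - c ^ 2`
  have h3 : v.Ge 1 ((y - algebraMap K' L' c) * (y + algebraMap K' L' c)) := by
    have h4 := h2.mul (hy.add (hc c))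
    rwa [add_zero] at h4
  have h4 : v.Ge 1 ((t - algebraMap K' L' b) * (t ^ 2 + t * algebraMap K' L' b +
      algebraMap K' L' b ^ 2 - (1 + algebraMap K' L' l) * (t + algebraMap K' L' b) +
      algebraMap K' L' l)) := by
    have e1 : v.Ge 0 (t ^ 2) := by
      rw [pow_two]
      simpa using ht.mul ht
    have e2 : v.Ge 0 (t * algebraMap K' L' b) := by simpa using ht.mul (hc b)
    have e3 : v.Ge 0 (algebraMap K' L' b ^ 2) := by
      rw [pow_two]
      simpa using (hc b).mul (hc b)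
    have e4 : v.Ge 0 ((1 + algebraMap K' L' l) * (t + algebraMap K' L' b)) := by
      have e5 : v.Ge 0 (1 + algebraMap K' L' l) := by
        have := (hc 1).add (hc l)
        rwa [map_one] at this
      simpa using e5.mul (ht.add (hc b))
    have h5 := h1.mul ((((e1.add e2).add e3).sub e4).add (hc l))
    rwa [add_zero] at h5
  have h5 := h4.sub h3
  have h6 : (t - algebraMap K' L' b) * (t ^ 2 + t * algebraMap K' L' b +
      algebraMap K' L' b ^ 2 - (1 + algebraMap K' L' l) * (t + algebraMap K' L' b) +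
      algebraMap K' L' l) - (y - algebraMap K' L' c) * (y + algebraMap K' L' c) =
      algebraMap K' L' (c ^ 2 - b * (b - 1) * (b - l)) := by
    simp only [map_sub, map_mul, map_pow, map_one]
    linear_combination -h.eq
  rw [h6] at h5
  exact sub_eq_zero.1 (eq_zero_of_ge_one hv h5)

end

variable {k K L K' L' : Type*} [Field k] [Field K] [Field L] [Field K'] [Field L']
  [Algebra k K] [Algebra k L] [Algebra k K'] [Algebra k L'] [Algebra K L] [Algebra K K']
  [Algebra K L'] [Algebra L L'] [Algebra K' L'] [IsScalarTower k K L] [IsScalarTower k K K']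
  [IsScalarTower k K L'] [IsScalarTower k L L'] [IsScalarTower k K' L'] [IsScalarTower K L L']
  [IsScalarTower K K' L'] [FiniteDimensional K K'] [FiniteDimensional L L']
  [Algebra.IsPushout K K' L L'] [CharZero k] [IsAlgClosed k]
  {X : ProjVar k L} {Z : ProjVar k K}

omit [IsAlgClosed k] [CharZero k] [Algebra.IsPushout K K' L L'] [FiniteDimensional L L']
  [FiniteDimensional K K'] [IsScalarTower K K' L'] [IsScalarTower K L L'] [IsScalarTower k K' L']
  [IsScalarTower k L L'] [IsScalarTower k K L'] [IsScalarTower k K K'] [IsScalarTower k K L]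
  [Algebra K' L'] [Algebra L L'] [Algebra K L'] [Algebra K K'] [Algebra K L] [Algebra k L']
  [Algebra k K'] [Algebra k L] [Field L'] [Field K'] [Field L] in
/-- A pluricanonical form (the same as `Helper63.PB.exists_pluri`). -/
theorem exists_pluri_e {D : Z.Div} (hκ : Z.kod D ≠ ⊥) : ∃ m : ℕ, 0 < m ∧ ∃ η : K, η ≠ 0 ∧
      ∀ Q : Z.primeDivisors, 0 ≤ (Q.1 η : ℚ) + m * D Q := by
  have hne : ¬ ∀ m : ℕ, 1 ≤ m → Z.h0 ((m : ℚ) • D) = 0 := by
    intro h
    apply hκ
    unfold ProjVar.kod kodDim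
    rw [if_pos h]
  push Not at hne
  obtain ⟨m, hm, hm2⟩ := hne
  have h5 : sdim (Z.H0 ((m : ℚ) • D)) ≠ 0 := by
    intro h0
    have := Z.h0_le ((m : ℚ) • D)
    rw [h0] at this
    exact hm2 (le_antisymm this zero_le)
  rw [sdim_ne_zero] at h5
  obtain ⟨η, hη, hη0⟩ := h5
  refine ⟨m, hm, η, hη0, fun Q => ?_⟩
  unfold ProjVar.H0 at hη
  rw [mem_sec_of_ne hη0] at hη
  have h6 := hη Q
  rw [Finsupp.smul_apply, smul_eq_mul] at h6
  exact h6

/-- From a frame to the given divisors. -/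
theorem transfer {d : ℕ} {t y : L'} {l : K'} (F : EFrame X Z K' t y l) {p : X.Pair (d + 1)}
    {q : Z.Pair d} {g : L} {h : K} (hg : g ≠ 0) (hh : h ≠ 0) (hp : ∀ P, p.can P = P.1 g + F.a P)
    (hq : ∀ Q, q.can Q = Q.1 h + F.c Q) {s : ℕ} {B : Finset Z.primeDivisors}
    (key : ∀ ε : ℚ, 0 < ε →
      X.kod (F.aD + p.Δ) = s + Z.kod (F.cD + q.Δ + ε • redDiv B) ∧
      X.nu (F.aD + p.Δ) = s + Z.nu (F.cD + q.Δ + ε • redDiv B)) :
    ∃ B : Z.Div, (∀ Q, 0 ≤ B Q) ∧ ∀ ε : ℚ, 0 < ε →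
      X.kod p.logDiv = s + Z.kod (q.logDiv + ε • B) ∧
      X.nu p.logDiv = s + Z.nu (q.logDiv + ε • B) := by
  have e1 : p.logDiv = (F.aD + p.Δ) + X.prin g := by
    unfold ProjVar.Pair.logDiv
    ext P
    rw [Finsupp.add_apply, Finsupp.add_apply, Finsupp.add_apply, hp, EFrame.aD_apply,
      ProjVar.prin_apply]
    ring
  have e2 : q.logDiv = (F.cD + q.Δ) + Z.prin h := by
    unfold ProjVar.Pair.logDiv
    ext Q
    rw [Finsupp.add_apply, Finsupp.add_apply, Finsupp.add_apply, hq, EFrame.cD_apply,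
      ProjVar.prin_apply]
    ring
  refine ⟨redDiv B, fun Q => ?_, fun ε hε => ?_⟩
  · rw [redDiv_apply]
    split_ifs
    · exact zero_le_one
    · exact le_rfl
  · have e3 : q.logDiv + ε • redDiv B = (F.cD + q.Δ + ε • redDiv B) + Z.prin h := by
      rw [e2]
      abel
    rw [e1, X.kod_add_prin _ hg, X.nu_add_prin _ hg, e3, Z.kod_add_prin _ hh, Z.nu_add_prin _ hh]
    exact key ε hε

theorem exists_pluri_frame {d : ℕ} {t y : L'} {l : K'} (F : EFrame X Z K' t y l)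
    {q : Z.Pair d} {h : K} (hh : h ≠ 0) (hq : ∀ Q, q.can Q = Q.1 h + F.c Q)
    (hκ : Z.kod q.logDiv ≠ ⊥) : ∃ N : ℕ, 0 < N ∧ ∃ η : K, η ≠ 0 ∧
      ∀ Q : Z.primeDivisors, 0 ≤ (Q.1 η : ℚ) + N * (F.cD + q.Δ) Q := by
  have e2 : q.logDiv = (F.cD + q.Δ) + Z.prin h := by
    unfold ProjVar.Pair.logDiv
    ext Q
    rw [Finsupp.add_apply, Finsupp.add_apply, Finsupp.add_apply, hq, EFrame.cD_apply,
      ProjVar.prin_apply]
    ring
  have hκ' : Z.kod (F.cD + q.Δ) ≠ ⊥ := by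
    rwa [e2, Z.kod_add_prin _ hh] at hκ
  exact exists_pluri_e hκ'

/-- No horizontal boundary. -/
theorem ezero_main {d : ℕ} (hd : Algebra.trdeg k K = d) (hmor : IsMorphism X Z)
    (hequi : ∀ P ∈ X.primeDivisors, (∃ a : K, P (algebraMap K L a) ≠ 0) →
      ∃ Q ∈ Z.primeDivisors, ∃ e, LiesOver P Q e)
    {t y : L'} {l : K'} (h : Leg t y l) (hg : IntermediateField.adjoin K' {t, y} = ⊤)
    (p : X.Pair (d + 1)) (q : Z.Pair d)
    (h0 : ∀ P : X.primeDivisors, (∀ x : K, P.1 (algebraMap K L x) = 0) → p.Δ P = 0)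
    (hq : IsOrbifoldBase p q) (hκ : Z.kod q.logDiv ≠ ⊥) :
    ∃ B : Z.Div, (∀ Q, 0 ≤ B Q) ∧ ∀ ε : ℚ, 0 < ε →
      X.kod p.logDiv = (0 : ℕ) + Z.kod (q.logDiv + ε • B) ∧
      X.nu p.logDiv = (0 : ℕ) + Z.nu (q.logDiv + ε • B) := by
  have i1 : IsScalarTower k (IntermediateField.adjoin K' {t}) L' :=
    IsScalarTower.of_algebraMap_eq fun _ => rfl
  have C := ecurve_of_adjoin h hg
  obtain ⟨F, g, h', hg', hh', hp, hq'⟩ := exists_eframe hd hmor hequi C p q
  obtain ⟨N₃, hN₃, η, hη, hT⟩ := exists_pluri_frame F hh' hq' hκ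
  obtain ⟨B, hB⟩ := eframe_zero F C h0 hq hN₃ hη hT
  exact transfer F hg' hh' hp hq' hB

/-- The horizontal boundary is nonzero, contains the origin and splits over `K'`. -/
theorem esplit_main {d : ℕ} (hd : Algebra.trdeg k K = d) (hmor : IsMorphism X Z)
    (hequi : ∀ P ∈ X.primeDivisors, (∃ a : K, P (algebraMap K L a) ≠ 0) →
      ∃ Q ∈ Z.primeDivisors, ∃ e, LiesOver P Q e)
    {t y : L'} {l : K'} (h : Leg t y l) (hg : IntermediateField.adjoin K' {t, y} = ⊤)
    (p : X.Pair (d + 1)) (q : Z.Pair d)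
    (hsplit : ∀ P : X.primeDivisors, (∀ x : K, P.1 (algebraMap K L x) = 0) → p.Δ P ≠ 0 →
      ∀ (v : DVal k L') (ε : ℕ), LiesOver v P.1 ε → v t < 0 ∨ ∃ x : K' × K', Near t y v x)
    {P₀ : X.primeDivisors} (hP₀ : ∀ x : K, P₀.1 (algebraMap K L x) = 0) (hΔ₀ : p.Δ P₀ ≠ 0)
    {v₀ : DVal k L'} {ε₀ : ℕ} (hv₀ : LiesOver v₀ P₀.1 ε₀) (hv₀t : v₀ t < 0)
    (hq : IsOrbifoldBase p q) (hκ : Z.kod q.logDiv ≠ ⊥) :
    ∃ B : Z.Div, (∀ Q, 0 ≤ B Q) ∧ ∀ ε : ℚ, 0 < ε →
      X.kod p.logDiv = (1 : ℕ) + Z.kod (q.logDiv + ε • B) ∧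
      X.nu p.logDiv = (1 : ℕ) + Z.nu (q.logDiv + ε • B) := by
  classical
  have i1 : IsScalarTower k (IntermediateField.adjoin K' {t}) L' :=
    IsScalarTower.of_algebraMap_eq fun _ => rfl
  have C := ecurve_of_adjoin h hg
  obtain ⟨F, g, h', hg', hh', hp, hq'⟩ := exists_eframe hd hmor hequi C p q
  obtain ⟨N₃, hN₃, η, hη, hT⟩ := exists_pluri_frame F hh' hq' hκ
  -- the points of the support
  set W : Set (DVal k L') := {v | ∃ P : X.primeDivisors, (∀ x : K, P.1 (algebraMap K L x) = 0) ∧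
    p.Δ P ≠ 0 ∧ ∃ ε, LiesOver v P.1 ε} with hW
  have hWfin : W.Finite := by
    have e1 : (⋃ P ∈ p.Δ.support, {v : DVal k L' | ∃ ε, LiesOver v P.1 ε}).Finite :=
      p.Δ.support.finite_toSet.biUnion fun P _ => finite_above P.1
    refine e1.subset ?_
    rintro v ⟨P, -, hP, ε, hv⟩
    rw [Set.mem_iUnion₂]
    exact ⟨P, Finsupp.mem_support_iff.2 hP, ε, hv⟩
  have htriv : ∀ v ∈ W, ∀ x : K', v (algebraMap K' L' x) = 0 := by
    rintro v ⟨P, hP, -, ε, hv⟩
    exact triv_ext (K := K) hP hv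
  set S' : Set (K' × K') := {x | ∃ v ∈ W, Near t y v x} with hS'
  have hSfin : S'.Finite := by
    have e1 : S' = ⋃ v ∈ W, {x | Near t y v x} := by
      ext x
      simp only [hS', Set.mem_ofPred_eq, Set.mem_iUnion, exists_prop]
    rw [e1]
    refine hWfin.biUnion fun v hv => ?_
    refine Set.Subsingleton.finite ?_
    intro x hx x' hx'
    exact near_eq (htriv v hv) hx hx'
  set S : Finset (K' × K') := hSfin.toFinset with hSdef
  have hmem : ∀ x, x ∈ S ↔ ∃ v ∈ W, Near t y v x := fun x => by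
    rw [hSdef, Set.Finite.mem_toFinset]
    exact Iff.rfl
  have hS : ∀ x ∈ S, OnE l x := by
    intro x hx
    obtain ⟨v, hv, hn⟩ := (hmem x).1 hx
    exact onE_of_near h (htriv v hv) hn
  -- the smallest coefficient
  have hpos : ∀ P : X.primeDivisors, p.Δ P ≠ 0 → 0 < p.Δ P := fun P hP =>
    lt_of_le_of_ne (p.nonneg P) (Ne.symm hP)
  obtain ⟨η', hη', hmin⟩ : ∃ η' : ℚ, 0 < η' ∧ ∀ P : X.primeDivisors, p.Δ P ≠ 0 → η' ≤ p.Δ P := by
    obtain ⟨P₁, hP₁, hmin⟩ := Finset.exists_min_image p.Δ.support (fun P => p.Δ P)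
      ⟨P₀, Finsupp.mem_support_iff.2 hΔ₀⟩
    exact ⟨p.Δ P₁, hpos P₁ (Finsupp.mem_support_iff.1 hP₁), fun P hP =>
      hmin P (Finsupp.mem_support_iff.2 hP)⟩
  have hv₀K : ∀ x : K', v₀ (algebraMap K' L' x) = 0 := triv_ext (K := K) hP₀ hv₀
  have hbig : ∀ P : X.primeDivisors, (∀ x : K, P.1 (algebraMap K L x) = 0) →
      ∀ (v : DVal k L') (ε : ℕ), LiesOver v P.1 ε →
        (v t < 0 ∨ ∃ x ∈ S, Near t y v x) → η' ≤ p.Δ P := by
    intro P hP v ε hv hcase
    have hvK : ∀ x : K', v (algebraMap K' L' x) = 0 := triv_ext (K := K) hP hv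
    rcases hcase with hc | ⟨x, hx, hc⟩
    · have e1 : v = v₀ := C.inf_unique hvK hv₀K hc hv₀t
      subst e1
      have e2 : P = P₀ := Subtype.ext (Helper47.PQ.liesOver_unique hv hv₀).1
      rw [e2]
      exact hmin P₀ hΔ₀
    · obtain ⟨v', ⟨P', hP', hΔ', ε', hv'⟩, hn⟩ := (hmem x).1 hx
      have hv'K : ∀ x : K', v' (algebraMap K' L' x) = 0 := triv_ext (K := K) hP' hv'
      have e1 : v = v' := C.near_unique hvK hv'K hc hn
      subst e1
      have e2 : P = P' := Subtype.ext (Helper47.PQ.liesOver_unique hv hv').1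
      rw [e2]
      exact hmin P' hΔ'
  have hsup : ∀ P : X.primeDivisors, (∀ x : K, P.1 (algebraMap K L x) = 0) → 0 < p.Δ P →
      ∀ (v : DVal k L') (ε : ℕ), LiesOver v P.1 ε → 0 ≤ v t → ∃ x ∈ S, Near t y v x := by
    intro P hP hΔ v ε hv hvt
    rcases hsplit P hP hΔ.ne' v ε hv with hc | ⟨x, hx⟩
    · omega
    · exact ⟨x, (hmem x).2 ⟨v, ⟨P, hP, hΔ.ne', ε, hv⟩, hx⟩, hx⟩
  obtain ⟨B, hB⟩ := eframe_pos F C hS (fun P _ => p.nonneg P) hη' hbig hsup hq hN₃ hη hT
  exact transfer F hg' hh' hp hq' hB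

end Pool.Agent.Helper60.PB
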