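import Pool.Agent.Helper60.PB.G1.CoefE

set_option autoImplicit false

/-!
# G1-15 UpE: the upper bound

From `eub_coef` (with `M = 1`): the map `f ↦ (coefficients of p₀, p₁)` is `k`-linear (`p₀, p₁` are
determined by `p₀(t) + p₁(t) y`: `Leg.indep`) and injective (`u, y, Ψ, g(t) ≠ 0`) from
`H⁰(X, m (aD + Δ) + A)` to `2 (m J + J_A + 1)` copies of `famH0 K' Z (..)`, so
`sdim ≤ 2 (m J + J_A + 1) sdim (famH0 ..)` (`sdim_le_card_mul`, as in
`Helper47.PQ.IsFiniteCover.sdim_trace` and in `Helper63.PB.upper_of_uData`), and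
`2 (m J + J_A + 1) ≤ 2 (J + J_A + 1) m ^ s` for `m ≥ 1`, `s = 0` if `J = 0`, `s = 1` otherwise.
-/

namespace Pool.Agent.Helper60.PB

open Pool.Agent.Helper92.Weak Pool.Agent.Helper92.Ga Pool.Agent.Helper63.PB

variable {k K L K' L₀ L' : Type*} [Field k] [Field K] [Field L] [Field K'] [Field L₀] [Field L']
  [Algebra k K] [Algebra k L] [Algebra k K'] [Algebra k L₀] [Algebra k L'] [Algebra K L]
  [Algebra K K'] [Algebra K L'] [Algebra L L'] [Algebra K' L₀] [Algebra K' L'] [Algebra L₀ L']
  [IsScalarTower k K L] [IsScalarTower k K K'] [IsScalarTower k K L'] [IsScalarTower k L L']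
  [IsScalarTower k K' L₀] [IsScalarTower k K' L'] [IsScalarTower k L₀ L']
  [IsScalarTower K' L₀ L'] [IsScalarTower K L L'] [IsScalarTower K K' L'] [FiniteDimensional K K']
  [FiniteDimensional L L'] [Algebra.IsPushout K K' L L'] [CharZero k]
  {X : ProjVar k L} {Z : ProjVar k K} {t₀ : L₀} {y : L'} {l : K'}
  {F : EFrame X Z K' (algebraMap L₀ L' t₀) y l} {Δ : X.Div} {E : Z.Div}
  {B : Finset Z.primeDivisors}

theorem upper_of_euData (C : ECurve t₀ y l) (U : EUData F Δ E B) :
    UpperData X Z K' (F.aD + Δ) (F.cD + E) B (if U.J = 0 then 0 else 1) := by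
  classical
  obtain ⟨C₁, hC⟩ := eub_coef C U
  refine ⟨1, C₁, one_pos, fun A => ?_⟩
  obtain ⟨A', G, JA, hG, hA, h⟩ := hC A
  refine ⟨A', 2 * (U.J + JA + 1), hA, fun q hq => ?_⟩
  rw [mul_one]
  have hy : y ≠ 0 := by
    intro hy
    have := C.leg.indep (K := K') 0 1 (by rw [hy, map_zero, mul_zero, add_zero])
    exact one_ne_zero this.2
  have hG' : Polynomial.aeval (algebraMap L₀ L' t₀) G ≠ 0 := by
    intro h0
    have := C.leg.indep (K := K') G 0 (by rw [h0, map_zero, zero_mul, add_zero])
    exact hG this.1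
  have huniq : ∀ a b a' b' : Polynomial K',
      Polynomial.aeval (algebraMap L₀ L' t₀) a + Polynomial.aeval (algebraMap L₀ L' t₀) b * y =
        Polynomial.aeval (algebraMap L₀ L' t₀) a' + Polynomial.aeval (algebraMap L₀ L' t₀) b' * y → a = a' ∧ b = b' := by
    intro a b a' b' hab
    have := C.leg.indep (K := K') (a - a') (b - b') (by
      rw [map_sub, map_sub]
      linear_combination hab)
    exact ⟨sub_eq_zero.1 this.1, sub_eq_zero.1 this.2⟩
  set W := X.H0 ((q : ℚ) • (F.aD + Δ) + A) with hW
  set W' := famH0 K' Z ((q : ℚ) • (F.cD + E + (C₁ : ℚ) • redDiv B) + A') with hW'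
  have hex : ∀ f : W, ∃ p : Polynomial K' × Polynomial K',
      algebraMap L L' f.1 * (F.u * y * U.Ψ) ^ q * Polynomial.aeval (algebraMap L₀ L' t₀) G =
        Polynomial.aeval (algebraMap L₀ L' t₀) p.1 + Polynomial.aeval (algebraMap L₀ L' t₀) p.2 * y ∧
      p.1.natDegree ≤ q * U.J + JA ∧ p.2.natDegree ≤ q * U.J + JA ∧
      ∀ j, p.1.coeff j ∈ W' ∧ p.2.coeff j ∈ W' := fun f => by
    obtain ⟨p₀, p₁, h1, h2, h3, h4⟩ := h q f.1 hq f.2
    exact ⟨(p₀, p₁), h1, h2, h3, h4⟩
  choose p hp1 hp2 hp3 hp4 using hex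
  have hadd : ∀ f g : W, (p (f + g)).1 = (p f).1 + (p g).1 ∧ (p (f + g)).2 = (p f).2 + (p g).2 := by
    intro f g
    apply huniq
    rw [← hp1, Submodule.coe_add, map_add, map_add, map_add]
    have h1 := hp1 f
    have h2 := hp1 g
    linear_combination h1 + h2
  have hsmul : ∀ (c : k) (f : W), (p (c • f)).1 = Polynomial.C (algebraMap k K' c) * (p f).1 ∧
      (p (c • f)).2 = Polynomial.C (algebraMap k K' c) * (p f).2 := by
    intro c f
    apply huniq
    rw [← hp1, Submodule.coe_smul, Algebra.smul_def, map_mul, map_mul, map_mul,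
      Polynomial.aeval_C, ← IsScalarTower.algebraMap_apply k K' L',
      ← IsScalarTower.algebraMap_apply k L L']
    have h1 := hp1 f
    linear_combination algebraMap k L' c * h1
  let co : Bool → Polynomial K' × Polynomial K' → Polynomial K' := fun b x => if b then x.1 else x.2
  let Fm : W →ₗ[k] (Bool × Fin (q * U.J + JA + 1) → W') :=
    { toFun := fun f j => ⟨(co j.1 (p f)).coeff j.2, by
        rcases j with ⟨_ | _, j⟩
        · exact (hp4 f j).2
        · exact (hp4 f j).1⟩
      map_add' := fun f g => by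
        funext j
        apply Subtype.ext
        rcases j with ⟨_ | _, j⟩
        · change (p (f + g)).2.coeff j = (p f).2.coeff j + (p g).2.coeff j
          rw [(hadd f g).2, Polynomial.coeff_add]
        · change (p (f + g)).1.coeff j = (p f).1.coeff j + (p g).1.coeff j
          rw [(hadd f g).1, Polynomial.coeff_add]
      map_smul' := fun c f => by
        funext j
        apply Subtype.ext
        rcases j with ⟨_ | _, j⟩
        · change (p (c • f)).2.coeff j = c • (p f).2.coeff j
          rw [(hsmul c f).2, Polynomial.coeff_C_mul, Algebra.smul_def]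
        · change (p (c • f)).1.coeff j = c • (p f).1.coeff j
          rw [(hsmul c f).1, Polynomial.coeff_C_mul, Algebra.smul_def] }
  have hFm : Function.Injective Fm := by
    intro f g hfg
    have h1 : (p f).1 = (p g).1 := by
      apply Polynomial.ext
      intro j
      by_cases hj : j < q * U.J + JA + 1
      · exact congrArg Subtype.val (congrFun hfg (true, ⟨j, hj⟩))
      · have hf := hp2 f
        have hg := hp2 g
        rw [Polynomial.coeff_eq_zero_of_natDegree_lt (by omega),
          Polynomial.coeff_eq_zero_of_natDegree_lt (by omega)]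
    have h1' : (p f).2 = (p g).2 := by
      apply Polynomial.ext
      intro j
      by_cases hj : j < q * U.J + JA + 1
      · exact congrArg Subtype.val (congrFun hfg (false, ⟨j, hj⟩))
      · have hf := hp3 f
        have hg := hp3 g
        rw [Polynomial.coeff_eq_zero_of_natDegree_lt (by omega),
          Polynomial.coeff_eq_zero_of_natDegree_lt (by omega)]
    have h2 := hp1 f
    rw [h1, h1', ← hp1 g] at h2
    have h3 := mul_right_cancel₀ hG' h2
    have h4 := mul_right_cancel₀ (pow_ne_zero q (mul_ne_zero (mul_ne_zero F.u_ne hy) U.Ψ_ne)) h3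
    exact Subtype.ext ((algebraMap L L').injective h4)
  have h6 := sdim_le_card_mul
    ((Finsupp.linearEquivFunOnFinite k W' (Bool × Fin (q * U.J + JA + 1))).symm.toLinearMap ∘ₗ Fm)
    ((Finsupp.linearEquivFunOnFinite k W' (Bool × Fin (q * U.J + JA + 1))).symm.injective.comp hFm)
  rw [Fintype.card_prod, Fintype.card_bool, Fintype.card_fin] at h6
  refine h6.trans (mul_le_mul_left ?_ _)
  have h7 : 2 * (q * U.J + JA + 1) ≤ 2 * (U.J + JA + 1) * q ^ (if U.J = 0 then 0 else 1) := by
    by_cases hJ : U.J = 0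
    · rw [if_pos hJ, hJ, pow_zero, mul_one]
      omega
    · rw [if_neg hJ, pow_one]
      nlinarith
  exact_mod_cast h7

end Pool.Agent.Helper60.PB
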