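import Pool.Agent.Helper60.PB.G1.EDefs
import Pool.Agent.Helper63.PB.Under

set_option autoImplicit false

/-!
# G1-01 ValTab: the places of `L' = K'(t, y)` over the places of `L₀ = K'(t)`

Write `t` for the image of `t₀` in `L'`, `f = t (t - 1) (t - l) = y ^ 2`.

`ram_le`: the ramification index of `v / w` is at most two. PROOF. Let `v z = 1` (`v.surj'`), `z = A + B y`
(`C.gen`): `z ^ 2 = 2 A z - (A ^ 2 - B ^ 2 f)`, so `z ^ 2 = a z + b` with `a, b ∈ L₀`. If `n ≥ 3`, the values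
`2`, `n w a + 1`, `n w b` of the three terms (those which are nonzero) are distinct modulo `n`, so the sum
of the nonzero ones cannot vanish.

`ram_one`: if `v y = 0` then `n = 1`. PROOF. Otherwise `n = 2` by `ram_le` (`n > 0`). Let `v z = 1`,
`z = A + B y`; `B ≠ 0` since `v A` is even; `h = -A / B ∈ L₀`, `z = B (y - h)`, so `v (y - h)` is odd. If `h = 0`
or `v h < 0` then `v (y - h)` is `0` or `v h`, even. So `v h ≥ 0`, `v (y - h) ≥ 0`, `v (y + h) ≥ 0`. Now
`(y - h) (y + h) = f - h ^ 2` is in `L₀` and nonzero (`y ≠ ± h`: otherwise `y ∈ L₀`, which contradicts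
`C.leg.indep` after clearing denominators, `C.line.exists_div`; or: `y ≠ h` since `v (y - h)` is odd
and `v 0 = 0`; if `y = -h` then `v (y - h) = v (2 y) = 0`), so its value is even and `v (y + h)` is odd.
Hence both are at least one and `v (2 y) ≥ 1`, but `v 2 = 0`, `v y = 0`.

`val_inf`: `v` trivial on `K'`, `v t < 0`. PROOF. `exists_under` (`L' / L₀` is algebraic: every `z` satisfies a
quadratic equation): `v` over `w` with ramification `n`; `w` is trivial on `K'`, `w t₀ < 0`, so `w = infVal`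
(`Ga.eq_infVal`), `w t₀ = -1` (`infVal_t`), `v t = -n`. `v (t - 1) = v (t - l) = v t`, so `2 v y = 3 v t`
(`two_v_y`), `n` is even, and `n = 2` by `ram_le`.

`val_near`: `v` trivial on `K'`, `v t ≥ 0`, `v (t - b) ≥ 1`. PROOF. `v` over `w` (ramification `n`),
`w` trivial on `K'`, `w t₀ ≥ 0`, `w (t₀ - b) > 0`, so `w = pVal (X - C b)` (`Ga.exists_pVal`, `pVal_pos_iff`,
`pVal_eq_of_dvd`, compare `Helper63.PB.eq_plc_of_pos`), `w (t₀ - b) = 1`, `v (t - b) = n`. If `v y = 0`: `n = 1`.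
If `v y ≠ 0`, then `v y > 0` and `v (f) > 0`; `f - f(b)` is divisible by `t - b` in `K'[t]`, so `f(b) = 0` (`v` is
trivial on `K'`). The other two factors of `f` are units at `v` (`t - b' = (t - b) + (b - b')`), so
`2 v y = v (t - b) = n`, `n = 2`, `v y = 1`.
-/

namespace Pool.Agent.Helper60.PB

open Pool.Agent.Helper92.Weak Pool.Agent.Helper92.Ga Pool.Agent.Helper63.PB

variable {k K' L₀ L' : Type*} [Field k] [Field K'] [Field L₀] [Field L'] [Algebra k K']
  [Algebra k L₀] [Algebra k L'] [Algebra K' L₀] [Algebra K' L'] [Algebra L₀ L']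
  [IsScalarTower k K' L₀] [IsScalarTower k K' L'] [IsScalarTower k L₀ L']
  [IsScalarTower K' L₀ L'] [CharZero k] {t₀ : L₀} {y : L'} {l : K'}

namespace ECurve

private theorem valtab_y_ne (C : ECurve t₀ y l) (h : L₀) : y ≠ algebraMap L₀ L' h := by
  intro hy
  obtain ⟨a, b, hb, hab⟩ := C.line.exists_div h
  have hb' : algebraMap L₀ L' (Polynomial.aeval t₀ b) ≠ 0 :=
    (_root_.map_ne_zero _).2 (C.line.aeval_ne hb)
  have h1 : Polynomial.aeval (algebraMap L₀ L' t₀) (-a) +
      Polynomial.aeval (algebraMap L₀ L' t₀) b * y = 0 := by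
    rw [map_neg, Polynomial.aeval_algebraMap_apply, Polynomial.aeval_algebraMap_apply, hy, hab,
      map_div₀, mul_div_cancel₀ _ hb']
    ring
  exact hb (C.leg.indep _ _ h1).2

/-- the polynomial `f` in `L₀` -/
private theorem valtab_f (C : ECurve t₀ y l) :
    y ^ 2 = algebraMap L₀ L' (t₀ * (t₀ - 1) * (t₀ - algebraMap K' L₀ l)) := by
  rw [C.leg.eq, map_mul, map_mul, map_sub, map_sub, map_one,
    ← IsScalarTower.algebraMap_apply K' L₀ L']

private theorem valtab_two (v : DVal k L') : v (2 : L') = 0 := by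
  have h := v.map_const 2
  rwa [map_ofNat] at h

private theorem valtab_two_ne (k : Type*) {L' : Type*} [Field k] [Field L'] [Algebra k L']
    [CharZero k] : (2 : L') ≠ 0 := by
  have h : algebraMap k L' 2 ≠ 0 := (_root_.map_ne_zero _).2 two_ne_zero
  rwa [map_ofNat] at h

private theorem valtab_algebraic (C : ECurve t₀ y l) : Algebra.IsAlgebraic L₀ L' := by
  refine ⟨fun z => ?_⟩
  obtain ⟨A, B, hz⟩ := C.gen z
  obtain ⟨f, hf⟩ : ∃ f : L₀, y ^ 2 = algebraMap L₀ L' f := ⟨_, valtab_f C⟩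
  obtain ⟨a, ha⟩ : ∃ a : L₀, a = 2 * A := ⟨_, rfl⟩
  obtain ⟨c, hc⟩ : ∃ c : L₀, c = A ^ 2 - B ^ 2 * f := ⟨_, rfl⟩
  refine ⟨Polynomial.X ^ 2 - Polynomial.C a * Polynomial.X + Polynomial.C c, ?_, ?_⟩
  · intro h
    have h1 := congrArg (fun p => Polynomial.coeff p 2) h
    simp at h1
  · simp only [map_add, map_sub, map_mul, map_pow, Polynomial.aeval_X, Polynomial.aeval_C]
    rw [ha, hc]
    simp only [map_sub, map_mul, map_pow, map_ofNat]
    rw [← hf, hz]
    ring

theorem ram_le (C : ECurve t₀ y l) {v : DVal k L'} {w : DVal k L₀} {n : ℕ} (hv : LiesOver v w n) :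
    n ≤ 2 := by
  obtain ⟨hn, hv⟩ := hv
  by_contra hcon
  have hn3 : (3 : ℤ) ≤ n := by omega
  have hd1 : ¬ (n : ℤ) ∣ 1 := fun h => by
    have := Int.le_of_dvd one_pos h
    omega
  have hd2 : ¬ (n : ℤ) ∣ 2 := fun h => by
    have := Int.le_of_dvd two_pos h
    omega
  obtain ⟨z, hz⟩ := v.surj'
  have hz1 : v z = 1 := hz
  have hz0 : z ≠ 0 := v.ne_zero_of_pos (by omega)
  obtain ⟨A, B, hAB⟩ := C.gen z
  obtain ⟨f, hf⟩ : ∃ f : L₀, y ^ 2 = algebraMap L₀ L' f := ⟨_, valtab_f C⟩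
  obtain ⟨a, ha⟩ : ∃ a : L₀, a = 2 * A := ⟨_, rfl⟩
  obtain ⟨b, hb⟩ : ∃ b : L₀, b = B ^ 2 * f - A ^ 2 := ⟨_, rfl⟩
  have hq : z ^ 2 + -(algebraMap L₀ L' a * z) = algebraMap L₀ L' b := by
    rw [ha, hb]
    simp only [map_mul, map_sub, map_pow, map_ofNat]
    rw [← hf, hAB]
    ring
  have hz2 : v (z ^ 2) = 2 := by
    rw [v.map_pow, hz1]
    norm_num
  have hz20 : z ^ 2 ≠ 0 := pow_ne_zero _ hz0
  by_cases ha0 : a = 0
  · rw [ha0, map_zero, zero_mul, neg_zero, add_zero] at hq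
    rw [hq, hv] at hz2
    exact hd2 ⟨_, hz2.symm⟩
  · have ha' : algebraMap L₀ L' a ≠ 0 := (_root_.map_ne_zero _).2 ha0
    have haz : v (-(algebraMap L₀ L' a * z)) = n * w a + 1 := by
      rw [v.map_neg, v.map_mul ha' hz0, hv, hz1]
    have haz0 : -(algebraMap L₀ L' a * z) ≠ 0 := neg_ne_zero.2 (mul_ne_zero ha' hz0)
    rcases lt_trichotomy (v (z ^ 2)) (v (-(algebraMap L₀ L' a * z))) with h | h | h
    · have h1 := v.map_add_eq_of_lt hz20 (Or.inr h)
      rw [hq, hv, hz2] at h1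
      exact hd2 ⟨_, h1.symm⟩
    · rw [hz2, haz] at h
      exact hd1 ⟨w a, by linarith⟩
    · have h1 := v.map_add_eq_of_lt haz0 (Or.inr h)
      rw [add_comm, hq, hv, haz] at h1
      exact hd1 ⟨w b - w a, by rw [mul_sub]; linarith⟩

theorem ram_one (C : ECurve t₀ y l) {v : DVal k L'} {w : DVal k L₀} {n : ℕ} (hv : LiesOver v w n)
    (hy : v y = 0) : n = 1 := by
  have hn2 := C.ram_le hv
  obtain ⟨hn, hv⟩ := hv
  by_contra hcon
  obtain rfl : n = 2 := by omega
  obtain ⟨z, hz⟩ := v.surj'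
  have hz1 : v z = 1 := hz
  obtain ⟨A, B, hAB⟩ := C.gen z
  obtain ⟨f, hf⟩ : ∃ f : L₀, y ^ 2 = algebraMap L₀ L' f := ⟨_, valtab_f C⟩
  have hB : B ≠ 0 := by
    rintro rfl
    rw [map_zero, zero_mul, add_zero] at hAB
    rw [hAB, hv] at hz1
    push_cast at hz1
    omega
  have hB' : algebraMap L₀ L' B ≠ 0 := (_root_.map_ne_zero _).2 hB
  obtain ⟨h, hh⟩ : ∃ h : L₀, h = -A / B := ⟨_, rfl⟩
  have hzh : z = algebraMap L₀ L' B * (y - algebraMap L₀ L' h) := by
    rw [hAB, hh, map_div₀, map_neg, mul_sub, mul_div_cancel₀ _ hB']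
    ring
  have hyh : y - algebraMap L₀ L' h ≠ 0 := sub_ne_zero.2 (valtab_y_ne C h)
  have hyh' : y + algebraMap L₀ L' h ≠ 0 := by
    have h1 := valtab_y_ne C (-h)
    rw [map_neg] at h1
    intro h2
    exact h1 (eq_neg_of_add_eq_zero_left h2)
  have hval : v (y - algebraMap L₀ L' h) = 1 - 2 * w B := by
    rw [hzh, v.map_mul hB' hyh, hv] at hz1
    push_cast at hz1
    linarith
  have hvh : v (algebraMap L₀ L' h) = 2 * w h := by
    rw [hv]
    push_cast
    ring
  have hh0 : 0 ≤ v (algebraMap L₀ L' h) := by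
    by_contra hneg
    rw [not_le] at hneg
    have hne : -algebraMap L₀ L' h ≠ 0 := by
      intro h0
      rw [neg_eq_zero] at h0
      rw [h0, v.map_zero] at hneg
      exact lt_irrefl _ hneg
    have h1 := v.map_add_eq_of_lt hne (b := y) (Or.inr (by rw [v.map_neg, hy]; exact hneg))
    have h2 : -algebraMap L₀ L' h + y = y - algebraMap L₀ L' h := by ring
    rw [h2, hval, v.map_neg, hvh] at h1
    omega
  have hyR : y ∈ v.ring := by rw [DVal.mem_ring, hy]
  have hhR : algebraMap L₀ L' h ∈ v.ring := hh0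
  have h3 : 0 ≤ v (y - algebraMap L₀ L' h) := v.ring.sub_mem hyR hhR
  have h4 : 0 ≤ v (y + algebraMap L₀ L' h) := v.ring.add_mem hyR hhR
  have h5 : v (y - algebraMap L₀ L' h) + v (y + algebraMap L₀ L' h) = 2 * w (f - h ^ 2) := by
    rw [← v.map_mul hyh hyh']
    have h6 : (y - algebraMap L₀ L' h) * (y + algebraMap L₀ L' h) =
        algebraMap L₀ L' (f - h ^ 2) := by
      rw [map_sub, map_pow, ← hf]
      ring
    rw [h6, hv]
    push_cast
    ring
  have h7 : v.Ge 1 (y - algebraMap L₀ L' h) := by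
    right
    have : 1 ≤ v (y - algebraMap L₀ L' h) := by omega
    exact_mod_cast this
  have h8 : v.Ge 1 (y + algebraMap L₀ L' h) := by
    right
    have : 1 ≤ v (y + algebraMap L₀ L' h) := by omega
    exact_mod_cast this
  have h9 := h7.add h8
  have h10 : y - algebraMap L₀ L' h + (y + algebraMap L₀ L' h) = 2 * y := by ring
  have h2ne : (2 : L') ≠ 0 := valtab_two_ne k
  rw [h10, DVal.ge_iff (mul_ne_zero h2ne C.leg.y0), v.map_mul h2ne C.leg.y0, valtab_two, hy] at h9
  norm_num at h9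

theorem val_inf (C : ECurve t₀ y l) {v : DVal k L'} (hv : ∀ x : K', v (algebraMap K' L' x) = 0)
    (ht : v (algebraMap L₀ L' t₀) < 0) :
    LiesOver v (infVal k C.line) 2 ∧ v (algebraMap L₀ L' t₀) = -2 ∧ v y = -3 := by
  have := valtab_algebraic C
  obtain ⟨w, n, hw⟩ := exists_under (k := k) (E := L₀) v
  have hn0 : (0 : ℤ) < n := by exact_mod_cast hw.1
  have hwK : ∀ a : K', w (algebraMap K' L₀ a) = 0 := fun a => by
    have h1 := hw.2 (algebraMap K' L₀ a)
    rw [← IsScalarTower.algebraMap_apply, hv] at h1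
    rcases mul_eq_zero.1 h1.symm with h2 | h2
    · omega
    · exact h2
  have hwt : w t₀ < 0 := by
    rw [hw.2] at ht
    exact neg_of_mul_neg_right ht hn0.le
  have hwi := eq_infVal C.line w hwK hwt
  have hvt : v (algebraMap L₀ L' t₀) = -n := by
    rw [hw.2, hwi, infVal_t]
    ring
  have h1 : v (algebraMap L₀ L' t₀ - 1) = -n := by
    rw [sub_eq_add_neg, v.map_add_eq_of_lt C.leg.t0 (Or.inr (by
      rw [v.map_neg, v.map_one]
      exact ht)), hvt]
  have h2 : v (algebraMap L₀ L' t₀ - algebraMap K' L' l) = -n := by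
    rw [sub_eq_add_neg, v.map_add_eq_of_lt C.leg.t0 (Or.inr (by
      rw [v.map_neg, hv]
      exact ht)), hvt]
  have h3 := two_v_y (v := v) C.leg
  rw [hvt, h1, h2] at h3
  have h4 := C.ram_le hw
  obtain rfl : n = 2 := by omega
  refine ⟨?_, by exact_mod_cast hvt, by push_cast at h3; omega⟩
  rw [← hwi]
  exact hw

theorem val_y_nonneg (C : ECurve t₀ y l) {v : DVal k L'} (hv : ∀ x : K', v (algebraMap K' L' x) = 0)
    (ht : 0 ≤ v (algebraMap L₀ L' t₀)) : 0 ≤ v y := by
  have h1 : algebraMap L₀ L' t₀ ∈ v.ring := ht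
  have h2 : 0 ≤ v (algebraMap L₀ L' t₀ - 1) := v.ring.sub_mem h1 v.ring.one_mem
  have h3 : 0 ≤ v (algebraMap L₀ L' t₀ - algebraMap K' L' l) :=
    v.ring.sub_mem h1 (by rw [DVal.mem_ring, hv])
  have h4 := two_v_y (v := v) C.leg
  omega

/-- If `v y > 0` then `v` is a place over one of the three roots. -/
theorem exists_root (C : ECurve t₀ y l) {v : DVal k L'} (hv : ∀ x : K', v (algebraMap K' L' x) = 0)
    (ht : 0 ≤ v (algebraMap L₀ L' t₀)) (hy : v y ≠ 0) :
    ∃ b : K', b * (b - 1) * (b - l) = 0 ∧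
      v.Ge 1 (algebraMap L₀ L' t₀ - algebraMap K' L' b) := by
  have h0 := C.val_y_nonneg hv ht
  have h1 := two_v_y (v := v) C.leg
  have key : ∀ b : K', 0 < v (algebraMap L₀ L' t₀ - algebraMap K' L' b) →
      v.Ge 1 (algebraMap L₀ L' t₀ - algebraMap K' L' b) := fun b hb => by
    right
    have : 1 ≤ v (algebraMap L₀ L' t₀ - algebraMap K' L' b) := by omega
    exact_mod_cast this
  by_cases ha : 0 < v (algebraMap L₀ L' t₀)
  · refine ⟨0, by ring, key 0 ?_⟩
    rw [map_zero, sub_zero]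
    exact ha
  by_cases hb : 0 < v (algebraMap L₀ L' t₀ - 1)
  · refine ⟨1, by ring, key 1 ?_⟩
    rw [map_one]
    exact hb
  · refine ⟨l, by ring, key l ?_⟩
    omega

theorem val_near (C : ECurve t₀ y l) {v : DVal k L'} (hv : ∀ x : K', v (algebraMap K' L' x) = 0)
    (ht : 0 ≤ v (algebraMap L₀ L' t₀)) {b : K'}
    (hb : v.Ge 1 (algebraMap L₀ L' t₀ - algebraMap K' L' b)) :
    (v y = 0 → LiesOver v (pVal k C.line (Polynomial.X - Polynomial.C b)
        (Polynomial.prime_X_sub_C b)) 1 ∧ v (algebraMap L₀ L' t₀ - algebraMap K' L' b) = 1) ∧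
    (v y ≠ 0 → LiesOver v (pVal k C.line (Polynomial.X - Polynomial.C b)
        (Polynomial.prime_X_sub_C b)) 2 ∧ v (algebraMap L₀ L' t₀ - algebraMap K' L' b) = 2 ∧
        v y = 1 ∧ b * (b - 1) * (b - l) = 0) := by
  have := valtab_algebraic C
  obtain ⟨w, n, hw⟩ := exists_under (k := k) (E := L₀) v
  have hn0 : (0 : ℤ) < n := by exact_mod_cast hw.1
  have hwK : ∀ a : K', w (algebraMap K' L₀ a) = 0 := fun a => by
    have h1 := hw.2 (algebraMap K' L₀ a)
    rw [← IsScalarTower.algebraMap_apply, hv] at h1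
    rcases mul_eq_zero.1 h1.symm with h2 | h2
    · omega
    · exact h2
  have hwt : 0 ≤ w t₀ := by
    rw [hw.2] at ht
    exact nonneg_of_mul_nonneg_right ht hn0
  obtain ⟨p, hp, hwp⟩ := exists_pVal C.line w hwK hwt
  have hb1 : 1 ≤ v (algebraMap L₀ L' t₀ - algebraMap K' L' b) := by
    rw [DVal.ge_iff (C.leg.sub_ne b)] at hb
    exact_mod_cast hb
  have hbL : algebraMap L₀ L' t₀ - algebraMap K' L' b =
      algebraMap L₀ L' (Polynomial.aeval t₀ (Polynomial.X - Polynomial.C b)) := by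
    rw [map_sub, Polynomial.aeval_X, Polynomial.aeval_C, map_sub,
      ← IsScalarTower.algebraMap_apply]
  have hpos : 0 < w (Polynomial.aeval t₀ (Polynomial.X - Polynomial.C b)) := by
    rw [hbL, hw.2] at hb1
    exact pos_of_mul_pos_right (by omega) hn0.le
  have hdvd : p ∣ Polynomial.X - Polynomial.C b := by
    rw [hwp] at hpos
    exact (pVal_pos_iff k C.line hp (Polynomial.X_sub_C_ne_zero b)).1 hpos
  have hwb : w = pVal k C.line (Polynomial.X - Polynomial.C b) (Polynomial.prime_X_sub_C b) := by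
    rw [hwp]
    exact (pVal_eq_of_dvd k C.line (Polynomial.prime_X_sub_C b) hp hdvd).symm
  have hvb : v (algebraMap L₀ L' t₀ - algebraMap K' L' b) = n := by
    rw [hbL, hw.2, hwb, pVal_self, mul_one]
  have hother : ∀ b' : K', b ≠ b' → v (algebraMap L₀ L' t₀ - algebraMap K' L' b') = 0 := by
    intro b' hbb
    have hne : algebraMap K' L' (b - b') ≠ 0 := (_root_.map_ne_zero _).2 (sub_ne_zero.2 hbb)
    have h1 := v.map_add_eq_of_lt hne (b := algebraMap L₀ L' t₀ - algebraMap K' L' b)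
      (Or.inr (by rw [hv]; omega))
    have h2 : algebraMap K' L' (b - b') + (algebraMap L₀ L' t₀ - algebraMap K' L' b) =
        algebraMap L₀ L' t₀ - algebraMap K' L' b' := by
      rw [map_sub]
      ring
    rw [h2, hv] at h1
    exact h1
  have hram := C.ram_le hw
  refine ⟨fun hy => ?_, fun hy => ?_⟩
  · have hn1 := C.ram_one hw hy
    subst hn1
    refine ⟨?_, by exact_mod_cast hvb⟩
    rw [← hwb]
    exact hw
  · have h1 := two_v_y (v := v) C.leg
    have e0 : v (algebraMap L₀ L' t₀) = v (algebraMap L₀ L' t₀ - algebraMap K' L' 0) := by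
      rw [map_zero, sub_zero]
    have e1 : v (algebraMap L₀ L' t₀ - 1) = v (algebraMap L₀ L' t₀ - algebraMap K' L' 1) := by
      rw [map_one]
    rw [e0, e1] at h1
    have hroot : b * (b - 1) * (b - l) = 0 ∧ 2 * v y = n := by
      by_cases c0 : b = 0
      · subst c0
        refine ⟨by ring, ?_⟩
        rw [h1, hvb, hother 1 zero_ne_one, hother l C.leg.l0.symm]
        ring
      by_cases c1 : b = 1
      · subst c1
        refine ⟨by ring, ?_⟩
        rw [h1, hvb, hother 0 one_ne_zero, hother l C.leg.l1.symm]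
        ring
      by_cases c2 : b = l
      · subst c2
        refine ⟨by ring, ?_⟩
        rw [h1, hvb, hother 0 C.leg.l0, hother 1 C.leg.l1]
        ring
      · exfalso
        rw [hother 0 c0, hother 1 c1, hother l c2] at h1
        omega
    have hyn := C.val_y_nonneg hv ht
    obtain rfl : n = 2 := by omega
    refine ⟨?_, by exact_mod_cast hvb, by omega, hroot.1⟩
    rw [← hwb]
    exact hw

end ECurve

end Pool.Agent.Helper60.PB
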